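import Pool.Agent.K4H90.Seg.Plane

/-!
# Straight-line drawings with the vertices on given segments, embedding not fixed

Definitions of the decision problem: a planar graph (given by lists of neighbours), a line segment
with rational endpoints for every vertex, and a list of obstacles.  No embedding is given.
-/

namespace Pool.Agent.U788.SegW

open Pool.Agent.NPC

/-- A line segment in the plane: its two end points, with rational coordinates, and a flag telling
whether the segment is closed (end points included) or open (end points excluded). -/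
structure Seg where
  /-- first end point -/
  p : ℚ × ℚ
  /-- second end point -/
  q : ℚ × ℚ
  /-- closed or open -/
  closed : Bool
  deriving DecidableEq

/-- The point of the real plane with given rational coordinates. -/
def toR (p : ℚ × ℚ) : ℝ × ℝ := ((p.1 : ℝ), (p.2 : ℝ))

/-- The point set of a segment: all points between the two end points, the end points being
included exactly if the segment is closed.  (Valid instances have only segments with two different
end points.) -/
def Seg.pts (s : Seg) : Set (ℝ × ℝ) :=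
  if s.closed = true then segment ℝ (toR s.p) (toR s.q) else openSegment ℝ (toR s.p) (toR s.q)

/-- An instance of the problem. -/
structure Inst where
  /-- for every vertex: its name, its segment, and the list of its neighbours (the order of this
  list has no meaning) -/
  verts : List (ℕ × Seg × List ℕ)
  /-- the obstacles -/
  obstacles : List Seg

instance : TEnc Seg := ⟨fun s => toT (s.p, s.q, s.closed), fun s t h => by
  have h1 := TEnc.inj h
  cases s; cases t
  simp only [Prod.mk.injEq] at h1
  simp [h1]⟩

instance : TEnc Inst := ⟨fun s => toT (s.verts, s.obstacles), fun s t h => by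
  have h1 := TEnc.inj h
  cases s; cases t
  simp only [Prod.mk.injEq] at h1
  simp [h1]⟩

/-- The names of the vertices. -/
def Inst.names (I : Inst) : List ℕ := I.verts.map (fun e => e.1)

/-- `v` is in the list of the neighbours of `u`. -/
def Inst.Nbr (I : Inst) (u v : ℕ) : Prop := ∃ e ∈ I.verts, e.1 = u ∧ v ∈ e.2.2

/-- The data describe a finite simple graph and proper segments: the vertices have different names,
the list of every vertex contains every neighbour once and does not contain the vertex itself,
neighbourhood is symmetric (so that every neighbour is a vertex), and every segment, also every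
obstacle, has two different end points. -/
structure Inst.Valid (I : Inst) : Prop where
  nodup : I.names.Nodup
  nbrs_nodup : ∀ e ∈ I.verts, e.2.2.Nodup
  loopless : ∀ u, ¬ I.Nbr u u
  symm : ∀ u v, I.Nbr u v → I.Nbr v u
  seg : ∀ e ∈ I.verts, e.2.1.p ≠ e.2.1.q
  obs : ∀ s ∈ I.obstacles, s.p ≠ s.q

/-- The graph is connected. -/
def Inst.Connected (I : Inst) : Prop :=
  ∀ u ∈ I.names, ∀ v ∈ I.names, Relation.ReflTransGen I.Nbr u v

/-- `D` is a planar (crossing-free) straight-line drawing of the graph: the vertices are at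
different points, no vertex lies on an edge of which it is not an end vertex, and two different
edges have no point in common except the position of a common end vertex. -/
structure Inst.IsDrawing (I : Inst) (D : ℕ → ℝ × ℝ) : Prop where
  inj : ∀ u ∈ I.names, ∀ v ∈ I.names, D u = D v → u = v
  off : ∀ w ∈ I.names, ∀ u v, I.Nbr u v → D w ∈ segment ℝ (D u) (D v) → w = u ∨ w = v
  plane : ∀ u v u' v', I.Nbr u v → I.Nbr u' v' → s(u, v) ≠ s(u', v') →
    ∀ p ∈ segment ℝ (D u) (D v), p ∈ segment ℝ (D u') (D v') →
      ∃ w, w ∈ s(u, v) ∧ w ∈ s(u', v') ∧ p = D w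

/-- The graph is planar: it has a planar straight-line drawing. -/
def Inst.Planar (I : Inst) : Prop := ∃ D, I.IsDrawing D

/-- The graph has a planar straight-line drawing that has every vertex on its segment and in which
no edge meets an obstacle.  No embedding is prescribed. -/
def Inst.Solvable (I : Inst) : Prop :=
  ∃ D, I.IsDrawing D ∧ (∀ e ∈ I.verts, D e.1 ∈ e.2.1.pts) ∧
    ∀ u v, I.Nbr u v → ∀ s ∈ I.obstacles, ∀ p ∈ segment ℝ (D u) (D v), p ∉ s.pts

/-! ### Consequences of the absence of crossings -/

open Pool.Agent.K4H90.SegDraw (NC hdiff seg_x seg_line pl pl_inj mem_segment_pl)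

/-- A point of a segment with given abscissa. -/
theorem exists_on {P Q : ℝ × ℝ} (h : P.1 < Q.1) {x : ℝ} (h1 : P.1 ≤ x) (h2 : x ≤ Q.1) :
    (x, P.2 + (Q.2 - P.2) * ((x - P.1) / (Q.1 - P.1))) ∈ segment ℝ P Q := by
  have hd : 0 < Q.1 - P.1 := by linarith
  have e : (x - P.1) / (Q.1 - P.1) * (Q.1 - P.1) = x - P.1 := div_mul_cancel₀ _ hd.ne'
  refine ⟨1 - (x - P.1) / (Q.1 - P.1), (x - P.1) / (Q.1 - P.1), ?_, ?_, by ring, ?_⟩
  · rw [sub_nonneg, div_le_one hd]; linarith
  · exact div_nonneg (by linarith) hd.le
  · ext
    · simp only [Prod.fst_add, Prod.smul_fst, smul_eq_mul]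
      linarith
    · simp only [Prod.snd_add, Prod.smul_snd, smul_eq_mul]
      ring

/-- Two crossing segments with only common end points: they start or end together. -/
theorem nc_cross {P Q R S : ℝ × ℝ} (h : NC P Q R S) {a b : ℝ} (hab : a < b)
    (h1 : P.1 ≤ a) (h2 : R.1 ≤ a) (h3 : b ≤ Q.1) (h4 : b ≤ S.1)
    (hu : 0 ≤ hdiff P Q R S a) (hv : hdiff P Q R S b ≤ 0) : P = R ∨ Q = S := by
  have hPQ : P.1 < Q.1 := by linarith
  have hRS : R.1 < S.1 := by linarith
  -- the common abscissa
  obtain ⟨x, hx1, hx2, hx⟩ : ∃ x, a ≤ x ∧ x ≤ b ∧ hdiff P Q R S x = 0 := by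
    set A := hdiff P Q R S a with hA
    set B := hdiff P Q R S b with hB
    rcases eq_or_lt_of_le (by linarith : 0 ≤ A - B) with h0 | h0
    · exact ⟨a, le_rfl, hab.le, by rw [← hA]; linarith⟩
    · refine ⟨a + (b - a) * (A / (A - B)), ?_, ?_, ?_⟩
      · have : 0 ≤ (b - a) * (A / (A - B)) :=
          mul_nonneg (by linarith) (div_nonneg hu h0.le)
        linarith
      · have e1 : A / (A - B) ≤ 1 := by rw [div_le_one h0]; linarith
        have : (b - a) * (A / (A - B)) ≤ (b - a) * 1 :=
          mul_le_mul_of_nonneg_left e1 (by linarith)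
        linarith
      · have haff : ∀ x, (b - a) * hdiff P Q R S x = (b - x) * A + (x - a) * B := by
          intro x
          rw [hA, hB]
          unfold hdiff
          ring
        have e2 := haff (a + (b - a) * (A / (A - B)))
        have e3 : (b - (a + (b - a) * (A / (A - B)))) * A +
            (a + (b - a) * (A / (A - B)) - a) * B =
            (b - a) * (A - A / (A - B) * (A - B)) := by ring
        rw [e3, div_mul_cancel₀ _ h0.ne', sub_self, mul_zero] at e2
        rcases mul_eq_zero.1 e2 with e4 | e4
        · linarith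
        · exact e4
  have m1 := exists_on hPQ (x := x) (by linarith) (by linarith)
  have m2 := exists_on hRS (x := x) (by linarith) (by linarith)
  have hy : P.2 + (Q.2 - P.2) * ((x - P.1) / (Q.1 - P.1)) =
      R.2 + (S.2 - R.2) * ((x - R.1) / (S.1 - R.1)) := by
    unfold hdiff at hx
    have d1 : Q.1 - P.1 ≠ 0 := by linarith
    have d2 : S.1 - R.1 ≠ 0 := by linarith
    field_simp
    linarith
  rw [← hy] at m2
  obtain ⟨k1, k2⟩ := h _ m1 m2
  rcases k1 with k1 | k1
  · rcases k2 with k2 | k2
    · exact Or.inl (k1.symm.trans k2)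
    · have e1 := congrArg Prod.fst k1
      have e2 := congrArg Prod.fst k2
      simp only at e1 e2
      linarith
  · rcases k2 with k2 | k2
    · have e1 := congrArg Prod.fst k1
      have e2 := congrArg Prod.fst k2
      simp only at e1 e2
      linarith
    · exact Or.inr (k1.symm.trans k2)

/-- `R S` is above `P Q` at the right abscissa if it is above at the left one. -/
theorem ncA {P Q R S : ℝ × ℝ} (h : NC P Q R S) (a b : ℝ) (hab : a < b)
    (h1 : P.1 ≤ a) (h2 : R.1 ≤ a) (h3 : b ≤ Q.1) (h4 : b ≤ S.1)
    (n1 : P ≠ R) (n2 : Q ≠ S) (hu : 0 ≤ hdiff P Q R S a) : 0 < hdiff P Q R S b := by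
  by_contra hc
  rcases nc_cross h hab h1 h2 h3 h4 hu (not_lt.1 hc) with e | e
  · exact n1 e
  · exact n2 e

/-- `R S` is above `P Q` at the left abscissa if it is above at the right one. -/
theorem ncB {P Q R S : ℝ × ℝ} (h : NC P Q R S) (a b : ℝ) (hab : a < b)
    (h1 : P.1 ≤ a) (h2 : R.1 ≤ a) (h3 : b ≤ Q.1) (h4 : b ≤ S.1)
    (n1 : P ≠ R) (n2 : Q ≠ S) (hu : 0 ≤ hdiff P Q R S b) : 0 < hdiff P Q R S a := by
  by_contra hc
  have hc' := not_lt.1 hc
  have e0 : ∀ x, hdiff R S P Q x = - hdiff P Q R S x := fun x => by unfold hdiff; ring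
  rcases nc_cross h.symm hab h2 h1 h4 h3 (by rw [e0]; linarith) (by rw [e0]; linarith) with e | e
  · exact n1 e.symm
  · exact n2 e.symm

theorem ne_x {P Q : ℝ × ℝ} (h : P.1 < Q.1 ∨ Q.1 < P.1) : P ≠ Q := by
  rintro rfl
  rcases h with h | h <;> exact lt_irrefl _ h

theorem ne_y {P Q : ℝ × ℝ} (h : P.2 < Q.2 ∨ Q.2 < P.2) : P ≠ Q := by
  rintro rfl
  rcases h with h | h <;> exact lt_irrefl _ h

theorem NC_of_pl {X Y s : ℝ} {P Q P' Q' : ℝ × ℝ}
    (h : NC (pl X Y s P) (pl X Y s Q) (pl X Y s P') (pl X Y s Q')) : NC P Q P' Q' := by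
  intro p hp hp'
  obtain ⟨h1, h2⟩ := h (pl X Y s p) (mem_segment_pl.2 hp) (mem_segment_pl.2 hp')
  constructor
  · rcases h1 with h1 | h1
    · exact Or.inl (pl_inj h1)
    · exact Or.inr (pl_inj h1)
  · rcases h2 with h2 | h2
    · exact Or.inl (pl_inj h2)
    · exact Or.inr (pl_inj h2)

end Pool.Agent.U788.SegW
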