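import Pool.Agent.U788.Seg.Dia

/-!
# Drawings of diagrams
-/

namespace Pool.Agent.U788.SegW

open Pool.Agent.K4H90.SegDraw (cr NC Disj hdiff nc_left nc_right nc_touch disj_below seg_lin seg_line seg_x
  seg_left seg_right pl pl_inj cr_pl mem_segment_pl NC.pl)

namespace Dia

variable {G : Dia}

/-- The positions of the vertices of a cell, in local coordinates. -/
noncomputable def q (G : Dia) (t : ℕ → ℕ → ℝ) (o : ℕ → ℕ → ℕ → ℝ) (l b : ℕ) : Ref → ℝ × ℝ :=
  cfg (G.gad l b) (fun i => t l (G.hb l b + i)) (fun i => t (l + 1) (b + i)) (o l b)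

/-- The placement of a cell. -/
noncomputable def plc (G : Dia) (l b : ℕ) : ℝ × ℝ → ℝ × ℝ :=
  pl (12 * (l : ℝ)) (192 * (G.hb l b : ℝ) + 16) (16 * ((b : ℝ) - (G.hb l b : ℝ)))

/-- The positions of all vertices. -/
noncomputable def pos (G : Dia) (t : ℕ → ℕ → ℝ) (o : ℕ → ℕ → ℕ → ℝ) (n : ℕ) : ℝ × ℝ :=
  if n.unpair.1 = 0 then (-2, 16) else
  if n.unpair.1 = 1 then (12 * (n.unpair.2.unpair.1 : ℝ),
    192 * (n.unpair.2.unpair.2 : ℝ) + 16 + t n.unpair.2.unpair.1 n.unpair.2.unpair.2) else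
  G.plc n.unpair.2.unpair.1 n.unpair.2.unpair.2
    (G.q t o n.unpair.2.unpair.1 n.unpair.2.unpair.2 (2, n.unpair.1 - 2))

theorem pos_root (t : ℕ → ℕ → ℝ) (o : ℕ → ℕ → ℕ → ℝ) : G.pos t o root = (-2, 16) := by
  unfold pos root nm
  simp

theorem pos_T (t : ℕ → ℕ → ℝ) (o : ℕ → ℕ → ℕ → ℝ) (l k : ℕ) :
    G.pos t o (nm 1 l k) = (12 * (l : ℝ), 192 * (k : ℝ) + 16 + t l k) := by
  unfold pos nm
  simp

theorem pos_in (t : ℕ → ℕ → ℝ) (o : ℕ → ℕ → ℕ → ℝ) (l b i : ℕ) :
    G.pos t o (nm (2 + i) l b) = G.plc l b (G.q t o l b (2, i)) := by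
  unfold pos nm
  have h1 : 2 + i ≠ 0 := by omega
  have h2 : 2 + i ≠ 1 := by omega
  have h3 : 2 + i - 2 = i := by omega
  simp [h1, h2, h3]

theorem pos_res (t : ℕ → ℕ → ℝ) (o : ℕ → ℕ → ℕ → ℝ) {l b : ℕ} {r : Ref} {g : Gadget}
    (hr : r ∈ refs g) : G.pos t o (G.res l b r) = G.plc l b (G.q t o l b r) := by
  rcases ref_cases hr with ⟨i, hi, rfl⟩ | ⟨i, hi, rfl⟩ | ⟨i, hi, rfl⟩
  · rw [res_lp, pos_T]
    unfold q plc
    rw [cfg_lp]
    unfold pl
    ext
    · simp
    · simp only; push_cast; ring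
  · rw [res_rp, pos_T]
    unfold q plc
    rw [cfg_rp]
    unfold pl
    ext
    · simp only; push_cast; ring
    · simp only; push_cast; ring
  · rw [res_in, pos_in]

/-- The conditions on the offsets. -/
structure Good (G : Dia) (t : ℕ → ℕ → ℝ) (o : ℕ → ℕ → ℕ → ℝ) : Prop where
  ht : ∀ l k, 0 < t l k ∧ t l k < 16
  geo : ∀ l < G.C, ∀ b < G.N, GeoOK (G.gad l b) (G.q t o l b)
  sec : ∀ b < G.N, ∀ i < (G.gad 0 b).1.length,
    (G.q t o 0 b (2, i)).2 - t 0 (G.hb 0 b) ≤ 16 / 3 * (G.q t o 0 b (2, i)).1 ∧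
      - (16 / 3 * (G.q t o 0 b (2, i)).1) ≤ (G.q t o 0 b (2, i)).2 - t 0 (G.hb 0 b)

theorem ht_pos (h : G.OK) {l b : ℕ} (hl : l < G.C) (hb : b < G.N) {r : Ref}
    (hr : r ∈ refs (G.gad l b)) : 1 ≤ ht (G.gad l b) := by
  have h1 := le_max_left (G.gad l b).2.1.length (G.gad l b).2.2.length
  have h2 := le_max_right (G.gad l b).2.1.length (G.gad l b).2.2.length
  unfold ht
  rcases ref_cases hr with ⟨i, hi, -⟩ | ⟨i, hi, -⟩ | ⟨i, hi, -⟩
  · omega
  · omega
  · rcases (h.ok l hl b hb).2.2.2.2.2 with h3 | h3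
    · rw [h3] at hi; simp at hi
    · omega

/-- The region of a cell. -/
def Hull (G : Dia) (t : ℕ → ℕ → ℝ) (l b : ℕ) (p : ℝ × ℝ) : Prop :=
  12 * (l : ℝ) ≤ p.1 ∧ p.1 ≤ 12 * (l : ℝ) + 12 ∧ 192 * (G.hb l b : ℝ) ≤ p.2 ∧
    p.2 + 144 ≤ 192 * ((b : ℝ) + (ht (G.gad l b) : ℝ)) ∧
    (l = 0 → p.2 - (192 * (G.hb l b : ℝ) + 16) - t 0 (G.hb l b) -
      16 * ((b : ℝ) - (G.hb l b : ℝ)) * p.1 ≤ 16 / 3 * p.1) ∧
    (l = 0 → - (16 / 3 * p.1) ≤ p.2 - (192 * (G.hb l b : ℝ) + 16) - t 0 (G.hb l b) -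
      16 * ((b : ℝ) - (G.hb l b : ℝ)) * p.1)

theorem hull_res (h : G.OK) {t : ℕ → ℕ → ℝ} {o : ℕ → ℕ → ℕ → ℝ} (hG : Good G t o) {l b : ℕ}
    (hl : l < G.C) (hb : b < G.N) {r : Ref} (hr : r ∈ refs (G.gad l b)) :
    Hull G t l b (G.pos t o (G.res l b r)) := by
  have hgeo := hG.geo l hl b hb
  have h1 : (1 : ℝ) ≤ (ht (G.gad l b) : ℝ) := by exact_mod_cast ht_pos h hl hb hr
  have hhb : (G.hb l b : ℝ) ≤ (b : ℝ) := by exact_mod_cast hb_le h l b
  rw [pos_res t o hr]
  -- local bounds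
  have loc : 0 ≤ (G.q t o l b r).1 ∧ (G.q t o l b r).1 ≤ 12 ∧ - 16 ≤ (G.q t o l b r).2 ∧
      (G.q t o l b r).2 + 160 ≤ 192 * (ht (G.gad l b) : ℝ) := by
    have e1 := le_max_left (G.gad l b).2.1.length (G.gad l b).2.2.length
    have e2 := le_max_right (G.gad l b).2.1.length (G.gad l b).2.2.length
    rcases ref_cases hr with ⟨i, hi, rfl⟩ | ⟨i, hi, rfl⟩ | ⟨i, hi, rfl⟩
    · obtain ⟨k1, k2, k3⟩ := hgeo.lp i hi
      have k4 : (i : ℝ) + 1 ≤ (ht (G.gad l b) : ℝ) := by
        unfold ht; exact_mod_cast (by omega : i + 1 ≤ _)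
      have k5 : (0 : ℝ) ≤ (i : ℝ) := Nat.cast_nonneg _
      rw [k1]
      refine ⟨le_rfl, by norm_num, by linarith, by linarith⟩
    · obtain ⟨k1, k2, k3⟩ := hgeo.rp i hi
      have k4 : (i : ℝ) + 1 ≤ (ht (G.gad l b) : ℝ) := by
        unfold ht; exact_mod_cast (by omega : i + 1 ≤ _)
      have k5 : (0 : ℝ) ≤ (i : ℝ) := Nat.cast_nonneg _
      rw [k1]
      refine ⟨by norm_num, le_rfl, by linarith, by linarith⟩
    · obtain ⟨k1, k2, k3, k4⟩ := hgeo.inn i hi
      exact ⟨k1.le, k2.le, k3, k4⟩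
  obtain ⟨a1, a2, a3, a4⟩ := loc
  by_cases hl0 : l = 0
  · subst hl0
    have hc0 := h.c0 b hb
    have hht : ht (G.gad 0 b) = 1 := by unfold ht; rw [hc0.1, hc0.2]; rfl
    rw [hht] at a4
    have hht' : (ht (G.gad 0 b) : ℝ) = 1 := by rw [hht]; norm_num
    -- sector
    have sec : (G.q t o 0 b r).2 - t 0 (G.hb 0 b) ≤ 16 / 3 * (G.q t o 0 b r).1 ∧
        - (16 / 3 * (G.q t o 0 b r).1) ≤ (G.q t o 0 b r).2 - t 0 (G.hb 0 b) := by
      have ht0 := hG.ht 0 (G.hb 0 b)
      rcases ref_cases hr with ⟨i, hi, rfl⟩ | ⟨i, hi, rfl⟩ | ⟨i, hi, rfl⟩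
      · have : i = 0 := by omega
        subst this
        unfold q
        rw [cfg_lp]
        simp
      · obtain ⟨k1, k2, k3⟩ := hgeo.rp i hi
        have hi0 : i = 0 := by omega
        subst hi0
        rw [k1]
        push_cast at k2 k3
        constructor <;> linarith
      · exact hG.sec b hb i hi
    have hs1 : 0 ≤ ((b : ℝ) - (G.hb 0 b : ℝ)) * (G.q t o 0 b r).1 :=
      mul_nonneg (by linarith) a1
    have hs2 : ((b : ℝ) - (G.hb 0 b : ℝ)) * (G.q t o 0 b r).1 ≤ ((b : ℝ) - (G.hb 0 b : ℝ)) * 12 :=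
      mul_le_mul_of_nonneg_left a2 (by linarith)
    unfold Hull plc pl
    simp only
    rw [hht']
    push_cast at a4 ⊢
    refine ⟨by linarith, by linarith, by linarith, by linarith, fun _ => by linarith,
      fun _ => by linarith⟩
  · have e0 : G.hb l b = b := hb_pos hl0 b
    unfold Hull plc pl
    simp only
    rw [e0, sub_self]
    refine ⟨by linarith, by linarith, by linarith, by linarith, fun h0 => (hl0 h0).elim,
      fun h0 => (hl0 h0).elim⟩

theorem hull_seg {t : ℕ → ℕ → ℝ} {l b : ℕ} {P Q p : ℝ × ℝ} (hP : Hull G t l b P)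
    (hQ : Hull G t l b Q) (hp : p ∈ segment ℝ P Q) : Hull G t l b p := by
  obtain ⟨p1, p2, p3, p4, p5, p6⟩ := hP
  obtain ⟨q1, q2, q3, q4, q5, q6⟩ := hQ
  refine ⟨?_, ?_, ?_, ?_, ?_, ?_⟩
  · have := seg_lin (α := -1) (β := 0) (γ := - (12 * (l : ℝ))) hp (by linarith) (by linarith)
    linarith
  · have := seg_lin (α := 1) (β := 0) (γ := 12 * (l : ℝ) + 12) hp (by linarith) (by linarith)
    linarith
  · have := seg_lin (α := 0) (β := -1) (γ := - (192 * (G.hb l b : ℝ))) hp (by linarith)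
      (by linarith)
    linarith
  · have := seg_lin (α := 0) (β := 1) (γ := 192 * ((b : ℝ) + (ht (G.gad l b) : ℝ)) - 144) hp
      (by linarith) (by linarith)
    linarith
  · intro h0
    have := seg_lin (α := - (16 * ((b : ℝ) - (G.hb l b : ℝ))) - 16 / 3) (β := 1)
      (γ := 192 * (G.hb l b : ℝ) + 16 + t 0 (G.hb l b)) hp (by linarith [p5 h0]) (by linarith [q5 h0])
    linarith
  · intro h0
    have := seg_lin (α := (16 * ((b : ℝ) - (G.hb l b : ℝ))) - 16 / 3) (β := -1)
      (γ := - (192 * (G.hb l b : ℝ) + 16 + t 0 (G.hb l b))) hp (by linarith [p6 h0])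
      (by linarith [q6 h0])
    linarith

/-- The regions of two cells of the same column meet at most in the common source. -/
theorem hull_sep (h : G.OK) {t : ℕ → ℕ → ℝ} {l b b' : ℕ} (hl : l < G.C) (hbb : b < b')
    (hb' : b' < G.N) (hne : G.gad l b' ≠ emptyG) {p : ℝ × ℝ} (hp : Hull G t l b p)
    (hp' : Hull G t l b' p) : l = 0 ∧ G.grp b = G.grp b' ∧ p.1 = 0 := by
  obtain ⟨p1, p2, p3, p4, p5, p6⟩ := hp
  obtain ⟨q1, q2, q3, q4, q5, q6⟩ := hp'
  have hsep : b + ht (G.gad l b) ≤ b' := by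
    rcases h.sep l hl b b' hbb hb' with h1 | h1
    · exact (hne h1).elim
    · exact h1
  by_cases hl0 : l = 0
  · subst hl0
    have hc0 := h.c0 b (hbb.trans hb')
    have hht : ht (G.gad 0 b) = 1 := by unfold ht; rw [hc0.1, hc0.2]; rfl
    rw [hht] at p4
    have hg : G.grp b = G.grp b' := by
      by_contra hc
      have m1 := h.g3 b b' hbb.le
      have m2 : b < G.grp b' := by
        by_contra hc2
        have m3 := h.g3 _ _ (not_lt.1 hc2)
        rw [h.g2] at m3
        omega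
      have m4 : (b : ℝ) + 1 ≤ (G.hb 0 b' : ℝ) := by
        unfold hb; rw [if_pos rfl]; exact_mod_cast m2
      push_cast at p4
      linarith
    refine ⟨rfl, hg, ?_⟩
    have e : G.hb 0 b = G.hb 0 b' := by unfold hb; rw [if_pos rfl, if_pos rfl, hg]
    have k1 := p5 rfl
    have k2 := q6 rfl
    rw [e] at k1
    have k3 : (b : ℝ) + 1 ≤ (b' : ℝ) := by exact_mod_cast hbb
    have hx : 0 ≤ p.1 := by
      have : (12 : ℝ) * ((0 : ℕ) : ℝ) ≤ p.1 := p1
      simpa using this
    have k4 : 0 ≤ ((b' : ℝ) - (b : ℝ) - 1) * p.1 := mul_nonneg (by linarith) hx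
    linarith
  · exfalso
    have e0 : G.hb l b' = b' := hb_pos hl0 b'
    rw [e0] at q3
    have : (b : ℝ) + (ht (G.gad l b) : ℝ) ≤ (b' : ℝ) := by exact_mod_cast hsep
    linarith

theorem ne_empty_of_ref {g : Gadget} {r : Ref} (hr : r ∈ refs g) : g ≠ emptyG := by
  rintro rfl
  simp [refs, emptyG] at hr

theorem edge_lt (h : G.OK) {t : ℕ → ℕ → ℝ} {o : ℕ → ℕ → ℕ → ℝ} (hG : Good G t o) {l b : ℕ}
    (hl : l < G.C) (hb : b < G.N) {s r : Ref} (hs : s ∈ refs (G.gad l b))
    (hr : r ∈ rl (G.gad l b) s) :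
    (G.pos t o (G.res l b s)).1 < (G.pos t o (G.res l b r)).1 := by
  rw [pos_res t o hs, pos_res t o ((h.ok l hl b hb).1 _ hs _ hr).1]
  have := (hG.geo l hl b hb).dir (s, r) (mem_edgesOf.2 ⟨hs, hr⟩)
  unfold plc pl
  simp only at this ⊢
  linarith

theorem E_lt (h : G.OK) {t : ℕ → ℕ → ℝ} {o : ℕ → ℕ → ℕ → ℝ} (hG : Good G t o) {u v : ℕ}
    (he : G.E u v) : (G.pos t o u).1 < (G.pos t o v).1 := by
  rcases he with ⟨rfl, k, hk, hg, rfl⟩ | ⟨l, hl, b, hb, s, r, hs, hr, rfl, rfl⟩
  · rw [pos_root, pos_T]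
    simp
  · exact edge_lt h hG hl hb hs hr

/-- Any two edges have only common end points. -/
theorem E_nc (h : G.OK) {t : ℕ → ℕ → ℝ} {o : ℕ → ℕ → ℕ → ℝ} (hG : Good G t o) {u v u' v' : ℕ}
    (he : G.E u v) (hf : G.E u' v') :
    (u = u' ∧ v = v') ∨ NC (G.pos t o u) (G.pos t o v) (G.pos t o u') (G.pos t o v') := by
  have e1 := E_lt h hG he
  have f1 := E_lt h hG hf
  rcases he with ⟨rfl, k, hk, hg, rfl⟩ | ⟨l, hl, b, hb, s, r, hs, hr, rfl, rfl⟩
  · rcases hf with ⟨rfl, k', hk', hg', rfl⟩ | ⟨l', hl', b', hb', s', r', hs', hr', rfl, rfl⟩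
    · by_cases hkk : k = k'
      · subst hkk
        exact Or.inl ⟨rfl, rfl⟩
      · right
        refine nc_left e1 ?_
        rw [pos_root, pos_T, pos_T]
        unfold cr
        have t1 := hG.ht 0 k
        have t2 := hG.ht 0 k'
        intro hc
        simp only at hc
        rcases lt_or_gt_of_ne hkk with h1 | h1
        · have : (k : ℝ) + 1 ≤ (k' : ℝ) := by exact_mod_cast h1
          push_cast at hc
          linarith
        · have : (k' : ℝ) + 1 ≤ (k : ℝ) := by exact_mod_cast h1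
          push_cast at hc
          linarith
    · right
      refine nc_touch e1 f1 ?_
      have := (hull_res h hG hl' hb' hs').1
      rw [pos_T]
      have h2 : (0 : ℝ) ≤ (l' : ℝ) := Nat.cast_nonneg _
      simp only [Nat.cast_zero, mul_zero]
      linarith
  · have hr0 := ((h.ok l hl b hb).1 _ hs _ hr).1
    rcases hf with ⟨rfl, k', hk', hg', rfl⟩ | ⟨l', hl', b', hb', s', r', hs', hr', rfl, rfl⟩
    · right
      refine (nc_touch f1 e1 ?_).symm
      have := (hull_res h hG hl hb hs).1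
      rw [pos_T]
      have h2 : (0 : ℝ) ≤ (l : ℝ) := Nat.cast_nonneg _
      simp only [Nat.cast_zero, mul_zero]
      linarith
    · have hr0' := ((h.ok l' hl' b' hb').1 _ hs' _ hr').1
      have Hs := hull_res h hG hl hb hs
      have Hr := hull_res h hG hl hb hr0
      have Hs' := hull_res h hG hl' hb' hs'
      have Hr' := hull_res h hG hl' hb' hr0'
      rcases lt_trichotomy l l' with hll | hll | hll
      · right
        refine nc_touch e1 f1 ?_
        have k1 := Hr.2.1
        have k2 := Hs'.1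
        have k3 : (l : ℝ) + 1 ≤ (l' : ℝ) := by exact_mod_cast hll
        linarith
      · subst hll
        have main : ∀ {b b' : ℕ} {s r s' r' : Ref}, b < b' → b < G.N → b' < G.N →
            s ∈ refs (G.gad l b) → r ∈ refs (G.gad l b) →
            s' ∈ refs (G.gad l b') → r' ∈ refs (G.gad l b') →
            (G.pos t o (G.res l b s)).1 < (G.pos t o (G.res l b r)).1 →
            (G.pos t o (G.res l b' s')).1 < (G.pos t o (G.res l b' r')).1 →
            NC (G.pos t o (G.res l b s)) (G.pos t o (G.res l b r)) (G.pos t o (G.res l b' s'))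
              (G.pos t o (G.res l b' r')) := by
          intro b b' s r s' r' hbb hb hb' hs hr hs' hr' d1 d2 p hp hp'
          have Hs := hull_res h hG hl hb hs
          have Hr := hull_res h hG hl hb hr
          have Hs' := hull_res h hG hl hb' hs'
          have Hr' := hull_res h hG hl hb' hr'
          obtain ⟨h0, -, hx⟩ := hull_sep h hl hbb hb' (ne_empty_of_ref hs') (hull_seg Hs Hr hp)
            (hull_seg Hs' Hr' hp')
          have x1 := seg_x d1.le hp
          have x2 := seg_x d2.le hp'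
          have y1 := Hs.1
          have y2 := Hs'.1
          have y3 : (0 : ℝ) ≤ (l : ℝ) := Nat.cast_nonneg _
          exact ⟨Or.inl (seg_left d1 hp (by linarith)), Or.inl (seg_left d2 hp' (by linarith))⟩
        rcases lt_trichotomy b b' with hbb | hbb | hbb
        · right
          exact main hbb hb hb' hs hr0 hs' hr0' e1 f1
        · subst hbb
          rcases (hG.geo l hl b hb).nc (s, r) (mem_edgesOf.2 ⟨hs, hr⟩) (s', r')
            (mem_edgesOf.2 ⟨hs', hr'⟩) with h1 | h1
          · rw [Prod.mk.injEq] at h1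
            left
            rw [h1.1, h1.2]
            exact ⟨rfl, rfl⟩
          · right
            rw [pos_res t o hs, pos_res t o hr0, pos_res t o hs', pos_res t o hr0']
            exact h1.pl
        · right
          exact (main hbb hb' hb hs' hr0' hs hr0 f1 e1).symm
      · right
        refine (nc_touch f1 e1 ?_).symm
        have k1 := Hr'.2.1
        have k2 := Hs.1
        have k3 : (l' : ℝ) + 1 ≤ (l : ℝ) := by exact_mod_cast hll
        linarith

theorem pos_inj (h : G.OK) {t : ℕ → ℕ → ℝ} {o : ℕ → ℕ → ℕ → ℝ} (hG : Good G t o) {cl : Bool} :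
    ∀ u ∈ (G.inst cl).names, ∀ v ∈ (G.inst cl).names, G.pos t o u = G.pos t o v → u = v := by
  -- a port and an inner vertex
  have hTI : ∀ l k l' b i, l' < G.C → b < G.N → i < (G.gad l' b).1.length →
      G.pos t o (nm 1 l k) ≠ G.pos t o (nm (2 + i) l' b) := by
    intro l k l' b i hl' hb hi he
    rw [pos_T, pos_in] at he
    have h1 := (hG.geo l' hl' b hb).inn i hi
    unfold plc pl at he
    rw [Prod.mk.injEq] at he
    obtain ⟨he, -⟩ := he
    rcases le_or_gt l l' with h2 | h2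
    · have : (l : ℝ) ≤ (l' : ℝ) := by exact_mod_cast h2
      linarith [h1.1]
    · have : (l' : ℝ) + 1 ≤ (l : ℝ) := by exact_mod_cast h2
      linarith [h1.2.1]
  have hroot : ∀ u ∈ (G.inst cl).names, u ≠ root → G.pos t o u ≠ G.pos t o root := by
    intro u hu hne he
    rw [pos_root] at he
    rcases mem_names.1 hu with rfl | ⟨l, hl, k, hk, h0, rfl⟩ | ⟨l, hl, b, hb, i, hi, rfl⟩
    · exact hne rfl
    · rw [pos_T, Prod.mk.injEq] at he
      have : (0 : ℝ) ≤ (l : ℝ) := Nat.cast_nonneg _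
      linarith [he.1]
    · rw [pos_in] at he
      have h1 := (hG.geo l hl b hb).inn i hi
      unfold plc pl at he
      rw [Prod.mk.injEq] at he
      have : (0 : ℝ) ≤ (l : ℝ) := Nat.cast_nonneg _
      linarith [he.1, h1.1]
  intro u hu v hv he
  by_cases h1 : u = root
  · subst h1
    by_contra hne
    exact hroot v hv (fun h2 => hne h2.symm) he.symm
  by_cases h2 : v = root
  · subst h2
    by_contra hne
    exact hroot u hu hne he
  rcases mem_names.1 hu with hu' | ⟨l, hl, k, hk, h0, rfl⟩ | ⟨l, hl, b, hb, i, hi, rfl⟩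
  · exact (h1 hu').elim
  · rcases mem_names.1 hv with hv' | ⟨l', hl', k', hk', h0', rfl⟩ | ⟨l', hl', b', hb', i', hi', rfl⟩
    · exact (h2 hv').elim
    · rw [pos_T, pos_T, Prod.mk.injEq] at he
      obtain ⟨he1, he2⟩ := he
      have hll : l = l' := by
        have : (l : ℝ) = (l' : ℝ) := by linarith
        exact_mod_cast this
      subst hll
      have t1 := hG.ht l k
      have t2 := hG.ht l k'
      have hkk : k = k' := by
        rcases lt_trichotomy k k' with h3 | h3 | h3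
        · have : (k : ℝ) + 1 ≤ (k' : ℝ) := by exact_mod_cast h3
          linarith
        · exact h3
        · have : (k' : ℝ) + 1 ≤ (k : ℝ) := by exact_mod_cast h3
          linarith
      rw [hkk]
    · exact (hTI l k l' b' i' hl' hb' hi' he).elim
  · rcases mem_names.1 hv with hv' | ⟨l', hl', k', hk', h0', rfl⟩ | ⟨l', hl', b', hb', i', hi', rfl⟩
    · exact (h2 hv').elim
    · exact (hTI l' k' l b i hl hb hi he.symm).elim
    · have r1 : ((2, i) : Ref) ∈ refs (G.gad l b) := mem_refs.2 (Or.inr (Or.inr ⟨rfl, hi⟩))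
      have r2 : ((2, i') : Ref) ∈ refs (G.gad l' b') := mem_refs.2 (Or.inr (Or.inr ⟨rfl, hi'⟩))
      have g1 := (hG.geo l hl b hb).inn i hi
      have g2 := (hG.geo l' hl' b' hb').inn i' hi'
      have H1 := hull_res h hG hl hb r1
      have H2 := hull_res h hG hl' hb' r2
      rw [res_in] at H1 H2
      have hx1 : (G.pos t o (nm (2 + i) l b)).1 = 12 * (l : ℝ) + (G.q t o l b (2, i)).1 := by
        rw [pos_in]; rfl
      have hx2 : (G.pos t o (nm (2 + i') l' b')).1 =
          12 * (l' : ℝ) + (G.q t o l' b' (2, i')).1 := by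
        rw [pos_in]; rfl
      have hll : l = l' := by
        rw [he] at hx1
        rw [hx1] at hx2
        rcases lt_trichotomy l l' with h3 | h3 | h3
        · have : (l : ℝ) + 1 ≤ (l' : ℝ) := by exact_mod_cast h3
          linarith [g1.1, g1.2.1, g2.1, g2.2.1]
        · exact h3
        · have : (l' : ℝ) + 1 ≤ (l : ℝ) := by exact_mod_cast h3
          linarith [g1.1, g1.2.1, g2.1, g2.2.1]
      subst hll
      have hpos : (0 : ℝ) ≤ (l : ℝ) := Nat.cast_nonneg _
      rcases lt_trichotomy b b' with h3 | h3 | h3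
      · exfalso
        rw [he] at H1
        obtain ⟨-, -, h4⟩ := hull_sep h hl h3 hb' (ne_empty_of_ref r2) H1 H2
        rw [hx2] at h4
        linarith [g2.1]
      · subst h3
        rw [pos_in, pos_in] at he
        have h4 := pl_inj he
        rw [(hG.geo l hl b hb).inj i hi i' hi' h4]
      · exfalso
        rw [← he] at H2
        obtain ⟨-, -, h4⟩ := hull_sep h hl h3 hb (ne_empty_of_ref r1) H2 H1
        rw [hx1] at h4
        linarith [g1.1]

/-! ### Rotations -/

theorem sorted_in (h : G.OK) {t : ℕ → ℕ → ℝ} {o : ℕ → ℕ → ℕ → ℝ} (hG : Good G t o) {l b : ℕ}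
    (hl : l < G.C) (hb : b < G.N) {s : Ref} (hs : s ∈ refs (G.gad l b)) :
    (((rl (G.gad l b) s).map (G.res l b)).Pairwise fun x y =>
      0 < cr (G.pos t o (G.res l b s)) (G.pos t o x) (G.pos t o y)) ∧
    (((ll (G.gad l b) s).map (G.res l b)).Pairwise fun x y =>
      0 < cr (G.pos t o (G.res l b s)) (G.pos t o x) (G.pos t o y)) := by
  rw [List.pairwise_map, List.pairwise_map]
  constructor
  · refine List.Pairwise.imp_of_mem ?_ ((hG.geo l hl b hb).srtR s hs)
    intro x y hx hy hxy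
    rw [pos_res t o hs, pos_res t o ((h.ok l hl b hb).1 _ hs _ hx).1,
      pos_res t o ((h.ok l hl b hb).1 _ hs _ hy).1]
    unfold plc
    rw [cr_pl]
    exact hxy
  · refine List.Pairwise.imp_of_mem ?_ ((hG.geo l hl b hb).srtL s hs)
    intro x y hx hy hxy
    rw [pos_res t o hs, pos_res t o ((h.ok l hl b hb).2.1 _ hs _ hx).1,
      pos_res t o ((h.ok l hl b hb).2.1 _ hs _ hy).1]
    unfold plc
    rw [cr_pl]
    exact hxy

theorem sorted_tR (h : G.OK) {t : ℕ → ℕ → ℝ} {o : ℕ → ℕ → ℕ → ℝ} (hG : Good G t o) {l k : ℕ}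
    (hl : l < G.C) :
    (G.tR l k).Pairwise fun x y => 0 < cr (G.pos t o (nm 1 l k)) (G.pos t o x) (G.pos t o y) := by
  unfold tR
  rw [List.pairwise_flatMap]
  constructor
  · intro b hb
    rw [List.mem_range] at hb
    split_ifs with h1
    · by_cases hs : ((0, k - G.hb l b) : Ref) ∈ refs (G.gad l b)
      · have := (sorted_in h hG hl hb hs).1
        rw [res_lp] at this
        have e : G.hb l b + (k - G.hb l b) = k := by omega
        rwa [e] at this
      · have : rl (G.gad l b) (0, k - G.hb l b) = [] := by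
          by_contra hc
          obtain ⟨r, hr⟩ := List.exists_mem_of_ne_nil _ hc
          exact hs (refs_of_rl hr)
        rw [this]
        simp
    · exact List.Pairwise.nil
  · refine List.Pairwise.imp_of_mem ?_ List.pairwise_lt_range
    intro b b' hb hb' hbb x hx y hy
    rw [List.mem_range] at hb hb'
    split_ifs at hx with h1
    swap
    · simp at hx
    split_ifs at hy with h2
    swap
    · simp at hy
    rw [List.mem_map] at hx hy
    obtain ⟨r, hr, rfl⟩ := hx
    obtain ⟨r', hr', rfl⟩ := hy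
    have hs := refs_of_rl hr
    have hs' := refs_of_rl hr'
    have hr0 := ((h.ok l hl b hb).1 _ hs _ hr).1
    have hr0' := ((h.ok l hl b' hb').1 _ hs' _ hr').1
    have H1 := hull_res h hG hl hb hs
    have H2 := hull_res h hG hl hb' hs'
    rw [res_lp] at H1 H2
    have e1 : G.hb l b + (k - G.hb l b) = k := by omega
    have e2 : G.hb l b' + (k - G.hb l b') = k := by omega
    rw [e1] at H1
    rw [e2] at H2
    obtain ⟨h0, hg, -⟩ := hull_sep h hl hbb hb' (ne_empty_of_ref hs') H1 H2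
    subst h0
    have g1 : k = G.grp b := by
      have : k - G.hb 0 b < (G.gad 0 b).2.1.length := by
        rcases mem_refs.1 hs with ⟨-, h3⟩ | ⟨h3, -⟩ | ⟨h3, -⟩
        · exact h3
        · simp at h3
        · simp at h3
      rw [(h.c0 b hb).1] at this
      have e3 : G.hb 0 b = G.grp b := if_pos rfl
      omega
    have R1 := hull_res h hG hl hb hr0
    have R2 := hull_res h hG hl hb' hr0'
    have d1 := edge_lt h hG hl hb hs hr
    have d2 := edge_lt h hG hl hb' hs' hr'
    rw [res_lp, e1] at d1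
    rw [res_lp, e2] at d2
    rw [pos_T] at d1 d2 ⊢
    obtain ⟨-, -, -, -, a5, -⟩ := R1
    obtain ⟨-, -, -, -, -, a6⟩ := R2
    have a5' := a5 rfl
    have a6' := a6 rfl
    have e3 : G.hb 0 b = k := by rw [g1]; exact if_pos rfl
    have e4 : G.hb 0 b' = k := by rw [g1, hg]; exact if_pos rfl
    rw [e3] at a5'
    rw [e4] at a6'
    simp only [Nat.cast_zero, mul_zero] at d1 d2
    set X := G.pos t o (G.res 0 b r) with hX
    set Y := G.pos t o (G.res 0 b' r') with hY
    unfold cr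
    simp only [Nat.cast_zero, mul_zero, sub_zero]
    have k3 : (b : ℝ) + 1 ≤ (b' : ℝ) := by exact_mod_cast hbb
    have m1 : X.2 - (192 * (k : ℝ) + 16 + t 0 k) ≤ (16 * ((b : ℝ) - k) + 16 / 3) * X.1 := by
      linarith
    have m2 : (16 * ((b' : ℝ) - k) - 16 / 3) * Y.1 ≤ Y.2 - (192 * (k : ℝ) + 16 + t 0 k) := by
      linarith
    have m3 := mul_le_mul_of_nonneg_right m1 d2.le
    have m4 := mul_le_mul_of_nonneg_left m2 d1.le
    have m5 : 0 < X.1 * Y.1 := mul_pos d1 d2
    have m6 : 0 ≤ ((b' : ℝ) - b - 1) * (X.1 * Y.1) := mul_nonneg (by linarith) m5.le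
    have m7 : X.1 * ((16 * ((b' : ℝ) - k) - 16 / 3) * Y.1) -
        (16 * ((b : ℝ) - k) + 16 / 3) * X.1 * Y.1 =
        16 * (((b' : ℝ) - b - 1) * (X.1 * Y.1)) + 16 / 3 * (X.1 * Y.1) := by ring
    linarith

theorem sorted_tL (h : G.OK) {t : ℕ → ℕ → ℝ} {o : ℕ → ℕ → ℕ → ℝ} (hG : Good G t o) {l k : ℕ}
    (hl : l < G.C) :
    (G.tL l k).Pairwise fun x y => 0 < cr (G.pos t o (nm 1 l k)) (G.pos t o x) (G.pos t o y) := by
  unfold tL
  split_ifs with h0
  · simp
  rw [List.pairwise_flatMap]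
  have e0 : l - 1 + 1 = l := by omega
  have hl' : l - 1 < G.C := by omega
  constructor
  · intro b hb
    rw [List.mem_range] at hb
    split_ifs with h1
    · by_cases hs : ((1, k - b) : Ref) ∈ refs (G.gad (l - 1) b)
      · have := (sorted_in h hG hl' hb hs).2
        rw [res_rp] at this
        have e : b + (k - b) = k := by omega
        rwa [e, e0] at this
      · have : ll (G.gad (l - 1) b) (1, k - b) = [] := by
          by_contra hc
          obtain ⟨r, hr⟩ := List.exists_mem_of_ne_nil _ hc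
          exact hs (refs_of_ll hr)
        rw [this]
        simp
    · exact List.Pairwise.nil
  · refine List.Pairwise.imp_of_mem ?_ List.pairwise_lt_range
    intro b b' hb hb' hbb x hx y hy
    exfalso
    rw [List.mem_range] at hb hb'
    split_ifs at hx with h1
    swap
    · simp at hx
    split_ifs at hy with h2
    swap
    · simp at hy
    rw [List.mem_map] at hx hy
    obtain ⟨r, hr, rfl⟩ := hx
    obtain ⟨r', hr', rfl⟩ := hy
    have hs := refs_of_ll hr
    have hs' := refs_of_ll hr'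
    have k1 : k - b < (G.gad (l - 1) b).2.2.length := by
      rcases mem_refs.1 hs with ⟨h3, -⟩ | ⟨-, h3⟩ | ⟨h3, -⟩
      · simp at h3
      · exact h3
      · simp at h3
    have k2 := le_max_right (G.gad (l - 1) b).2.1.length (G.gad (l - 1) b).2.2.length
    rcases h.sep (l - 1) hl' b b' hbb hb' with h3 | h3
    · exact ne_empty_of_ref hs' h3
    · unfold ht at h3
      omega

theorem rot_all (h : G.OK) {t : ℕ → ℕ → ℝ} {o : ℕ → ℕ → ℕ → ℝ} (hG : Good G t o) {cl : Bool} :
    ∀ e ∈ (G.inst cl).verts, ∃ Lf Rg, e.2.2 = Lf ++ Rg ∧ (∀ v, v ∈ Lf ↔ G.E v e.1) ∧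
      (∀ v, v ∈ Rg ↔ G.E e.1 v) ∧
      (Lf.Pairwise fun x y => 0 < cr (G.pos t o e.1) (G.pos t o x) (G.pos t o y)) ∧
      (Rg.Pairwise fun x y => 0 < cr (G.pos t o e.1) (G.pos t o x) (G.pos t o y)) := by
  intro e he
  rcases mem_verts.1 he with rfl | ⟨l, hl, k, hk, h0, rfl⟩ | ⟨l, hl, b, hb, i, w, hw, rfl⟩
  · refine ⟨[], G.rootR, by simp, fun v => ?_, fun v => mem_rootR h, List.Pairwise.nil, ?_⟩
    · simp only [List.not_mem_nil, false_iff]
      exact not_E_root
    · unfold rootR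
      rw [List.pairwise_map]
      refine List.Pairwise.filter _ ?_
      refine List.Pairwise.imp ?_ List.pairwise_lt_range
      intro k k' hkk
      simp only [pos_root, pos_T]
      unfold cr
      have t1 := hG.ht 0 k
      have t2 := hG.ht 0 k'
      have : (k : ℝ) + 1 ≤ (k' : ℝ) := by exact_mod_cast hkk
      simp only
      push_cast
      linarith
  · exact ⟨G.tL l k, G.tR l k, rfl, fun v => mem_tL h hl hk h0, fun v => mem_tR h hl,
      sorted_tL h hG hl, sorted_tR h hG hl⟩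
  · have hi := (List.getElem?_eq_some_iff.1 hw).1
    have hs : ((2, i) : Ref) ∈ refs (G.gad l b) := mem_refs.2 (Or.inr (Or.inr ⟨rfl, hi⟩))
    have := sorted_in h hG hl hb hs
    refine ⟨w.2.2.2.1.map (G.res l b), w.2.2.2.2.map (G.res l b), ?_, fun v => ?_, fun v => ?_,
      ?_, ?_⟩
    · simp [iEnt]
    · rw [← ll_in hw]
      exact mem_inL h hl hb
    · rw [← rl_in hw]
      exact mem_inR h hl hb
    · rw [res_in, ll_in hw] at this
      exact this.2
    · rw [res_in, rl_in hw] at this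
      exact this.1

/-- Different edges of the drawing have only common end vertices. -/
theorem plane_all (h : G.OK) {t : ℕ → ℕ → ℝ} {o : ℕ → ℕ → ℕ → ℝ} (hG : Good G t o) (cl : Bool) :
    ∀ u v u' v', (G.inst cl).Nbr u v → (G.inst cl).Nbr u' v' → s(u, v) ≠ s(u', v') →
    ∀ p ∈ segment ℝ (G.pos t o u) (G.pos t o v), p ∈ segment ℝ (G.pos t o u') (G.pos t o v') →
      ∃ w, w ∈ s(u, v) ∧ w ∈ s(u', v') ∧ p = G.pos t o w := by
    intro u v u' v' huv huv' hne p hp hp'
    have main : ∀ u v u' v', G.E u v → G.E u' v' → s(u, v) ≠ s(u', v') →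
        p ∈ segment ℝ (G.pos t o u) (G.pos t o v) →
        p ∈ segment ℝ (G.pos t o u') (G.pos t o v') →
        ∃ w, w ∈ s(u, v) ∧ w ∈ s(u', v') ∧ p = G.pos t o w := by
      intro u v u' v' he hf hne hp hp'
      rcases E_nc h hG he hf with ⟨rfl, rfl⟩ | hnc
      · exact (hne rfl).elim
      · obtain ⟨h1, h2⟩ := hnc p hp hp'
        obtain ⟨n1, n2⟩ := E_mem_names h (cl := cl) he
        obtain ⟨n3, n4⟩ := E_mem_names h (cl := cl) hf
        rcases h1 with h1 | h1
        · refine ⟨u, by simp, ?_, h1⟩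
          rcases h2 with h2 | h2
          · rw [pos_inj h hG u n1 u' n3 (h1.symm.trans h2)]; simp
          · rw [pos_inj h hG u n1 v' n4 (h1.symm.trans h2)]; simp
        · refine ⟨v, by simp, ?_, h1⟩
          rcases h2 with h2 | h2
          · rw [pos_inj h hG v n2 u' n3 (h1.symm.trans h2)]; simp
          · rw [pos_inj h hG v n2 v' n4 (h1.symm.trans h2)]; simp
    rw [nbr_iff h] at huv huv'
    rcases huv with h1 | h1
    · rcases huv' with h2 | h2
      · exact main u v u' v' h1 h2 hne hp hp'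
      · rw [segment_symm] at hp'
        rw [Sym2.eq_swap (a := u')] at hne ⊢
        exact main u v v' u' h1 h2 hne hp hp'
    · rw [segment_symm] at hp
      rw [Sym2.eq_swap (a := u)] at hne ⊢
      rcases huv' with h2 | h2
      · exact main v u u' v' h1 h2 hne hp hp'
      · rw [segment_symm] at hp'
        rw [Sym2.eq_swap (a := u')] at hne ⊢
        exact main v u v' u' h1 h2 hne hp hp'
/-- **The drawing of a good configuration.** -/
theorem isDrawing (h : G.OK) {t : ℕ → ℕ → ℝ} {o : ℕ → ℕ → ℕ → ℝ} (hG : Good G t o) (cl : Bool) :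
    (G.inst cl).IsDrawing (G.pos t o) where
  inj := pos_inj h hG
  off := by
    intro w hw u v huv hp
    by_contra hne
    rw [not_or] at hne
    have hu : u ∈ (G.inst cl).names := by
      obtain ⟨e, he, rfl, -⟩ := huv
      exact List.mem_map.2 ⟨e, he, rfl⟩
    -- a neighbour of `w`
    obtain ⟨x, hx⟩ : ∃ x, (G.inst cl).Nbr w x := by
      rcases Relation.ReflTransGen.cases_head (connected h w hw u hu) with h1 | ⟨x, h1, -⟩
      · exact (hne.1 h1).elim
      · exact ⟨x, h1⟩
    have hs : s(u, v) ≠ s(w, x) := by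
      intro h1
      have : w ∈ s(u, v) := by rw [h1]; simp
      rw [Sym2.mem_iff] at this
      exact this.elim hne.1 hne.2
    obtain ⟨y, y1, y2, y3⟩ := plane_all h hG cl u v w x huv hx hs _ hp (left_mem_segment ℝ _ _)
    have hy : y ∈ (G.inst cl).names := by
      rw [Sym2.mem_iff] at y1
      rcases y1 with rfl | rfl
      · exact hu
      · rw [nbr_iff h] at huv
        rcases huv with h1 | h1
        · exact (E_mem_names h h1).2
        · exact (E_mem_names h h1).1
    have := pos_inj h hG w hw y hy y3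
    subst this
    rw [Sym2.mem_iff] at y1
    exact y1.elim hne.1 hne.2
  plane := plane_all h hG cl

/-- The vertical and horizontal segments are proper. -/
theorem mkSeg_ne (cl : Bool) (X Y k : ℕ) : (mkSeg cl X Y k).p ≠ (mkSeg cl X Y k).q := by
  have hk : klo k < khi k := by
    unfold klo khi
    split_ifs <;> omega
  unfold mkSeg
  split_ifs
  · simp only [ne_eq, Prod.mk.injEq, not_and]
    intro h1
    exfalso
    push_cast at h1
    linarith
  · simp only [ne_eq, Prod.mk.injEq, not_and]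
    intro _ h1
    have : Y + klo k = Y + khi k := by exact_mod_cast h1
    omega

/-- The data of a diagram are valid. -/
theorem valid (h : G.OK) {t : ℕ → ℕ → ℝ} {o : ℕ → ℕ → ℕ → ℝ} (hG : Good G t o) (cl : Bool) :
    (G.inst cl).Valid where
  nodup := names_nodup h
  nbrs_nodup := by
    intro e he
    obtain ⟨Lf, Rg, h1, h2, h3, h4, h5⟩ := rot_all h hG e he
    have key : ∀ o a b : ℝ × ℝ, 0 < cr o a b → a ≠ b := by
      rintro o a b hc rfl
      unfold cr at hc
      linarith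
    rw [h1, List.nodup_append]
    have n1 : Lf.Nodup := List.Pairwise.imp (fun {a b} hc (he : a = b) =>
      key _ _ _ hc (by rw [he])) h4
    have n2 : Rg.Nodup := List.Pairwise.imp (fun {a b} hc (he : a = b) =>
      key _ _ _ hc (by rw [he])) h5
    refine ⟨n1, n2, ?_⟩
    intro a ha b hb hab
    subst hab
    have k1 := E_lt h hG ((h2 a).1 ha)
    have k2 := E_lt h hG ((h3 a).1 hb)
    linarith
  loopless := by
    intro u hu
    rw [nbr_iff h] at hu
    rcases hu with h1 | h1 <;> exact lt_irrefl _ (E_lt h hG h1)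
  symm := by
    intro u v huv
    rw [nbr_iff h] at huv ⊢
    exact huv.symm
  seg := by
    intro e he
    rcases mem_verts.1 he with rfl | ⟨l, hl, k, hk, h0, rfl⟩ | ⟨l, hl, b, hb, i, w, hw, rfl⟩
    · simp only [rootSeg, ne_eq, Prod.mk.injEq, not_and]
      norm_num
    · exact mkSeg_ne _ _ _ _
    · exact mkSeg_ne _ _ _ _
  obs := fun s hs => by simp [inst] at hs

/-- The graph of a diagram is planar. -/
theorem planar (h : G.OK) {t : ℕ → ℕ → ℝ} {o : ℕ → ℕ → ℕ → ℝ} (hG : Good G t o) (cl : Bool) :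
    (G.inst cl).Planar := ⟨_, isDrawing h hG cl⟩

end Dia

end Pool.Agent.U788.SegW
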