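import Pool.Agent.U788.Seg.GadGeo

/-!
# What a planar drawing of a gadget forces
-/

namespace Pool.Agent.U788.SegW

open Pool.Agent.K4H90.SegDraw (cr NC Disj hdiff)

/-- Lower end of the range of the ordinates, relative to the base, of a vertex of given kind. -/
def klo (k : ℕ) : ℕ :=
  if k = 4 then 0 else if k = 5 then 32 else if k = 6 then 24 else if k = 7 then 25 else 16

/-- Upper end of the range of the ordinates, relative to the base, of a vertex of given kind. -/
def khi (k : ℕ) : ℕ :=
  if k = 1 then 24 else if k = 3 then 25 else if k = 4 then 16 else if k = 5 then 48 else 32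

/-- The offsets of the inner vertices, end points of the segments allowed. -/
def OffCl (g : Gadget) (o : ℕ → ℝ) : Prop :=
  ∀ i w, g.1[i]? = some w →
    (w.2.2.1 ≠ 2 → (klo w.2.2.1 : ℝ) - 16 ≤ o i ∧ o i ≤ (khi w.2.2.1 : ℝ) - 16) ∧
    (w.2.2.1 = 2 → (w.1 : ℝ) ≤ o i ∧ o i ≤ (w.1 : ℝ) + 3)

/-- The facts about the positions in a gadget given by a planar drawing. -/
structure SndOK (g : Gadget) (lo ro o : ℕ → ℝ) : Prop where
  hl : ∀ i < g.2.1.length, 0 ≤ lo i ∧ lo i ≤ 16
  hr : ∀ i < g.2.2.length, 0 ≤ ro i ∧ ro i ≤ 16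
  off : OffCl g o
  inj : ∀ i < g.1.length, ∀ j < g.1.length,
    cfg g lo ro o (2, i) = cfg g lo ro o (2, j) → i = j
  nc : ∀ e ∈ edgesOf g, ∀ f ∈ edgesOf g, e ≠ f →
    NC (cfg g lo ro o e.1) (cfg g lo ro o e.2) (cfg g lo ro o f.1) (cfg g lo ro o f.2)

theorem plain_snd {lo ro o : ℕ → ℝ} (h : SndOK plainG lo ro o) :
    lo 0 < ro 0 := by
  obtain ⟨hl, hr, ho, hi, hn⟩ := h
  obtain ⟨l0a, l0b⟩ := hl 0 (by decide)
  obtain ⟨r0a, r0b⟩ := hr 0 (by decide)
  obtain ⟨o0a, o0b⟩ : 0 ≤ o 0 ∧ o 0 ≤ 8 := by
    have := (ho 0 _ rfl).1 (by norm_num)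
    norm_num [klo, khi] at this
    constructor <;> linarith [this.1, this.2]
  obtain ⟨o1a, o1b⟩ : 0 ≤ o 1 ∧ o 1 ≤ 16 := by
    have := (ho 1 _ rfl).1 (by norm_num)
    norm_num [klo, khi] at this
    constructor <;> linarith [this.1, this.2]
  obtain ⟨o2a, o2b⟩ : 8 ≤ o 2 ∧ o 2 ≤ 16 := by
    have := (ho 2 _ rfl).1 (by norm_num)
    norm_num [klo, khi] at this
    constructor <;> linarith [this.1, this.2]
  obtain ⟨o3a, o3b⟩ : 16 ≤ o 3 ∧ o 3 ≤ 32 := by
    have := (ho 3 _ rfl).1 (by norm_num)
    norm_num [klo, khi] at this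
    constructor <;> linarith [this.1, this.2]
  obtain ⟨o4a, o4b⟩ : -16 ≤ o 4 ∧ o 4 ≤ 0 := by
    have := (ho 4 _ rfl).1 (by norm_num)
    norm_num [klo, khi] at this
    constructor <;> linarith [this.1, this.2]
  have c0 : lo 0 + o 1 < 2 * o 0 := by
    have h1 := hn ((0, 0), (2, 1)) (by decide +kernel) ((2, 0), (2, 3)) (by decide +kernel) (by decide)
    simp only [plain_q0_0 lo ro o, plain_q2_1 lo ro o, plain_q2_0 lo ro o, plain_q2_3 lo ro o] at h1
    have h3 := ncB h1 3 4 (by norm_num) (by first | (norm_num; done) | (simp only; linarith)) (by first | (norm_num; done) | (simp only; linarith)) (by first | (norm_num; done) | (simp only; linarith))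
      (by first | (norm_num; done) | (simp only; linarith)) (ne_x (Or.inl (by first | (norm_num; done) | (simp only; linarith)))) (ne_x (Or.inr (by first | (norm_num; done) | (simp only; linarith))))
      (by simp only [hdiff]; linarith)
    simp only [hdiff] at h3
    linarith
  have c1 : 2 * o 2 < o 1 + ro 0 := by
    have h1 := hn ((2, 2), (2, 4)) (by decide +kernel) ((2, 1), (1, 0)) (by decide +kernel) (by decide)
    simp only [plain_q2_2 lo ro o, plain_q2_4 lo ro o, plain_q2_1 lo ro o, plain_q1_0 lo ro o] at h1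
    have h3 := ncB h1 9 10 (by norm_num) (by first | (norm_num; done) | (simp only; linarith)) (by first | (norm_num; done) | (simp only; linarith)) (by first | (norm_num; done) | (simp only; linarith))
      (by first | (norm_num; done) | (simp only; linarith)) (ne_x (Or.inr (by first | (norm_num; done) | (simp only; linarith)))) (ne_x (Or.inl (by first | (norm_num; done) | (simp only; linarith))))
      (by simp only [hdiff]; linarith)
    simp only [hdiff] at h3
    linarith
  linarith

theorem neg_snd {lo ro o : ℕ → ℝ} (h : SndOK negG lo ro o) :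
    16 < lo 0 + ro 0 := by
  obtain ⟨hl, hr, ho, hi, hn⟩ := h
  obtain ⟨l0a, l0b⟩ := hl 0 (by decide)
  obtain ⟨r0a, r0b⟩ := hr 0 (by decide)
  obtain ⟨o0a, o0b⟩ : 8 ≤ o 0 ∧ o 0 ≤ 16 := by
    have := (ho 0 _ rfl).1 (by norm_num)
    norm_num [klo, khi] at this
    constructor <;> linarith [this.1, this.2]
  obtain ⟨o1a, o1b⟩ : -16 ≤ o 1 ∧ o 1 ≤ 0 := by
    have := (ho 1 _ rfl).1 (by norm_num)
    norm_num [klo, khi] at this
    constructor <;> linarith [this.1, this.2]
  have c0 : 2 * o 0 < lo 0 + ro 0 := by
    have h1 := hn ((2, 0), (2, 1)) (by decide +kernel) ((0, 0), (1, 0)) (by decide +kernel) (by decide)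
    simp only [neg_q2_0 lo ro o, neg_q2_1 lo ro o, neg_q0_0 lo ro o, neg_q1_0 lo ro o] at h1
    have h3 := ncB h1 6 7 (by norm_num) (by first | (norm_num; done) | (simp only; linarith)) (by first | (norm_num; done) | (simp only; linarith)) (by first | (norm_num; done) | (simp only; linarith))
      (by first | (norm_num; done) | (simp only; linarith)) (ne_x (Or.inr (by first | (norm_num; done) | (simp only; linarith)))) (ne_x (Or.inl (by first | (norm_num; done) | (simp only; linarith))))
      (by simp only [hdiff]; linarith)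
    simp only [hdiff] at h3
    linarith
  linarith

theorem swap_snd {lo ro o : ℕ → ℝ} (h : SndOK swapG lo ro o) :
    lo 0 < ro 1 ∧ lo 1 < ro 0 := by
  obtain ⟨hl, hr, ho, hi, hn⟩ := h
  obtain ⟨l0a, l0b⟩ := hl 0 (by decide)
  obtain ⟨l1a, l1b⟩ := hl 1 (by decide)
  obtain ⟨r0a, r0b⟩ := hr 0 (by decide)
  obtain ⟨r1a, r1b⟩ := hr 1 (by decide)
  obtain ⟨o0a, o0b⟩ : 0 ≤ o 0 ∧ o 0 ≤ 8 := by
    have := (ho 0 _ rfl).1 (by norm_num)
    norm_num [klo, khi] at this
    constructor <;> linarith [this.1, this.2]
  obtain ⟨o1a, o1b⟩ : 0 ≤ o 1 ∧ o 1 ≤ 16 := by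
    have := (ho 1 _ rfl).1 (by norm_num)
    norm_num [klo, khi] at this
    constructor <;> linarith [this.1, this.2]
  obtain ⟨o2a, o2b⟩ : 8 ≤ o 2 ∧ o 2 ≤ 16 := by
    have := (ho 2 _ rfl).1 (by norm_num)
    norm_num [klo, khi] at this
    constructor <;> linarith [this.1, this.2]
  obtain ⟨o3a, o3b⟩ : 0 ≤ o 3 ∧ o 3 ≤ 16 := by
    have := (ho 3 _ rfl).1 (by norm_num)
    norm_num [klo, khi] at this
    constructor <;> linarith [this.1, this.2]
  obtain ⟨o4a, o4b⟩ : 8 ≤ o 4 ∧ o 4 ≤ 16 := by
    have := (ho 4 _ rfl).1 (by norm_num)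
    norm_num [klo, khi] at this
    constructor <;> linarith [this.1, this.2]
  obtain ⟨o5a, o5b⟩ : 0 ≤ o 5 ∧ o 5 ≤ 16 := by
    have := (ho 5 _ rfl).1 (by norm_num)
    norm_num [klo, khi] at this
    constructor <;> linarith [this.1, this.2]
  obtain ⟨o6a, o6b⟩ : 0 ≤ o 6 ∧ o 6 ≤ 16 := by
    have := (ho 6 _ rfl).1 (by norm_num)
    norm_num [klo, khi] at this
    constructor <;> linarith [this.1, this.2]
  obtain ⟨o7a, o7b⟩ : 0 ≤ o 7 ∧ o 7 ≤ 8 := by
    have := (ho 7 _ rfl).1 (by norm_num)
    norm_num [klo, khi] at this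
    constructor <;> linarith [this.1, this.2]
  obtain ⟨o8a, o8b⟩ : 0 ≤ o 8 ∧ o 8 ≤ 16 := by
    have := (ho 8 _ rfl).1 (by norm_num)
    norm_num [klo, khi] at this
    constructor <;> linarith [this.1, this.2]
  obtain ⟨o9a, o9b⟩ : 8 ≤ o 9 ∧ o 9 ≤ 16 := by
    have := (ho 9 _ rfl).1 (by norm_num)
    norm_num [klo, khi] at this
    constructor <;> linarith [this.1, this.2]
  obtain ⟨o10a, o10b⟩ : 0 ≤ o 10 ∧ o 10 ≤ 16 := by
    have := (ho 10 _ rfl).1 (by norm_num)
    norm_num [klo, khi] at this
    constructor <;> linarith [this.1, this.2]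
  obtain ⟨o11a, o11b⟩ : 0 ≤ o 11 ∧ o 11 ≤ 8 := by
    have := (ho 11 _ rfl).1 (by norm_num)
    norm_num [klo, khi] at this
    constructor <;> linarith [this.1, this.2]
  obtain ⟨o12a, o12b⟩ : 0 ≤ o 12 ∧ o 12 ≤ 16 := by
    have := (ho 12 _ rfl).1 (by norm_num)
    norm_num [klo, khi] at this
    constructor <;> linarith [this.1, this.2]
  obtain ⟨o13a, o13b⟩ : 0 ≤ o 13 ∧ o 13 ≤ 16 := by
    have := (ho 13 _ rfl).1 (by norm_num)
    norm_num [klo, khi] at this
    constructor <;> linarith [this.1, this.2]
  obtain ⟨o14a, o14b⟩ : 8 ≤ o 14 ∧ o 14 ≤ 16 := by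
    have := (ho 14 _ rfl).1 (by norm_num)
    norm_num [klo, khi] at this
    constructor <;> linarith [this.1, this.2]
  obtain ⟨o15a, o15b⟩ : 16 ≤ o 15 ∧ o 15 ≤ 32 := by
    have := (ho 15 _ rfl).1 (by norm_num)
    norm_num [klo, khi] at this
    constructor <;> linarith [this.1, this.2]
  obtain ⟨o16a, o16b⟩ : -16 ≤ o 16 ∧ o 16 ≤ 0 := by
    have := (ho 16 _ rfl).1 (by norm_num)
    norm_num [klo, khi] at this
    constructor <;> linarith [this.1, this.2]
  obtain ⟨o17a, o17b⟩ : -16 ≤ o 17 ∧ o 17 ≤ 0 := by
    have := (ho 17 _ rfl).1 (by norm_num)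
    norm_num [klo, khi] at this
    constructor <;> linarith [this.1, this.2]
  obtain ⟨o18a, o18b⟩ : 16 ≤ o 18 ∧ o 18 ≤ 32 := by
    have := (ho 18 _ rfl).1 (by norm_num)
    norm_num [klo, khi] at this
    constructor <;> linarith [this.1, this.2]
  obtain ⟨o19a, o19b⟩ : -16 ≤ o 19 ∧ o 19 ≤ 0 := by
    have := (ho 19 _ rfl).1 (by norm_num)
    norm_num [klo, khi] at this
    constructor <;> linarith [this.1, this.2]
  obtain ⟨o20a, o20b⟩ : 0 ≤ o 20 ∧ o 20 ≤ 16 := by
    have := (ho 20 _ rfl).1 (by norm_num)
    norm_num [klo, khi] at this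
    constructor <;> linarith [this.1, this.2]
  obtain ⟨o21a, o21b⟩ : -16 ≤ o 21 ∧ o 21 ≤ 0 := by
    have := (ho 21 _ rfl).1 (by norm_num)
    norm_num [klo, khi] at this
    constructor <;> linarith [this.1, this.2]
  have c0 : lo 0 + o 1 < 2 * o 0 := by
    have h1 := hn ((0, 0), (2, 1)) (by decide +kernel) ((2, 0), (2, 15)) (by decide +kernel) (by decide)
    simp only [swap_q0_0 lo ro o, swap_q2_1 lo ro o, swap_q2_0 lo ro o, swap_q2_15 lo ro o] at h1
    have j2 := hi 1 (by decide) 15 (by decide)
    simp only [swap_q2_1 lo ro o, swap_q2_15 lo ro o] at j2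
    have h3 := ncB h1 1 2 (by norm_num) (by first | (norm_num; done) | (simp only; linarith)) (by first | (norm_num; done) | (simp only; linarith)) (by first | (norm_num; done) | (simp only; linarith))
      (by first | (norm_num; done) | (simp only; linarith)) (ne_x (Or.inl (by first | (norm_num; done) | (simp only; linarith)))) (fun e => absurd (j2 e) (by decide))
      (by simp only [hdiff]; linarith)
    simp only [hdiff] at h3
    linarith
  have c1 : 2 * o 2 < o 1 + o 3 := by
    have h1 := hn ((2, 2), (2, 16)) (by decide +kernel) ((2, 1), (2, 3)) (by decide +kernel) (by decide)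
    simp only [swap_q2_2 lo ro o, swap_q2_16 lo ro o, swap_q2_1 lo ro o, swap_q2_3 lo ro o] at h1
    have j2 := hi 16 (by decide) 3 (by decide)
    simp only [swap_q2_16 lo ro o, swap_q2_3 lo ro o] at j2
    have h3 := ncB h1 3 4 (by norm_num) (by first | (norm_num; done) | (simp only; linarith)) (by first | (norm_num; done) | (simp only; linarith)) (by first | (norm_num; done) | (simp only; linarith))
      (by first | (norm_num; done) | (simp only; linarith)) (ne_x (Or.inr (by first | (norm_num; done) | (simp only; linarith)))) (fun e => absurd (j2 e) (by decide))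
      (by simp only [hdiff]; linarith)
    simp only [hdiff] at h3
    linarith
  have c2 : lo 1 + o 3 < 2 * o 6 := by
    have h1 := hn ((0, 1), (2, 3)) (by decide +kernel) ((2, 6), (2, 8)) (by decide +kernel) (by decide)
    simp only [swap_q0_1 lo ro o, swap_q2_3 lo ro o, swap_q2_6 lo ro o, swap_q2_8 lo ro o] at h1
    have h3 := ncB h1 2 4 (by norm_num) (by first | (norm_num; done) | (simp only; linarith)) (by first | (norm_num; done) | (simp only; linarith)) (by first | (norm_num; done) | (simp only; linarith))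
      (by first | (norm_num; done) | (simp only; linarith)) (ne_x (Or.inl (by first | (norm_num; done) | (simp only; linarith)))) (ne_y (Or.inl (by simp only; linarith)))
      (by simp only [hdiff]; linarith)
    simp only [hdiff] at h3
    linarith
  have c3 : o 6 + o 8 < 2 * o 7 := by
    have h1 := hn ((2, 6), (2, 8)) (by decide +kernel) ((2, 7), (2, 18)) (by decide +kernel) (by decide)
    simp only [swap_q2_6 lo ro o, swap_q2_8 lo ro o, swap_q2_7 lo ro o, swap_q2_18 lo ro o] at h1
    have j2 := hi 8 (by decide) 18 (by decide)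
    simp only [swap_q2_8 lo ro o, swap_q2_18 lo ro o] at j2
    have h3 := ncB h1 3 4 (by norm_num) (by first | (norm_num; done) | (simp only; linarith)) (by first | (norm_num; done) | (simp only; linarith)) (by first | (norm_num; done) | (simp only; linarith))
      (by first | (norm_num; done) | (simp only; linarith)) (ne_x (Or.inl (by first | (norm_num; done) | (simp only; linarith)))) (fun e => absurd (j2 e) (by decide))
      (by simp only [hdiff]; linarith)
    simp only [hdiff] at h3
    linarith
  have c4 : 2 * o 9 < o 8 + o 10 := by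
    have h1 := hn ((2, 9), (2, 19)) (by decide +kernel) ((2, 8), (2, 10)) (by decide +kernel) (by decide)
    simp only [swap_q2_9 lo ro o, swap_q2_19 lo ro o, swap_q2_8 lo ro o, swap_q2_10 lo ro o] at h1
    have j2 := hi 19 (by decide) 10 (by decide)
    simp only [swap_q2_19 lo ro o, swap_q2_10 lo ro o] at j2
    have h3 := ncB h1 5 6 (by norm_num) (by first | (norm_num; done) | (simp only; linarith)) (by first | (norm_num; done) | (simp only; linarith)) (by first | (norm_num; done) | (simp only; linarith))
      (by first | (norm_num; done) | (simp only; linarith)) (ne_x (Or.inr (by first | (norm_num; done) | (simp only; linarith)))) (fun e => absurd (j2 e) (by decide))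
      (by simp only [hdiff]; linarith)
    simp only [hdiff] at h3
    linarith
  have c5 : 2 * o 10 < lo 1 + ro 1 := by
    have h1 := hn ((2, 8), (2, 10)) (by decide +kernel) ((0, 1), (1, 1)) (by decide +kernel) (by decide)
    simp only [swap_q2_8 lo ro o, swap_q2_10 lo ro o, swap_q0_1 lo ro o, swap_q1_1 lo ro o] at h1
    have h3 := ncA h1 4 6 (by norm_num) (by first | (norm_num; done) | (simp only; linarith)) (by first | (norm_num; done) | (simp only; linarith)) (by first | (norm_num; done) | (simp only; linarith))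
      (by first | (norm_num; done) | (simp only; linarith)) (ne_x (Or.inr (by first | (norm_num; done) | (simp only; linarith)))) (ne_x (Or.inl (by first | (norm_num; done) | (simp only; linarith))))
      (by simp only [hdiff]; linarith)
    simp only [hdiff] at h3
    linarith
  have c6 : o 6 + o 12 < 2 * o 11 := by
    have h1 := hn ((2, 6), (2, 12)) (by decide +kernel) ((2, 11), (2, 20)) (by decide +kernel) (by decide)
    simp only [swap_q2_6 lo ro o, swap_q2_12 lo ro o, swap_q2_11 lo ro o, swap_q2_20 lo ro o] at h1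
    have h3 := ncB h1 5 6 (by norm_num) (by first | (norm_num; done) | (simp only; linarith)) (by first | (norm_num; done) | (simp only; linarith)) (by first | (norm_num; done) | (simp only; linarith))
      (by first | (norm_num; done) | (simp only; linarith)) (ne_x (Or.inl (by first | (norm_num; done) | (simp only; linarith)))) (ne_x (Or.inr (by first | (norm_num; done) | (simp only; linarith))))
      (by simp only [hdiff]; linarith)
    simp only [hdiff] at h3
    linarith
  have c7 : 2 * o 4 < o 3 + o 5 := by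
    have h1 := hn ((2, 4), (2, 17)) (by decide +kernel) ((2, 3), (2, 5)) (by decide +kernel) (by decide)
    simp only [swap_q2_4 lo ro o, swap_q2_17 lo ro o, swap_q2_3 lo ro o, swap_q2_5 lo ro o] at h1
    have j2 := hi 17 (by decide) 5 (by decide)
    simp only [swap_q2_17 lo ro o, swap_q2_5 lo ro o] at j2
    have h3 := ncB h1 5 6 (by norm_num) (by first | (norm_num; done) | (simp only; linarith)) (by first | (norm_num; done) | (simp only; linarith)) (by first | (norm_num; done) | (simp only; linarith))
      (by first | (norm_num; done) | (simp only; linarith)) (ne_x (Or.inr (by first | (norm_num; done) | (simp only; linarith)))) (fun e => absurd (j2 e) (by decide))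
      (by simp only [hdiff]; linarith)
    simp only [hdiff] at h3
    linarith
  have c8 : o 13 + o 5 < 2 * o 12 := by
    have h1 := hn ((2, 5), (2, 13)) (by decide +kernel) ((2, 6), (2, 12)) (by decide +kernel) (by decide)
    simp only [swap_q2_5 lo ro o, swap_q2_13 lo ro o, swap_q2_6 lo ro o, swap_q2_12 lo ro o] at h1
    have h3 := ncA h1 6 8 (by norm_num) (by first | (norm_num; done) | (simp only; linarith)) (by first | (norm_num; done) | (simp only; linarith)) (by first | (norm_num; done) | (simp only; linarith))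
      (by first | (norm_num; done) | (simp only; linarith)) (ne_x (Or.inr (by first | (norm_num; done) | (simp only; linarith)))) (ne_x (Or.inr (by first | (norm_num; done) | (simp only; linarith))))
      (by simp only [hdiff]; linarith)
    simp only [hdiff] at h3
    linarith
  have c9 : 2 * o 14 < o 13 + ro 0 := by
    have h1 := hn ((2, 21), (2, 14)) (by decide +kernel) ((2, 13), (1, 0)) (by decide +kernel) (by decide)
    simp only [swap_q2_21 lo ro o, swap_q2_14 lo ro o, swap_q2_13 lo ro o, swap_q1_0 lo ro o] at h1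
    have j1 := hi 21 (by decide) 13 (by decide)
    simp only [swap_q2_21 lo ro o, swap_q2_13 lo ro o] at j1
    have h3 := ncA h1 10 11 (by norm_num) (by first | (norm_num; done) | (simp only; linarith)) (by first | (norm_num; done) | (simp only; linarith)) (by first | (norm_num; done) | (simp only; linarith))
      (by first | (norm_num; done) | (simp only; linarith)) (fun e => absurd (j1 e) (by decide)) (ne_x (Or.inl (by first | (norm_num; done) | (simp only; linarith))))
      (by simp only [hdiff]; linarith)
    simp only [hdiff] at h3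
    linarith
  constructor <;> linarith

theorem lin_snd {lo ro o : ℕ → ℝ} (h : SndOK linG lo ro o) :
    lo 0 + lo 2 + 2 * lo 1 < 32 := by
  obtain ⟨hl, hr, ho, hi, hn⟩ := h
  obtain ⟨l0a, l0b⟩ := hl 0 (by decide)
  obtain ⟨l1a, l1b⟩ := hl 1 (by decide)
  obtain ⟨l2a, l2b⟩ := hl 2 (by decide)
  obtain ⟨o0a, o0b⟩ : 0 ≤ o 0 ∧ o 0 ≤ 8 := by
    have := (ho 0 _ rfl).1 (by norm_num)
    norm_num [klo, khi] at this
    constructor <;> linarith [this.1, this.2]
  obtain ⟨o1a, o1b⟩ : 0 ≤ o 1 ∧ o 1 ≤ 16 := by
    have := (ho 1 _ rfl).1 (by norm_num)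
    norm_num [klo, khi] at this
    constructor <;> linarith [this.1, this.2]
  obtain ⟨o2a, o2b⟩ : 8 ≤ o 2 ∧ o 2 ≤ 16 := by
    have := (ho 2 _ rfl).1 (by norm_num)
    norm_num [klo, khi] at this
    constructor <;> linarith [this.1, this.2]
  obtain ⟨o3a, o3b⟩ : 0 ≤ o 3 ∧ o 3 ≤ 16 := by
    have := (ho 3 _ rfl).1 (by norm_num)
    norm_num [klo, khi] at this
    constructor <;> linarith [this.1, this.2]
  obtain ⟨o4a, o4b⟩ : 0 ≤ o 4 ∧ o 4 ≤ 8 := by
    have := (ho 4 _ rfl).1 (by norm_num)
    norm_num [klo, khi] at this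
    constructor <;> linarith [this.1, this.2]
  obtain ⟨o5a, o5b⟩ : 0 ≤ o 5 ∧ o 5 ≤ 16 := by
    have := (ho 5 _ rfl).1 (by norm_num)
    norm_num [klo, khi] at this
    constructor <;> linarith [this.1, this.2]
  obtain ⟨o6a, o6b⟩ : 16 ≤ o 6 ∧ o 6 ≤ 32 := by
    have := (ho 6 _ rfl).1 (by norm_num)
    norm_num [klo, khi] at this
    constructor <;> linarith [this.1, this.2]
  obtain ⟨o7a, o7b⟩ : 16 ≤ o 7 ∧ o 7 ≤ 32 := by
    have := (ho 7 _ rfl).1 (by norm_num)
    norm_num [klo, khi] at this
    constructor <;> linarith [this.1, this.2]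
  obtain ⟨o8a, o8b⟩ : -16 ≤ o 8 ∧ o 8 ≤ 0 := by
    have := (ho 8 _ rfl).1 (by norm_num)
    norm_num [klo, khi] at this
    constructor <;> linarith [this.1, this.2]
  have c0 : lo 2 + o 1 < 2 * o 0 := by
    have h1 := hn ((0, 2), (2, 1)) (by decide +kernel) ((2, 0), (2, 6)) (by decide +kernel) (by decide)
    simp only [lin_q0_2 lo ro o, lin_q2_1 lo ro o, lin_q2_0 lo ro o, lin_q2_6 lo ro o] at h1
    have j2 := hi 1 (by decide) 6 (by decide)
    simp only [lin_q2_1 lo ro o, lin_q2_6 lo ro o] at j2
    have h3 := ncB h1 1 2 (by norm_num) (by first | (norm_num; done) | (simp only; linarith)) (by first | (norm_num; done) | (simp only; linarith)) (by first | (norm_num; done) | (simp only; linarith))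
      (by first | (norm_num; done) | (simp only; linarith)) (ne_x (Or.inl (by first | (norm_num; done) | (simp only; linarith)))) (fun e => absurd (j2 e) (by decide))
      (by simp only [hdiff]; linarith)
    simp only [hdiff] at h3
    linarith
  have c1 : 2 * o 2 < o 1 + o 3 := by
    have h1 := hn ((2, 8), (2, 2)) (by decide +kernel) ((2, 1), (2, 3)) (by decide +kernel) (by decide)
    simp only [lin_q2_8 lo ro o, lin_q2_2 lo ro o, lin_q2_1 lo ro o, lin_q2_3 lo ro o] at h1
    have j1 := hi 8 (by decide) 1 (by decide)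
    simp only [lin_q2_8 lo ro o, lin_q2_1 lo ro o] at j1
    have h3 := ncA h1 2 3 (by norm_num) (by first | (norm_num; done) | (simp only; linarith)) (by first | (norm_num; done) | (simp only; linarith)) (by first | (norm_num; done) | (simp only; linarith))
      (by first | (norm_num; done) | (simp only; linarith)) (fun e => absurd (j1 e) (by decide)) (ne_x (Or.inl (by first | (norm_num; done) | (simp only; linarith))))
      (by simp only [hdiff]; linarith)
    simp only [hdiff] at h3
    linarith
  have c2 : lo 1 + o 5 < 2 * o 4 := by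
    have h1 := hn ((0, 1), (2, 5)) (by decide +kernel) ((2, 4), (2, 7)) (by decide +kernel) (by decide)
    simp only [lin_q0_1 lo ro o, lin_q2_5 lo ro o, lin_q2_4 lo ro o, lin_q2_7 lo ro o] at h1
    have j2 := hi 5 (by decide) 7 (by decide)
    simp only [lin_q2_5 lo ro o, lin_q2_7 lo ro o] at j2
    have h3 := ncB h1 1 2 (by norm_num) (by first | (norm_num; done) | (simp only; linarith)) (by first | (norm_num; done) | (simp only; linarith)) (by first | (norm_num; done) | (simp only; linarith))
      (by first | (norm_num; done) | (simp only; linarith)) (ne_x (Or.inl (by first | (norm_num; done) | (simp only; linarith)))) (fun e => absurd (j2 e) (by decide))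
      (by simp only [hdiff]; linarith)
    simp only [hdiff] at h3
    linarith
  have c3 : o 3 + lo 0 < 2 * o 5 := by
    have h1 := hn ((0, 0), (2, 3)) (by decide +kernel) ((0, 1), (2, 5)) (by decide +kernel) (by decide)
    simp only [lin_q0_0 lo ro o, lin_q2_3 lo ro o, lin_q0_1 lo ro o, lin_q2_5 lo ro o] at h1
    have h3 := ncA h1 0 2 (by norm_num) (by first | (norm_num; done) | (simp only; linarith)) (by first | (norm_num; done) | (simp only; linarith)) (by first | (norm_num; done) | (simp only; linarith))
      (by first | (norm_num; done) | (simp only; linarith)) (ne_y (Or.inl (by simp only; linarith))) (ne_x (Or.inr (by first | (norm_num; done) | (simp only; linarith))))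
      (by simp only [hdiff]; linarith)
    simp only [hdiff] at h3
    linarith
  linarith

theorem prod_snd {lo ro o : ℕ → ℝ} (h : SndOK prodG lo ro o) :
    (16 + lo 1) * lo 0 + 16 * lo 2 < 320 := by
  obtain ⟨hl, hr, ho, hi, hn⟩ := h
  obtain ⟨l0a, l0b⟩ := hl 0 (by decide)
  obtain ⟨l1a, l1b⟩ := hl 1 (by decide)
  obtain ⟨l2a, l2b⟩ := hl 2 (by decide)
  obtain ⟨o0a, o0b⟩ : 0 ≤ o 0 ∧ o 0 ≤ 8 := by
    have := (ho 0 _ rfl).1 (by norm_num)
    norm_num [klo, khi] at this
    constructor <;> linarith [this.1, this.2]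
  obtain ⟨o1a, o1b⟩ : 0 ≤ o 1 ∧ o 1 ≤ 16 := by
    have := (ho 1 _ rfl).1 (by norm_num)
    norm_num [klo, khi] at this
    constructor <;> linarith [this.1, this.2]
  obtain ⟨o2a, o2b⟩ : 8 ≤ o 2 ∧ o 2 ≤ 16 := by
    have := (ho 2 _ rfl).1 (by norm_num)
    norm_num [klo, khi] at this
    constructor <;> linarith [this.1, this.2]
  obtain ⟨o3a, o3b⟩ : 0 ≤ o 3 ∧ o 3 ≤ 16 := by
    have := (ho 3 _ rfl).1 (by norm_num)
    norm_num [klo, khi] at this
    constructor <;> linarith [this.1, this.2]
  obtain ⟨o4a, o4b⟩ : 0 ≤ o 4 ∧ o 4 ≤ 8 := by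
    have := (ho 4 _ rfl).1 (by norm_num)
    norm_num [klo, khi] at this
    constructor <;> linarith [this.1, this.2]
  obtain ⟨o5a, o5b⟩ : 0 ≤ o 5 ∧ o 5 ≤ 16 := by
    have := (ho 5 _ rfl).1 (by norm_num)
    norm_num [klo, khi] at this
    constructor <;> linarith [this.1, this.2]
  obtain ⟨o6a, o6b⟩ : 8 ≤ o 6 ∧ o 6 ≤ 16 := by
    have := (ho 6 _ rfl).1 (by norm_num)
    norm_num [klo, khi] at this
    constructor <;> linarith [this.1, this.2]
  obtain ⟨o7a, o7b⟩ : 0 ≤ o 7 ∧ o 7 ≤ 16 := by
    have := (ho 7 _ rfl).1 (by norm_num)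
    norm_num [klo, khi] at this
    constructor <;> linarith [this.1, this.2]
  obtain ⟨o8a, o8b⟩ : 0 ≤ o 8 ∧ o 8 ≤ 8 := by
    have := (ho 8 _ rfl).1 (by norm_num)
    norm_num [klo, khi] at this
    constructor <;> linarith [this.1, this.2]
  obtain ⟨o9a, o9b⟩ : 0 ≤ o 9 ∧ o 9 ≤ 16 := by
    have := (ho 9 _ rfl).1 (by norm_num)
    norm_num [klo, khi] at this
    constructor <;> linarith [this.1, this.2]
  obtain ⟨o10a, o10b⟩ := (ho 10 _ rfl).2 rfl
  norm_num at o10a o10b
  obtain ⟨o11a, o11b⟩ : 0 ≤ o 11 ∧ o 11 ≤ 8 := by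
    have := (ho 11 _ rfl).1 (by norm_num)
    norm_num [klo, khi] at this
    constructor <;> linarith [this.1, this.2]
  obtain ⟨o12a, o12b⟩ : 16 ≤ o 12 ∧ o 12 ≤ 32 := by
    have := (ho 12 _ rfl).1 (by norm_num)
    norm_num [klo, khi] at this
    constructor <;> linarith [this.1, this.2]
  obtain ⟨o13a, o13b⟩ : -16 ≤ o 13 ∧ o 13 ≤ 0 := by
    have := (ho 13 _ rfl).1 (by norm_num)
    norm_num [klo, khi] at this
    constructor <;> linarith [this.1, this.2]
  obtain ⟨o14a, o14b⟩ : 0 ≤ o 14 ∧ o 14 ≤ 16 := by
    have := (ho 14 _ rfl).1 (by norm_num)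
    norm_num [klo, khi] at this
    constructor <;> linarith [this.1, this.2]
  obtain ⟨o15a, o15b⟩ : 0 ≤ o 15 ∧ o 15 ≤ 16 := by
    have := (ho 15 _ rfl).1 (by norm_num)
    norm_num [klo, khi] at this
    constructor <;> linarith [this.1, this.2]
  obtain ⟨o16a, o16b⟩ : 0 ≤ o 16 ∧ o 16 ≤ 16 := by
    have := (ho 16 _ rfl).1 (by norm_num)
    norm_num [klo, khi] at this
    constructor <;> linarith [this.1, this.2]
  obtain ⟨o17a, o17b⟩ : 16 ≤ o 17 ∧ o 17 ≤ 32 := by
    have := (ho 17 _ rfl).1 (by norm_num)
    norm_num [klo, khi] at this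
    constructor <;> linarith [this.1, this.2]
  have c0 : lo 0 + o 1 < 2 * o 0 := by
    have h1 := hn ((0, 0), (2, 1)) (by decide +kernel) ((2, 0), (2, 12)) (by decide +kernel) (by decide)
    simp only [prod_q0_0 lo ro o, prod_q2_1 lo ro o, prod_q2_0 lo ro o, prod_q2_12 lo ro o] at h1
    have j2 := hi 1 (by decide) 12 (by decide)
    simp only [prod_q2_1 lo ro o, prod_q2_12 lo ro o] at j2
    have h3 := ncB h1 1 2 (by norm_num) (by first | (norm_num; done) | (simp only; linarith)) (by first | (norm_num; done) | (simp only; linarith)) (by first | (norm_num; done) | (simp only; linarith))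
      (by first | (norm_num; done) | (simp only; linarith)) (ne_x (Or.inl (by first | (norm_num; done) | (simp only; linarith)))) (fun e => absurd (j2 e) (by decide))
      (by simp only [hdiff]; linarith)
    simp only [hdiff] at h3
    linarith
  have c1 : 2 * o 2 < o 1 + o 3 := by
    have h1 := hn ((2, 2), (2, 13)) (by decide +kernel) ((2, 1), (2, 3)) (by decide +kernel) (by decide)
    simp only [prod_q2_2 lo ro o, prod_q2_13 lo ro o, prod_q2_1 lo ro o, prod_q2_3 lo ro o] at h1
    have h3 := ncB h1 4 5 (by norm_num) (by first | (norm_num; done) | (simp only; linarith)) (by first | (norm_num; done) | (simp only; linarith)) (by first | (norm_num; done) | (simp only; linarith))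
      (by first | (norm_num; done) | (simp only; linarith)) (ne_x (Or.inr (by first | (norm_num; done) | (simp only; linarith)))) (ne_x (Or.inl (by first | (norm_num; done) | (simp only; linarith))))
      (by simp only [hdiff]; linarith)
    simp only [hdiff] at h3
    linarith
  have c2 : lo 1 + o 5 < 2 * o 4 := by
    have h1 := hn ((0, 1), (2, 5)) (by decide +kernel) ((2, 4), (2, 14)) (by decide +kernel) (by decide)
    simp only [prod_q0_1 lo ro o, prod_q2_5 lo ro o, prod_q2_4 lo ro o, prod_q2_14 lo ro o] at h1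
    have h3 := ncB h1 1 2 (by norm_num) (by first | (norm_num; done) | (simp only; linarith)) (by first | (norm_num; done) | (simp only; linarith)) (by first | (norm_num; done) | (simp only; linarith))
      (by first | (norm_num; done) | (simp only; linarith)) (ne_x (Or.inl (by first | (norm_num; done) | (simp only; linarith)))) (ne_y (Or.inl (by simp only; linarith)))
      (by simp only [hdiff]; linarith)
    simp only [hdiff] at h3
    linarith
  have c3 : 2 * o 6 < o 5 + o 7 := by
    have h1 := hn ((2, 15), (2, 6)) (by decide +kernel) ((2, 5), (2, 7)) (by decide +kernel) (by decide)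
    simp only [prod_q2_15 lo ro o, prod_q2_6 lo ro o, prod_q2_5 lo ro o, prod_q2_7 lo ro o] at h1
    have h3 := ncA h1 2 3 (by norm_num) (by first | (norm_num; done) | (simp only; linarith)) (by first | (norm_num; done) | (simp only; linarith)) (by first | (norm_num; done) | (simp only; linarith))
      (by first | (norm_num; done) | (simp only; linarith)) (ne_y (Or.inl (by simp only; linarith))) (ne_x (Or.inl (by first | (norm_num; done) | (simp only; linarith))))
      (by simp only [hdiff]; linarith)
    simp only [hdiff] at h3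
    linarith
  have c4 : lo 2 + o 9 < 2 * o 8 := by
    have h1 := hn ((0, 2), (2, 9)) (by decide +kernel) ((2, 8), (2, 16)) (by decide +kernel) (by decide)
    simp only [prod_q0_2 lo ro o, prod_q2_9 lo ro o, prod_q2_8 lo ro o, prod_q2_16 lo ro o] at h1
    have h3 := ncB h1 3 4 (by norm_num) (by first | (norm_num; done) | (simp only; linarith)) (by first | (norm_num; done) | (simp only; linarith)) (by first | (norm_num; done) | (simp only; linarith))
      (by first | (norm_num; done) | (simp only; linarith)) (ne_x (Or.inl (by first | (norm_num; done) | (simp only; linarith)))) (ne_x (Or.inr (by first | (norm_num; done) | (simp only; linarith))))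
      (by simp only [hdiff]; linarith)
    simp only [hdiff] at h3
    linarith
  have c5 : o 1 + o 3 < 2 * (8 + o 11) := by
    have h1 := hn ((2, 1), (2, 3)) (by decide +kernel) ((2, 17), (2, 11)) (by decide +kernel) (by decide)
    simp only [prod_q2_1 lo ro o, prod_q2_3 lo ro o, prod_q2_17 lo ro o, prod_q2_11 lo ro o] at h1
    have h3 := ncA h1 3 4 (by norm_num) (by first | (norm_num; done) | (simp only; linarith)) (by first | (norm_num; done) | (simp only; linarith)) (by first | (norm_num; done) | (simp only; linarith))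
      (by first | (norm_num; done) | (simp only; linarith)) (ne_x (Or.inl (by first | (norm_num; done) | (simp only; linarith)))) (ne_x (Or.inr (by first | (norm_num; done) | (simp only; linarith))))
      (by simp only [hdiff]; linarith)
    simp only [hdiff] at h3
    linarith
  have c6 : o 3 * (o 10 - 4) < (8 + o 11) * (o 10 - 6) := by
    have h1 := hn ((2, 1), (2, 3)) (by decide +kernel) ((2, 11), (2, 10)) (by decide +kernel) (by decide)
    simp only [prod_q2_1 lo ro o, prod_q2_3 lo ro o, prod_q2_11 lo ro o, prod_q2_10 lo ro o] at h1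
    have hp : 0 ≤ (2 * (8 + o 11) - (o 1 + o 3)) * (o 10 - 4) := mul_nonneg (by linarith) (by linarith)
    have h3 := ncA h1 4 6 (by norm_num) (by first | (norm_num; done) | (simp only; linarith)) (by first | (norm_num; done) | (simp only; linarith)) (by first | (norm_num; done) | (simp only; linarith))
      (by first | (norm_num; done) | (simp only; linarith)) (ne_x (Or.inl (by first | (norm_num; done) | (simp only; linarith)))) (ne_x (Or.inl (by first | (norm_num; done) | (simp only; linarith))))
      (by simp only [hdiff]; linarith)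
    simp only [hdiff] at h3
    linarith
  have c7 : (16 + o 7) * (o 10 - 6) < (4 + o 9) * (o 10 - 4) := by
    have h1 := hn ((2, 7), (2, 10)) (by decide +kernel) ((0, 2), (2, 9)) (by decide +kernel) (by decide)
    simp only [prod_q2_7 lo ro o, prod_q2_10 lo ro o, prod_q0_2 lo ro o, prod_q2_9 lo ro o] at h1
    have hp : 0 ≤ (2 * (384 + lo 2) + 4 * (4 + o 9) - 6 * (16 + o 7)) * (o 10 - 4) := mul_nonneg (by linarith) (by linarith)
    have h3 := ncA h1 4 6 (by norm_num) (by first | (norm_num; done) | (simp only; linarith)) (by first | (norm_num; done) | (simp only; linarith)) (by first | (norm_num; done) | (simp only; linarith))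
      (by first | (norm_num; done) | (simp only; linarith)) (ne_x (Or.inr (by first | (norm_num; done) | (simp only; linarith)))) (ne_x (Or.inr (by first | (norm_num; done) | (simp only; linarith))))
      (by simp only [hdiff]; linarith)
    simp only [hdiff] at h3
    linarith
  have v6 : 0 < o 10 - 6 := by linarith
  have v4 : 0 < o 10 - 4 := by linarith
  have b1 : lo 0 < o 3 := by linarith
  have b2 : lo 1 < o 7 := by linarith
  have b3 : lo 2 + o 9 < 16 := by linarith
  have b4 : o 3 * (o 10 - 4) < 16 * (o 10 - 6) := by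
    have := mul_nonneg (show 0 ≤ 8 - o 11 by linarith) v6.le
    linarith
  have b6 : (16 + lo 1) * lo 0 ≤ (16 + o 7) * o 3 :=
    mul_le_mul (by linarith) b1.le l0a (by linarith)
  have b7 : (16 + o 7) * (o 3 * (o 10 - 4)) < (16 + o 7) * (16 * (o 10 - 6)) :=
    mul_lt_mul_of_pos_left b4 (by linarith)
  have b8 : (16 + o 7) * o 3 < 16 * (4 + o 9) := by
    by_contra hc
    rw [not_lt] at hc
    have := mul_le_mul_of_nonneg_right hc v4.le
    linarith
  linarith

end Pool.Agent.U788.SegW
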