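import Pool.Agent.U788.Seg.Sem2

/-!
# From a strict system to a diagram
-/

namespace Pool.Agent.U788.SegW

open Pool.Agent.K4H90.SegDraw (Lit SCon lval shold SHolds mid)

theorem idxOf_getElem_le' {α : Type} [BEq α] [LawfulBEq α] :
    ∀ {l : List α} {i : ℕ} (h : i < l.length),
    l.idxOf l[i] ≤ i
  | [], i, h => by simp at h
  | a :: l, 0, h => by simp
  | a :: l, i + 1, h => by
    have h' : i < l.length := by simpa using h
    rw [List.getElem_cons_succ, List.idxOf_cons]
    have := idxOf_getElem_le' h'
    cases (a == l[i])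
    · simp only [cond_false]
      omega
    · simp

/-! ### Sorting by adjacent swaps -/

/-- The effect of a list of swaps. -/
def appJ (J : List ℕ) (c : ℕ → ℕ) : ℕ → ℕ := J.foldl (fun c j => c ∘ Dat.sw j) c

theorem appJ_append (J J' : List ℕ) (c : ℕ → ℕ) : appJ (J ++ J') c = appJ J' (appJ J c) := by
  unfold appJ; rw [List.foldl_append]

theorem appJ_cons (j : ℕ) (J : List ℕ) (c : ℕ → ℕ) : appJ (j :: J) c = appJ J (c ∘ Dat.sw j) := rfl

theorem appJ_comp (J : List ℕ) (f c : ℕ → ℕ) : appJ J (f ∘ c) = f ∘ appJ J c := by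
  induction J generalizing c with
  | nil => rfl
  | cons j J ih => rw [appJ_cons, appJ_cons, Function.comp_assoc, ih]

/-- A list as a function. -/
def fn (l : List ℕ) (k : ℕ) : ℕ := l.getD k 0

theorem fn_swap (A : List ℕ) (a b : ℕ) (C : List ℕ) :
    fn (A ++ a :: b :: C) ∘ Dat.sw A.length = fn (A ++ b :: a :: C) := by
  funext k
  simp only [Function.comp, fn, Dat.sw, List.getD_eq_getElem?_getD]
  by_cases h1 : k = A.length
  · rw [if_pos h1, h1, List.getElem?_append_right (by omega), List.getElem?_append_right (by omega)]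
    simp
  · rw [if_neg h1]
    by_cases h2 : k = A.length + 1
    · rw [if_pos h2, h2, List.getElem?_append_right (by omega),
        List.getElem?_append_right (by omega)]
      simp
    · rw [if_neg h2]
      by_cases h3 : k < A.length
      · rw [List.getElem?_append_left h3, List.getElem?_append_left h3]
      · rw [List.getElem?_append_right (by omega), List.getElem?_append_right (by omega)]
        obtain ⟨m, hm⟩ : ∃ m, k - A.length = m + 2 := ⟨k - A.length - 2, by omega⟩
        rw [hm]
        rfl

/-- The swaps that bring the element at position `p + i` to position `p`. -/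
def downs (p i : ℕ) : List ℕ := ((List.range i).reverse).map fun q => p + q

theorem downs_succ (p i : ℕ) : downs p (i + 1) = (p + i) :: downs p i := by
  unfold downs
  rw [List.range_succ, List.reverse_append]
  rfl

theorem appJ_downs (A : List ℕ) : ∀ (i : ℕ) (B : List ℕ) (x : ℕ) (C : List ℕ), B.length = i →
    appJ (downs A.length i) (fn (A ++ B ++ x :: C)) = fn (A ++ x :: (B ++ C))
  | 0, B, x, C, h => by
    rw [List.length_eq_zero_iff] at h
    subst h
    simp [downs, appJ]
  | i + 1, B, x, C, h => by
    rcases List.eq_nil_or_concat B with rfl | ⟨B', b, rfl⟩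
    · simp at h
    · rw [List.concat_eq_append] at h ⊢
      rw [List.length_append] at h
      simp only [List.length_cons, List.length_nil, Nat.add_right_cancel_iff] at h
      rw [downs_succ, appJ_cons]
      have e1 : A ++ (B' ++ [b]) ++ x :: C = (A ++ B') ++ b :: x :: C := by simp
      have e2 : A.length + i = (A ++ B').length := by rw [List.length_append, h]
      rw [e1, e2, fn_swap]
      have e3 : A ++ B' ++ x :: b :: C = A ++ B' ++ x :: (b :: C) := rfl
      rw [e3, appJ_downs A i B' x (b :: C) h]
      simp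

/-- The position of `r` among the elements of `st` that are at least `r`. -/
def idx (st : List ℕ) (r : ℕ) : ℕ := (st.filter fun o => decide (r ≤ o)).idxOf r

/-- The list of swaps that sorts `st`. -/
def sortJ (st : List ℕ) (n : ℕ) : List ℕ := (List.range n).flatMap fun r => downs r (idx st r)

theorem filter_length {st : List ℕ} {n : ℕ} (h : st.Perm (List.range n)) {r : ℕ} (hr : r ≤ n) :
    (st.filter fun o => decide (r ≤ o)).length = n - r := by
  rw [(h.filter _).length_eq]
  clear h st
  induction n with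
  | zero => simp
  | succ n ih =>
    rw [List.range_succ, List.filter_append, List.length_append]
    rcases Nat.lt_or_ge n r with h1 | h1
    · have : r = n + 1 := by omega
      subst this
      have e : (List.range n).filter (fun o => decide (n + 1 ≤ o)) = [] := by
        rw [List.filter_eq_nil_iff]
        intro a ha
        rw [List.mem_range] at ha
        simp
        omega
      rw [e]
      simp
    · rw [ih h1]
      simp [h1]
      omega

theorem sort_step {st : List ℕ} {n : ℕ} (h : st.Perm (List.range n)) {r : ℕ} (hr : r < n) :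
    ∃ B C, (st.filter fun o => decide (r ≤ o)) = B ++ r :: C ∧ B.length = idx st r ∧
      (st.filter fun o => decide (r + 1 ≤ o)) = B ++ C := by
  have hmem : r ∈ st.filter fun o => decide (r ≤ o) := by
    rw [List.mem_filter]
    exact ⟨h.mem_iff.2 (List.mem_range.2 hr), by simp⟩
  obtain ⟨B, C, hBC, hB⟩ := List.eq_append_cons_of_mem hmem
  refine ⟨B, C, hBC, ?_, ?_⟩
  · unfold idx
    rw [hBC, List.idxOf_append_of_notMem hB, List.idxOf_cons_self, add_zero]
  · have e : (st.filter fun o => decide (r + 1 ≤ o)) =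
        (st.filter fun o => decide (r ≤ o)).filter fun o => decide (r + 1 ≤ o) := by
      rw [List.filter_filter]
      apply List.filter_congr
      intro x _
      rw [Bool.eq_iff_iff]
      simp
      omega
    have hnd : (B ++ r :: C).Nodup := by
      rw [← hBC]
      exact (h.nodup_iff.2 List.nodup_range).filter _
    have hge : ∀ x ∈ B ++ r :: C, r ≤ x := by
      intro x hx
      rw [← hBC, List.mem_filter] at hx
      simpa using hx.2
    rw [e, hBC, List.filter_append, List.filter_cons]
    have hnd' := List.nodup_append.1 hnd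
    have hC : r ∉ C := (List.nodup_cons.1 hnd'.2.1).1
    rw [if_neg (by simp)]
    congr 1
    · rw [List.filter_eq_self]
      intro x hx
      have h1 := hge x (List.mem_append_left _ hx)
      have h2 : x ≠ r := by rintro rfl; exact hB hx
      simp
      omega
    · rw [List.filter_eq_self]
      intro x hx
      have h1 := hge x (List.mem_append_right _ (List.mem_cons_of_mem _ hx))
      have h2 : x ≠ r := by rintro rfl; exact hC hx
      simp
      omega

theorem idx_lt {st : List ℕ} {n : ℕ} (h : st.Perm (List.range n)) {r : ℕ} (hr : r < n) :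
    r + idx st r < n := by
  obtain ⟨B, C, h1, h2, -⟩ := sort_step h hr
  have h3 := filter_length h hr.le
  rw [h1, List.length_append, List.length_cons] at h3
  omega

theorem sortJ_lt {st : List ℕ} {n : ℕ} (h : st.Perm (List.range n)) :
    ∀ j ∈ sortJ st n, j + 1 < n := by
  intro j hj
  unfold sortJ downs at hj
  simp only [List.mem_flatMap, List.mem_range, List.mem_map, List.mem_reverse] at hj
  obtain ⟨r, hr, q, hq, rfl⟩ := hj
  have := idx_lt h hr
  omega

theorem appJ_sort {st : List ℕ} {n : ℕ} (h : st.Perm (List.range n)) : ∀ m ≤ n,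
    appJ (sortJ st m) (fn st) = fn (List.range m ++ st.filter fun o => decide (m ≤ o)) := by
  intro m
  induction m with
  | zero =>
    intro _
    have e : (st.filter fun o => decide (0 ≤ o)) = st := by
      rw [List.filter_eq_self]
      intro a _
      simp
    rw [e]
    rfl
  | succ m ih =>
    intro hm
    have e : sortJ st (m + 1) = sortJ st m ++ downs m (idx st m) := by
      unfold sortJ
      rw [List.range_succ, List.flatMap_append]
      simp
    rw [e, appJ_append, ih (by omega)]
    obtain ⟨B, C, h1, h2, h3⟩ := sort_step h (show m < n by omega)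
    rw [h1, h3]
    have e2 : List.range m ++ (B ++ m :: C) = List.range m ++ B ++ m :: C := by simp
    have e3 := appJ_downs (List.range m) (idx st m) B m C h2
    rw [List.length_range] at e3
    rw [e2, e3, List.range_succ]
    simp

theorem appJ_sort' {st : List ℕ} {n : ℕ} (h : st.Perm (List.range n)) {k : ℕ} (hk : k < n) :
    appJ (sortJ st n) (fn st) k = k := by
  rw [appJ_sort h n le_rfl]
  have e : (st.filter fun o => decide (n ≤ o)) = [] := by
    rw [List.filter_eq_nil_iff]
    intro a ha
    have := List.mem_range.1 (h.mem_iff.1 ha)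
    simp
    omega
  rw [e, List.append_nil]
  unfold fn
  rw [List.getD_eq_getElem?_getD, List.getElem?_range hk]
  rfl

/-! ### Grouping -/

/-- The representative of an occurrence: the first occurrence of the same variable. -/
def rep (vs : List (ℕ × ℕ)) (o : ℕ) : ℕ := vs.idxOf (vs.getD o (0, 0))

theorem rep_spec {vs : List (ℕ × ℕ)} {o : ℕ} (ho : o < vs.length) :
    rep vs o ≤ o ∧ vs.getD (rep vs o) (0, 0) = vs.getD o (0, 0) := by
  have hm : vs.getD o (0, 0) ∈ vs := by
    rw [List.getD_eq_getElem _ _ ho]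
    exact List.getElem_mem ho
  have hlt : rep vs o < vs.length := List.idxOf_lt_length_iff.2 hm
  constructor
  · unfold rep
    rw [List.getD_eq_getElem _ _ ho]
    exact idxOf_getElem_le' ho
  · rw [List.getD_eq_getElem _ _ hlt]
    exact List.getElem_idxOf hlt

/-- The occurrences sorted by their representatives. -/
def st0 (vs : List (ℕ × ℕ)) : List ℕ :=
  (List.range vs.length).flatMap fun r =>
    (List.range vs.length).filter fun o => decide (rep vs o = r)

theorem st0_perm (vs : List (ℕ × ℕ)) : (st0 vs).Perm (List.range vs.length) := by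
  rw [List.perm_ext_iff_of_nodup ?_ List.nodup_range]
  · intro o
    unfold st0
    simp only [List.mem_flatMap, List.mem_range, List.mem_filter, decide_eq_true_eq]
    constructor
    · rintro ⟨r, _, h1, _⟩
      exact h1
    · intro h
      exact ⟨rep vs o, lt_of_le_of_lt (rep_spec h).1 h, h, rfl⟩
  · unfold st0
    rw [List.nodup_flatMap]
    refine ⟨fun r _ => List.nodup_range.filter _, ?_⟩
    refine List.Pairwise.imp ?_ List.pairwise_lt_range
    intro r r' hr x hx hy
    simp only [List.mem_filter, decide_eq_true_eq] at hx hy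
    omega

theorem st0_length (vs : List (ℕ × ℕ)) : (st0 vs).length = vs.length := by
  rw [(st0_perm vs).length_eq, List.length_range]

/-- The representatives along the tracks. -/
def reps (vs : List (ℕ × ℕ)) : List ℕ := (st0 vs).map (rep vs)

theorem reps_sorted (vs : List (ℕ × ℕ)) : (reps vs).Pairwise (· ≤ ·) := by
  unfold reps st0
  rw [List.pairwise_map, List.pairwise_flatMap]
  constructor
  · intro r _
    rw [List.pairwise_iff_getElem]
    intro i j hi hj _
    have h1 := List.getElem_mem hi
    have h2 := List.getElem_mem hj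
    simp only [List.mem_filter, decide_eq_true_eq] at h1 h2
    rw [h1.2, h2.2]
  · refine List.Pairwise.imp ?_ List.pairwise_lt_range
    intro r r' hr x hx y hy
    simp only [List.mem_filter, decide_eq_true_eq] at hx hy
    rw [hx.2, hy.2]
    exact hr.le

/-- The first track with the same representative. -/
def grpL (R : List ℕ) (k : ℕ) : ℕ := if k < R.length then R.idxOf (R.getD k 0) else k

theorem grpL_le (R : List ℕ) (k : ℕ) : grpL R k ≤ k := by
  unfold grpL
  split_ifs with h
  · rw [List.getD_eq_getElem _ _ h]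
    exact idxOf_getElem_le' h
  · exact le_rfl

theorem grpL_spec {R : List ℕ} {k : ℕ} (h : k < R.length) :
    grpL R k < R.length ∧ R.getD (grpL R k) 0 = R.getD k 0 := by
  have h1 := lt_of_le_of_lt (grpL_le R k) h
  refine ⟨h1, ?_⟩
  unfold grpL at h1 ⊢
  rw [if_pos h] at h1 ⊢
  rw [List.getD_eq_getElem _ _ h1]
  exact List.getElem_idxOf h1

theorem grpL_idem (R : List ℕ) (k : ℕ) : grpL R (grpL R k) = grpL R k := by
  by_cases h : k < R.length
  · obtain ⟨h1, h2⟩ := grpL_spec h
    have e1 : grpL R (grpL R k) = R.idxOf (R.getD (grpL R k) 0) := if_pos h1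
    rw [e1, h2]
    unfold grpL
    rw [if_pos h]
  · have : grpL R k = k := by unfold grpL; rw [if_neg h]
    rw [this, this]

theorem grpL_mono {R : List ℕ} (hR : R.Pairwise (· ≤ ·)) (k k' : ℕ) (h : k ≤ k') :
    grpL R k ≤ grpL R k' := by
  by_cases hk' : k' < R.length
  · have hk : k < R.length := by omega
    by_contra hc
    rw [not_le] at hc
    obtain ⟨h1, h2⟩ := grpL_spec hk
    obtain ⟨h3, h4⟩ := grpL_spec hk'
    -- grpL k' < grpL k ≤ k ≤ k'
    have h5 := grpL_le R k
    rw [List.pairwise_iff_getElem] at hR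
    have m1 : R.getD (grpL R k') 0 ≤ R.getD k 0 := by
      rw [List.getD_eq_getElem _ _ h3, List.getD_eq_getElem _ _ hk]
      exact hR _ _ h3 hk (by omega)
    have m2 : R.getD k 0 ≤ R.getD k' 0 := by
      rw [List.getD_eq_getElem _ _ hk, List.getD_eq_getElem _ _ hk']
      rcases h.eq_or_lt with h6 | h6
      · simp [h6]
      · exact hR _ _ hk hk' h6
    have m3 : R.getD k 0 = R.getD k' 0 := by rw [h4] at m1; exact le_antisymm m2 m1
    have : grpL R k = grpL R k' := by
      unfold grpL
      rw [if_pos hk, if_pos hk', m3]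
    omega
  · have e : grpL R k' = k' := by unfold grpL; rw [if_neg hk']
    rw [e]
    exact (grpL_le R k).trans h

/-! ### The diagram of a strict system -/

/-- The literals of a system, in the order of the tracks of the tests. -/
def litsOf (cs : List SCon) : List Lit := cs.flatMap fun c => [c.2.1, c.2.2.1, c.2.2.2]

/-- The source of a literal: the two constants `(0, 0)` and `(0, 1)` have two sources each, one for
every sign. -/
def lvar (l : Lit) : ℕ × ℕ :=
  (2 * l.1.1 + (if l.2 = false ∧ (l.1 = (0, 0) ∨ l.1 = (0, 1)) then 1 else 0), l.1.2)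

/-- The value of a literal, the values of the sources being given. -/
noncomputable def lval' (v : ℕ × ℕ → ℝ) (l : Lit) : ℝ :=
  if l.2 = true then v (lvar l) else 1 - v (lvar l)

/-- Validity of a constraint, the values of the sources being given. -/
def SHolds' (v : ℕ × ℕ → ℝ) (c : SCon) : Prop :=
  shold c.1 (lval' v c.2.1) (lval' v c.2.2.1) (lval' v c.2.2.2)

/-- The variables of the occurrences. -/
def varsOf (cs : List SCon) : List (ℕ × ℕ) := (litsOf cs).map lvar

theorem litsOf_length (cs : List SCon) : (litsOf cs).length = 3 * cs.length := by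
  unfold litsOf
  induction cs with
  | nil => rfl
  | cons c cs ih =>
    rw [List.flatMap_cons, List.length_append, ih]
    simp only [List.length_cons, List.length_nil]
    omega

theorem litsOf_get (cs : List SCon) : ∀ (τ : ℕ) (c : SCon), cs[τ]? = some c →
    (litsOf cs)[3 * τ]? = some c.2.1 ∧ (litsOf cs)[3 * τ + 1]? = some c.2.2.1 ∧
      (litsOf cs)[3 * τ + 2]? = some c.2.2.2 := by
  induction cs with
  | nil => intro τ c h; simp at h
  | cons c' cs ih =>
    intro τ c h
    have e : litsOf (c' :: cs) = c'.2.1 :: c'.2.2.1 :: c'.2.2.2 :: litsOf cs := rfl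
    cases τ with
    | zero =>
      simp at h
      subst h
      rw [e]
      simp
    | succ τ =>
      have h' : cs[τ]? = some c := by simpa using h
      have := ih τ c h'
      rw [e, show 3 * (τ + 1) = 3 * τ + 3 by ring]
      simpa using this

/-- The kind of the source of a variable. -/
def kindOf (x : ℕ × ℕ) : ℕ :=
  if x = (0, 0) then 6 else if x = (0, 1) then 7 else if x = (1, 0) then 1 else
  if x = (1, 1) then 3 else 0

/-- The data of the diagram of a strict system. -/
def datOf (cs : List SCon) : Dat where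
  T := cs.length
  ks := fun τ => ((cs[τ]?).map fun c => c.1).getD false
  L := (sortJ (st0 (varsOf cs)) (3 * cs.length)).length
  J := fun i => (sortJ (st0 (varsOf cs)) (3 * cs.length)).getD i 0
  sgn := fun k => ((litsOf cs).getD ((st0 (varsOf cs)).getD k 0) ((0, 0), true)).2
  grp := grpL (reps (varsOf cs))
  sk := fun k => if k < 3 * cs.length then
    kindOf ((varsOf cs).getD ((st0 (varsOf cs)).getD k 0) (0, 0)) else 0

theorem varsOf_length (cs : List SCon) : (varsOf cs).length = 3 * cs.length := by
  unfold varsOf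
  rw [List.length_map, litsOf_length]

theorem varsOf_getD (cs : List SCon) (k : ℕ) :
    (varsOf cs).getD k (0, 0) = lvar ((litsOf cs).getD k ((0, 0), true)) := by
  unfold varsOf
  rw [List.getD_eq_getElem?_getD, List.getD_eq_getElem?_getD, List.getElem?_map]
  cases (litsOf cs)[k]? <;> rfl

theorem datOf_ok {cs : List SCon} (h : cs ≠ []) : (datOf cs).OK where
  hT := List.length_pos_of_ne_nil h
  hJ := by
    intro i hi
    have hp := st0_perm (varsOf cs)
    rw [varsOf_length] at hp
    have hi' : i < (sortJ (st0 (varsOf cs)) (3 * cs.length)).length := hi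
    have e : (datOf cs).J i = (sortJ (st0 (varsOf cs)) (3 * cs.length))[i] :=
      List.getD_eq_getElem _ _ hi'
    rw [e]
    exact sortJ_lt hp _ (List.getElem_mem hi')
  g1 := grpL_le _
  g2 := grpL_idem _
  g3 := grpL_mono (reps_sorted _)
  hs := by
    intro k
    simp only [datOf]
    split_ifs
    · unfold kindOf
      split_ifs <;> simp
    · exact Or.inl rfl

theorem tr_eq (d : Dat) (J : List ℕ) (hJ : ∀ i, d.J i = J.getD i 0) :
    ∀ i ≤ J.length, ∀ k, d.tr i k = appJ (J.take i) id k := by
  intro i
  induction i with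
  | zero => intro _ k; simp [Dat.tr, appJ]
  | succ i ih =>
    intro hi k
    have hi' : i < J.length := by omega
    simp only [Dat.tr]
    rw [ih (by omega), List.take_succ_eq_append_getElem hi', appJ_append, hJ,
      List.getD_eq_getElem _ _ hi']
    rfl

theorem tr_last (cs : List SCon) {k : ℕ} (hk : k < 3 * cs.length) :
    (st0 (varsOf cs)).getD ((datOf cs).tr (datOf cs).L k) 0 = k := by
  have hp := st0_perm (varsOf cs)
  rw [varsOf_length] at hp
  have e := tr_eq (datOf cs) (sortJ (st0 (varsOf cs)) (3 * cs.length)) (fun i => rfl)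
    (datOf cs).L le_rfl k
  rw [e]
  have e2 : (sortJ (st0 (varsOf cs)) (3 * cs.length)).take (datOf cs).L =
    sortJ (st0 (varsOf cs)) (3 * cs.length) := List.take_length
  rw [e2]
  have e3 := appJ_comp (sortJ (st0 (varsOf cs)) (3 * cs.length)) (fn (st0 (varsOf cs))) id
  have e4 := congrFun e3 k
  simp only [Function.comp] at e4
  rw [show (fn (st0 (varsOf cs)) ∘ id) = fn (st0 (varsOf cs)) from rfl, appJ_sort' hp hk] at e4
  exact e4.symm

/-- The variable of a track. -/
def tvar (cs : List SCon) (k : ℕ) : ℕ × ℕ := (varsOf cs).getD ((st0 (varsOf cs)).getD k 0) (0, 0)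

theorem st0_getD_lt (cs : List SCon) {k : ℕ} (hk : k < 3 * cs.length) :
    (st0 (varsOf cs)).getD k 0 < 3 * cs.length := by
  have hl : k < (st0 (varsOf cs)).length := by rw [st0_length, varsOf_length]; exact hk
  have h1 : (st0 (varsOf cs)).getD k 0 ∈ st0 (varsOf cs) := by
    rw [List.getD_eq_getElem _ _ hl]
    exact List.getElem_mem hl
  have := (st0_perm (varsOf cs)).mem_iff.1 h1
  rwa [List.mem_range, varsOf_length] at this

theorem reps_getD (cs : List SCon) {k : ℕ} (hk : k < 3 * cs.length) :
    (reps (varsOf cs)).getD k 0 = (varsOf cs).idxOf (tvar cs k) := by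
  have hl : k < (st0 (varsOf cs)).length := by rw [st0_length, varsOf_length]; exact hk
  unfold reps tvar
  rw [List.getD_eq_getElem _ _ (by rw [List.length_map]; exact hl), List.getElem_map,
    List.getD_eq_getElem _ _ hl]
  rfl

/-- Tracks of the same group have the same variable. -/
theorem tvar_grp (cs : List SCon) {k : ℕ} (hk : k < 3 * cs.length) :
    (datOf cs).grp k < 3 * cs.length ∧ tvar cs ((datOf cs).grp k) = tvar cs k := by
  have hlen : (reps (varsOf cs)).length = 3 * cs.length := by
    unfold reps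
    rw [List.length_map, st0_length, varsOf_length]
  obtain ⟨h1, h2⟩ := grpL_spec (R := reps (varsOf cs)) (k := k) (by rw [hlen]; exact hk)
  rw [hlen] at h1
  refine ⟨h1, ?_⟩
  rw [reps_getD cs h1, reps_getD cs hk] at h2
  have key : ∀ k < 3 * cs.length, (varsOf cs).getD ((varsOf cs).idxOf (tvar cs k)) (0, 0) =
      tvar cs k := by
    intro k hk
    have := (rep_spec (vs := varsOf cs) (o := (st0 (varsOf cs)).getD k 0)
      (by rw [varsOf_length]; exact st0_getD_lt cs hk)).2
    exact this
  have e1 := key _ h1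
  have e2 := key _ hk
  rw [h2] at e1
  exact e1.symm.trans e2

/-- Tracks with the same variable are in the same group. -/
theorem grp_of_tvar (cs : List SCon) {k k' : ℕ} (hk : k < 3 * cs.length) (hk' : k' < 3 * cs.length)
    (h : tvar cs k = tvar cs k') : (datOf cs).grp k = (datOf cs).grp k' := by
  have hlen : (reps (varsOf cs)).length = 3 * cs.length := by
    unfold reps
    rw [List.length_map, st0_length, varsOf_length]
  have e1 := reps_getD cs hk
  have e2 := reps_getD cs hk'
  rw [h, ← e2] at e1
  change grpL (reps (varsOf cs)) k = grpL (reps (varsOf cs)) k'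
  unfold grpL
  rw [if_pos (by rw [hlen]; exact hk), if_pos (by rw [hlen]; exact hk'), e1]

/-- The literal of the final track. -/
theorem lit_final (cs : List SCon) {v : ℕ × ℕ → ℝ} {s : ℕ → ℝ}
    (hs : ∀ k < 3 * cs.length, s ((datOf cs).grp k) = v (tvar cs k)) {k : ℕ}
    (hk : k < 3 * cs.length) {l : Lit} (hl : (litsOf cs)[k]? = some l) (h0 : cs ≠ []) :
    (datOf cs).lit s ((datOf cs).tr (datOf cs).L k) = lval' v l := by
  have h1 := tr_last cs hk
  have h2 : (datOf cs).tr (datOf cs).L k < 3 * cs.length :=
    Dat.tr_lt (datOf_ok h0) _ le_rfl k hk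
  have e1 : tvar cs ((datOf cs).tr (datOf cs).L k) = lvar l := by
    unfold tvar
    rw [h1, varsOf_getD, List.getD_eq_getElem?_getD, hl]
    rfl
  have e2 : (datOf cs).sgn ((datOf cs).tr (datOf cs).L k) = l.2 := by
    simp only [datOf] at h1 ⊢
    rw [h1, List.getD_eq_getElem?_getD, hl]
    rfl
  unfold Dat.lit lval'
  rw [e2, hs _ h2, e1]

theorem tests_iff (cs : List SCon) (h0 : cs ≠ []) {v : ℕ × ℕ → ℝ} {s : ℕ → ℝ}
    (hs : ∀ k < 3 * cs.length, s ((datOf cs).grp k) = v (tvar cs k)) :
    (datOf cs).Tests s ↔ ∀ c ∈ cs, SHolds' v c := by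
  have key : ∀ τ c, cs[τ]? = some c → (shold ((datOf cs).ks τ)
      ((datOf cs).lit s ((datOf cs).tr (datOf cs).L (3 * τ)))
      ((datOf cs).lit s ((datOf cs).tr (datOf cs).L (3 * τ + 1)))
      ((datOf cs).lit s ((datOf cs).tr (datOf cs).L (3 * τ + 2))) ↔ SHolds' v c) := by
    intro τ c hc
    have hτ := (List.getElem?_eq_some_iff.1 hc).1
    obtain ⟨l0, l1, l2⟩ := litsOf_get cs τ c hc
    rw [lit_final cs hs (by omega) l0 h0, lit_final cs hs (by omega) l1 h0,
      lit_final cs hs (by omega) l2 h0]
    have e : (datOf cs).ks τ = c.1 := by simp [datOf, hc]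
    rw [e]
    rfl
  constructor
  · intro hT c hc
    obtain ⟨τ, hτ⟩ := List.mem_iff_getElem?.1 hc
    rw [← key τ c hτ]
    exact hT τ (List.getElem?_eq_some_iff.1 hτ).1
  · intro hc τ hτ
    have hτ' : τ < cs.length := hτ
    exact (key τ _ (List.getElem?_eq_getElem hτ')).2 (hc _ (List.getElem_mem hτ'))

/-- The values of the sources, for given values of the variables; the constants are moved by `ε`. -/
noncomputable def vE (v : ℕ × ℕ → ℝ) (ε : ℝ) (y : ℕ × ℕ) : ℝ :=
  if y = (0, 0) then 1 / 2 + ε else if y = (0, 1) then 9 / 16 + ε else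
  if y = (1, 0) then 1 / 2 - ε else if y = (1, 1) then 9 / 16 - ε else v (y.1 / 2, y.2)

theorem lvar_false {a : Bool} {x : ℕ × ℕ} (h0 : x ≠ (0, 0)) (h1 : x ≠ (0, 1)) :
    lvar (x, a) = (2 * x.1, x.2) := by
  unfold lvar
  simp only
  rw [if_neg (by tauto), add_zero]

theorem lvar_const {a : Bool} {j : ℕ} (hj : j = 0 ∨ j = 1) :
    lvar ((0, j), a) = (if a = true then 0 else 1, j) := by
  unfold lvar
  rcases hj with rfl | rfl <;> cases a <;> simp

theorem vE_other (v : ℕ × ℕ → ℝ) (ε : ℝ) {x : ℕ × ℕ} (h0 : x ≠ (0, 0)) (h1 : x ≠ (0, 1)) :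
    vE v ε (2 * x.1, x.2) = v x := by
  obtain ⟨a, b⟩ := x
  simp only [ne_eq, Prod.mk.injEq, not_and] at h0 h1
  unfold vE
  simp only [Prod.mk.injEq]
  rw [if_neg (fun h => h0 (by omega) h.2), if_neg (fun h => h1 (by omega) h.2),
    if_neg (fun h => by omega), if_neg (fun h => by omega)]
  congr 2
  omega

theorem lval_vE {v : ℕ × ℕ → ℝ} (hh : v (0, 0) = 1 / 2) (hk : v (0, 1) = 9 / 16) {ε : ℝ}
    (hε : 0 ≤ ε) (l : Lit) : lval v l ≤ lval' (vE v ε) l ∧ lval' (vE v ε) l ≤ lval v l + ε := by
  obtain ⟨x, a⟩ := l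
  by_cases h0 : x = (0, 0)
  · subst h0
    unfold lval lval'
    rw [lvar_const (Or.inl rfl)]
    cases a
    · simp only [Bool.false_eq_true, if_false, hh]
      have : vE v ε (1, 0) = 1 / 2 - ε := by simp [vE]
      rw [this]
      constructor <;> linarith
    · simp only [if_true, hh]
      have : vE v ε (0, 0) = 1 / 2 + ε := by simp [vE]
      rw [this]
      constructor <;> linarith
  · by_cases h1 : x = (0, 1)
    · subst h1
      unfold lval lval'
      rw [lvar_const (Or.inr rfl)]
      cases a
      · simp only [Bool.false_eq_true, if_false, hk]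
        have : vE v ε (1, 1) = 9 / 16 - ε := by simp [vE]
        rw [this]
        constructor <;> linarith
      · simp only [if_true, hk]
        have : vE v ε (0, 1) = 9 / 16 + ε := by simp [vE]
        rw [this]
        constructor <;> linarith
    · unfold lval lval'
      rw [lvar_false h0 h1]
      simp only
      rw [vE_other v ε h0 h1]
      split_ifs <;> constructor <;> linarith

/-- The product tests have a first argument near `1/2`. -/
def mid' (v : ℕ × ℕ → ℝ) (c : SCon) : Prop :=
  c.1 = true → 2 / 5 < lval' v c.2.1 ∧ lval' v c.2.1 < 3 / 5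

theorem list_eps {α : Type} {P : ℝ → α → Prop} : ∀ (cs : List α),
    (∀ c ∈ cs, ∃ e : ℝ, 0 < e ∧ ∀ ε, 0 < ε → ε ≤ e → P ε c) →
    ∃ e : ℝ, 0 < e ∧ ∀ ε, 0 < ε → ε ≤ e → ∀ c ∈ cs, P ε c
  | [], _ => ⟨1, one_pos, fun _ _ _ c hc => by simp at hc⟩
  | c :: cs, h => by
    obtain ⟨e1, he1, h1⟩ := h c (by simp)
    obtain ⟨e2, he2, h2⟩ := list_eps cs fun c' hc' => h c' (by simp [hc'])
    refine ⟨min e1 e2, lt_min he1 he2, fun ε h3 h4 c' hc' => ?_⟩
    rcases List.mem_cons.1 hc' with rfl | hc'
    · exact h1 ε h3 (h4.trans (min_le_left _ _))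
    · exact h2 ε h3 (h4.trans (min_le_right _ _)) c' hc'

theorem eps_of {v : ℕ × ℕ → ℝ} (hv : ∀ x, 0 < v x ∧ v x < 1) (hh : v (0, 0) = 1 / 2)
    (hk : v (0, 1) = 9 / 16) {c : SCon} (hc : SHolds v c ∧ mid v c) :
    ∃ e : ℝ, 0 < e ∧ ∀ ε, 0 < ε → ε ≤ e → SHolds' (vE v ε) c ∧ mid' (vE v ε) c := by
  have hl : ∀ l, 0 < lval v l ∧ lval v l < 1 := by
    intro l
    unfold lval
    have := hv l.1
    split_ifs <;> constructor <;> linarith
  obtain ⟨k, x, y, z⟩ := c
  obtain ⟨h1, h2⟩ := hc
  have lx := hl x
  have ly := hl y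
  have lz := hl z
  unfold SHolds shold at h1
  unfold mid at h2
  unfold SHolds' mid' shold
  simp only at h1 h2 ⊢
  cases k
  · simp only [Bool.false_eq_true, if_false] at h1 h2 ⊢
    refine ⟨(2 - (lval v x + lval v z + 2 * lval v y)) / 10, by linarith, fun ε h3 h4 => ⟨?_, ?_⟩⟩
    · have a1 := (lval_vE hh hk h3.le x).2
      have a2 := (lval_vE hh hk h3.le y).2
      have a3 := (lval_vE hh hk h3.le z).2
      linarith
    · intro h; exact h.elim
  · simp only [if_true, forall_const] at h1 h2 ⊢
    refine ⟨min ((5 / 4 - ((1 + lval v y) * lval v x + lval v z)) / 10)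
      (min ((3 / 5 - lval v x) / 2) 1), lt_min (by linarith) (lt_min (by linarith) one_pos),
      fun ε h3 h4 => ?_⟩
    have b1 := h4.trans (min_le_left _ _)
    have b2 := (h4.trans (min_le_right _ _)).trans (min_le_left _ _)
    have b3 := (h4.trans (min_le_right _ _)).trans (min_le_right _ _)
    have a1 := lval_vE hh hk h3.le x
    have a2 := lval_vE hh hk h3.le y
    have a3 := lval_vE hh hk h3.le z
    refine ⟨?_, by linarith, by linarith⟩
    have m1 : (1 + lval' (vE v ε) y) * lval' (vE v ε) x ≤
        (1 + (lval v y + ε)) * (lval v x + ε) :=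
      mul_le_mul (by linarith) a1.2 (by linarith) (by linarith)
    have m2 : ε * lval v x ≤ ε * 1 := mul_le_mul_of_nonneg_left lx.2.le h3.le
    have m3 : lval v y * ε ≤ 1 * ε := mul_le_mul_of_nonneg_right ly.2.le h3.le
    have m4 : ε * ε ≤ ε * 1 := mul_le_mul_of_nonneg_left b3 h3.le
    linarith

theorem kind_vE {v : ℕ × ℕ → ℝ} (hv : ∀ x, 0 < v x ∧ v x < 1) {ε : ℝ} (h0 : 0 < ε)
    (h1 : ε ≤ 1 / 4) (y : ℕ × ℕ) :
    (klo (kindOf y) : ℝ) - 16 < 16 * vE v ε y ∧ 16 * vE v ε y < (khi (kindOf y) : ℝ) - 16 := by
  have h2 := hv (y.1 / 2, y.2)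
  unfold vE kindOf
  split_ifs <;> norm_num [klo, khi] <;> constructor <;> linarith

theorem vE_bd {v : ℕ × ℕ → ℝ} (hv : ∀ x, 0 < v x ∧ v x < 1) {ε : ℝ} (h0 : 0 < ε)
    (h1 : ε ≤ 1 / 4) (y : ℕ × ℕ) : 0 < vE v ε y ∧ vE v ε y < 1 := by
  have h2 := hv (y.1 / 2, y.2)
  unfold vE
  split_ifs <;> constructor <;> linarith

theorem sk_eq (cs : List SCon) (k : ℕ) : (datOf cs).sk k =
    if k < 3 * cs.length then kindOf (tvar cs k) else 0 := rfl

theorem solvable_of (cs : List SCon) (h0 : cs ≠ []) {v : ℕ × ℕ → ℝ}
    (hv : ∀ x, 0 < v x ∧ v x < 1) (hh : v (0, 0) = 1 / 2) (hk : v (0, 1) = 9 / 16)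
    (hc : ∀ c ∈ cs, SHolds v c ∧ mid v c) (cl : Bool) :
    ((datOf cs).dia.inst cl).Solvable := by
  obtain ⟨e, he, hE⟩ := list_eps cs (P := fun ε c => SHolds' (vE v ε) c ∧ mid' (vE v ε) c)
    fun c hc' => eps_of hv hh hk (hc c hc')
  set ε := min e (1 / 4) with hε
  have e0 : 0 < ε := lt_min he (by norm_num)
  have e1 : ε ≤ 1 / 4 := min_le_right _ _
  have hE' := hE ε e0 (min_le_left _ _)
  set s : ℕ → ℝ := fun k => vE v ε (tvar cs k) with hs
  have hs' : ∀ k < 3 * cs.length, s ((datOf cs).grp k) = vE v ε (tvar cs k) := fun k hk => by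
    rw [hs]
    simp only
    rw [(tvar_grp cs hk).2]
  refine Dat.complete (datOf_ok h0) (s := s) (fun k => vE_bd hv e0 e1 _) ?_
    ((tests_iff cs h0 hs').2 fun c h => (hE' c h).1) ?_ cl
  · intro k
    rw [sk_eq]
    split_ifs with h1
    · exact kind_vE hv e0 e1 _
    · have := vE_bd hv e0 e1 (tvar cs k)
      rw [show klo 0 = 16 by decide, show khi 0 = 32 by decide, hs]
      push_cast
      constructor <;> linarith
  · intro τ hτ hkτ
    have hτ' : τ < cs.length := hτ
    obtain ⟨l0, l1, l2⟩ := litsOf_get cs τ _ (List.getElem?_eq_getElem hτ')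
    rw [lit_final cs hs' (by omega) l0 h0]
    refine (hE' _ (List.getElem_mem hτ')).2 ?_
    have e : (datOf cs).ks τ = (cs[τ]).1 := by simp [datOf, hτ']
    rw [← e]
    exact hkτ

theorem shold_mono {k : Bool} {x y z x' y' z' : ℝ} (h : shold k x y z) (hx : x' ≤ x)
    (hy : y' ≤ y) (hz : z' ≤ z) (hx0 : 0 ≤ x') (hy0 : 0 ≤ y') : shold k x' y' z' := by
  unfold shold at h ⊢
  cases k
  · simp only [Bool.false_eq_true, if_false] at h ⊢
    linarith
  · simp only [if_true] at h ⊢
    have := mul_le_mul (show 1 + y' ≤ 1 + y by linarith) hx hx0 (by linarith)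
    linarith

theorem of_solvable (cs : List SCon) (h0 : cs ≠ []) {cl : Bool}
    (h : ((datOf cs).dia.inst cl).Solvable) :
    ∃ v : ℕ × ℕ → ℝ, (∀ x, 0 ≤ v x ∧ v x ≤ 1) ∧ v (0, 0) = 1 / 2 ∧ v (0, 1) = 9 / 16 ∧
      ∀ c ∈ cs, SHolds v c := by
  classical
  obtain ⟨s, hs, h1, hT⟩ := Dat.sound (datOf_ok h0) h
  set u : ℕ × ℕ → ℝ := fun x => if hx : ∃ k, k < 3 * cs.length ∧ tvar cs k = x then
    s ((datOf cs).grp hx.choose) else if x.2 = 1 then 9 / 16 else 1 / 2 with hu
  have huk : ∀ k < 3 * cs.length, u (tvar cs k) = s ((datOf cs).grp k) := by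
    intro k hk
    have hx : ∃ k', k' < 3 * cs.length ∧ tvar cs k' = tvar cs k := ⟨k, hk, rfl⟩
    rw [hu]
    simp only
    rw [dif_pos hx]
    rw [grp_of_tvar cs hx.choose_spec.1 hk hx.choose_spec.2]
  have hu01 : ∀ x, 0 ≤ u x ∧ u x ≤ 1 := by
    intro x
    rw [hu]
    simp only
    split_ifs
    · exact hs _
    · norm_num
    · norm_num
  have hkind : ∀ x, ((klo (kindOf x) : ℝ) - 16 ≤ 16 * u x ∧ 16 * u x ≤ (khi (kindOf x) : ℝ) - 16) ∨
      u x = if x.2 = 1 then 9 / 16 else 1 / 2 := by
    intro x
    by_cases hx : ∃ k, k < 3 * cs.length ∧ tvar cs k = x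
    · left
      obtain ⟨k, hk, hx⟩ := hx
      obtain ⟨g1, g2⟩ := tvar_grp cs hk
      have := h1 _ g1 (grpL_idem _ _)
      rw [sk_eq, if_pos g1, g2, hx] at this
      rw [← hx, huk k hk, hx]
      exact this
    · right
      rw [hu]
      simp only
      rw [dif_neg hx]
  have hTu := (tests_iff cs h0 fun k hk => (huk k hk).symm).1 hT
  set v : ℕ × ℕ → ℝ := fun x => if x = (0, 0) then 1 / 2 else if x = (0, 1) then 9 / 16 else
    u (2 * x.1, x.2) with hv
  have hv01 : ∀ x, 0 ≤ v x ∧ v x ≤ 1 := by
    intro x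
    rw [hv]
    simp only
    split_ifs
    · norm_num
    · norm_num
    · exact hu01 _
  have hle : ∀ l, lval v l ≤ lval' u l := by
    rintro ⟨x, a⟩
    by_cases hx0 : x = (0, 0)
    · subst hx0
      unfold lval lval'
      rw [lvar_const (Or.inl rfl)]
      have hv0 : v (0, 0) = 1 / 2 := by rw [hv]; simp
      cases a
      · simp only [Bool.false_eq_true, if_false, hv0]
        have := hkind (1, 0)
        norm_num [kindOf, klo, khi] at this
        rcases this with h5 | h5 <;> linarith
      · simp only [if_true, hv0]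
        have := hkind (0, 0)
        norm_num [kindOf, klo, khi] at this
        rcases this with h5 | h5 <;> linarith
    · by_cases hx1 : x = (0, 1)
      · subst hx1
        unfold lval lval'
        rw [lvar_const (Or.inr rfl)]
        have hv0 : v (0, 1) = 9 / 16 := by rw [hv]; simp
        cases a
        · simp only [Bool.false_eq_true, if_false, hv0]
          have := hkind (1, 1)
          norm_num [kindOf, klo, khi] at this
          rcases this with h5 | h5 <;> linarith
        · simp only [if_true, hv0]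
          have := hkind (0, 1)
          norm_num [kindOf, klo, khi] at this
          rcases this with h5 | h5 <;> linarith
      · unfold lval lval'
        rw [lvar_false hx0 hx1]
        have hvx : v x = u (2 * x.1, x.2) := by
          rw [hv]
          simp only
          rw [if_neg hx0, if_neg hx1]
        simp only
        rw [hvx]
  have hl0 : ∀ l, 0 ≤ lval v l := by
    intro l
    unfold lval
    have := hv01 l.1
    split_ifs <;> linarith
  refine ⟨v, hv01, by rw [hv]; simp, by rw [hv]; simp, fun c hc => ?_⟩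
  exact shold_mono (hTu c hc) (hle _) (hle _) (hle _) (hl0 _) (hl0 _)

end Pool.Agent.U788.SegW
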