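import Pool.Agent.U788.Seg.PolyA

/-!
# The reduction is computable in polynomial time, part 2: the instance
-/

namespace Pool.Agent.NPC.U788Seg

open Pool.Agent.NPC.ER Pool.Agent.U788.SegW
open Pool.Agent.K4H90.SegDraw (Lit SCon strict)

section

variable {α : Type} [TEnc α]

theorem poly_natRat {n : α → ℕ} (hn : Poly n) : Poly (fun a => ((n a : ℕ) : ℚ)) := by
  have h : Poly (fun a => (((false, n a), 1) : (Bool × ℕ) × ℕ)) :=
    Poly.pair (Poly.pair (Poly.const false) hn) (Poly.const 1)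
  refine Poly.of_toT (h.toT'.congr fun a => ?_)
  have e : toT ((n a : ℕ) : ℚ) = toT (((n a : ℕ) : ℚ).num, ((n a : ℕ) : ℚ).den) := rfl
  rw [e, Rat.num_natCast, Rat.den_natCast]
  have e2 : toT (((n a : ℕ) : ℤ), 1) =
    toT (((decide (((n a : ℕ) : ℤ) < 0), ((n a : ℕ) : ℤ).natAbs), 1) : (Bool × ℕ) × ℕ) := rfl
  rw [e2]
  congr 1

theorem poly_seg {p q : α → ℚ × ℚ} {c : α → Bool} (hp : Poly p) (hq : Poly q) (hc : Poly c) :
    Poly (fun a => (⟨p a, q a, c a⟩ : Seg)) :=
  Poly.of_toT ((Poly.pair hp (Poly.pair hq hc)).toT')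

theorem poly_klo {k : α → ℕ} (hk : Poly k) : Poly (fun a => klo (k a)) := by
  unfold klo
  exact Poly.ite (Poly.decide_eq hk (Poly.const 4)) (Poly.const _)
    (Poly.ite (Poly.decide_eq hk (Poly.const 5)) (Poly.const _)
    (Poly.ite (Poly.decide_eq hk (Poly.const 6)) (Poly.const _)
    (Poly.ite (Poly.decide_eq hk (Poly.const 7)) (Poly.const _) (Poly.const _))))

theorem poly_khi {k : α → ℕ} (hk : Poly k) : Poly (fun a => khi (k a)) := by
  unfold khi
  exact Poly.ite (Poly.decide_eq hk (Poly.const 1)) (Poly.const _)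
    (Poly.ite (Poly.decide_eq hk (Poly.const 3)) (Poly.const _)
    (Poly.ite (Poly.decide_eq hk (Poly.const 4)) (Poly.const _)
    (Poly.ite (Poly.decide_eq hk (Poly.const 5)) (Poly.const _) (Poly.const _))))

theorem poly_mkSeg {c : Bool} {X Y k : α → ℕ} (hX : Poly X) (hY : Poly Y) (hk : Poly k) :
    Poly (fun a => mkSeg c (X a) (Y a) (k a)) := by
  unfold mkSeg
  have hcl : Poly (fun _ : α => c) := Poly.const c
  have x := poly_natRat hX
  have y16 := poly_natRat (Poly.add hY (Poly.const 16))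
  have x3 := poly_natRat (Poly.add hX (Poly.const 3))
  have yl := poly_natRat (Poly.add hY (poly_klo hk))
  have yh := poly_natRat (Poly.add hY (poly_khi hk))
  exact Poly.ite (Poly.decide_eq hk (Poly.const 2))
    (poly_seg (Poly.pair x y16) (Poly.pair x3 y16) hcl)
    (poly_seg (Poly.pair x yl) (Poly.pair x yh) hcl)

theorem poly_pairNat {m n : α → ℕ} (hm : Poly m) (hn : Poly n) :
    Poly (fun a => Nat.pair (m a) (n a)) := by
  unfold Nat.pair
  exact Poly.ite (Poly.decide_lt hm hn) (Poly.add (Poly.mul hn hn) hm)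
    (Poly.add (Poly.add (Poly.mul hm hm) hm) hn)

theorem poly_nm {c l k : α → ℕ} (hc : Poly c) (hl : Poly l) (hk : Poly k) :
    Poly (fun a => nm (c a) (l a) (k a)) := poly_pairNat hc (poly_pairNat hl hk)

theorem poly_getDnil {β : Type} [TEnc β] {l : α → List (List β)} {n : α → ℕ} (hl : Poly l)
    (hn : Poly n) : Poly (fun a => ((l a)[n a]?).getD []) :=
  (Poly.optCases (Poly.getElem? hl hn) (Poly.const []) (h := fun _ b => b)
    (Poly.snd Poly.id)).congr fun a => by cases (l a)[n a]? <;> rfl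

theorem poly_rl {g : α → Gadget} {r : α → Ref} (hg : Poly g) (hr : Poly r) :
    Poly (fun a => rl (g a) (r a)) := by
  unfold rl
  refine Poly.ite (Poly.decide_eq (Poly.fst hr) (Poly.const 0))
    (poly_getDnil (Poly.fst (Poly.snd hg)) (Poly.snd hr)) ?_
  refine Poly.ite (Poly.decide_eq (Poly.fst hr) (Poly.const 2)) ?_ (Poly.const [])
  refine (Poly.optCases (Poly.getElem? (Poly.fst hg) (Poly.snd hr)) (Poly.const [])
    (h := fun _ (w : Row) => w.2.2.2.2) ?_).congr fun a => ?_
  · exact Poly.snd (Poly.snd (Poly.snd (Poly.snd (Poly.snd Poly.id))))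
  · cases (g a).1[(r a).2]? <;> rfl

theorem poly_ll {g : α → Gadget} {r : α → Ref} (hg : Poly g) (hr : Poly r) :
    Poly (fun a => ll (g a) (r a)) := by
  unfold ll
  refine Poly.ite (Poly.decide_eq (Poly.fst hr) (Poly.const 1))
    (poly_getDnil (Poly.snd (Poly.snd hg)) (Poly.snd hr)) ?_
  refine Poly.ite (Poly.decide_eq (Poly.fst hr) (Poly.const 2)) ?_ (Poly.const [])
  refine (Poly.optCases (Poly.getElem? (Poly.fst hg) (Poly.snd hr)) (Poly.const [])
    (h := fun _ (w : Row) => w.2.2.2.1) ?_).congr fun a => ?_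
  · exact Poly.fst (Poly.snd (Poly.snd (Poly.snd (Poly.snd Poly.id))))
  · cases (g a).1[(r a).2]? <;> rfl

theorem poly_gadOf {k : α → ℕ} (hk : Poly k) : Poly (fun a => gadOf (k a)) := by
  unfold gadOf
  exact Poly.ite (Poly.decide_eq hk (Poly.const 0)) (Poly.const _)
    (Poly.ite (Poly.decide_eq hk (Poly.const 1)) (Poly.const _)
    (Poly.ite (Poly.decide_eq hk (Poly.const 2)) (Poly.const _)
    (Poly.ite (Poly.decide_eq hk (Poly.const 3)) (Poly.const _)
    (Poly.ite (Poly.decide_eq hk (Poly.const 4)) (Poly.const _) (Poly.const _)))))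

variable {cs : α → List SCon}

theorem upoly_N (hc : Poly cs) : UPoly (fun a => (datOf (cs a)).dia.N) :=
  UPoly.mul (UPoly.const 3) (UPoly.length hc)

theorem poly_J (hc : Poly cs) :
    Poly (fun a => sortJ (st0 (varsOf (cs a))) (3 * (cs a).length)) :=
  poly_sortJ (poly_st0 (poly_varsOf hc)) (upoly_N hc)

theorem upoly_L (hc : Poly cs) : UPoly (fun a => (datOf (cs a)).L) := UPoly.length (poly_J hc)

theorem upoly_C (hc : Poly cs) : UPoly (fun a => (datOf (cs a)).dia.C) :=
  UPoly.add (upoly_L hc) (UPoly.const 2)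

theorem poly_gk (hc : Poly cs) {l b : α → ℕ} (hl : Poly l) (hb : Poly b) :
    Poly (fun a => (datOf (cs a)).gk (l a) (b a)) := by
  have hsgn : Poly (fun a => (datOf (cs a)).sgn (b a)) :=
    Poly.snd (Poly.getD (poly_litsOf hc) (Poly.getD (poly_st0 (poly_varsOf hc)) hb (Poly.const 0))
      (Poly.const ((0, 0), true)))
  have hJ : Poly (fun a => (datOf (cs a)).J (l a - 1)) :=
    Poly.getD (poly_J hc) (Poly.sub hl (Poly.const 1)) (Poly.const 0)
  have hks : Poly (fun a => (datOf (cs a)).ks (b a / 3)) :=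
    (Poly.optCases (Poly.getElem? hc (Poly.div hb (Poly.const 3))) (Poly.const false)
      (h := fun _ (c : SCon) => c.1) (Poly.fst (Poly.snd Poly.id))).congr fun a => by
        simp only [datOf]
        cases (cs a)[b a / 3]? <;> rfl
  unfold Dat.gk
  refine Poly.ite (Poly.decide_eq hl (Poly.const 0))
    (Poly.ite (Poly.decide_bool hsgn) (Poly.const _) (Poly.const _)) ?_
  refine Poly.ite (Poly.decide_le hl (upoly_L hc).toPoly) ?_ ?_
  · exact Poly.ite (Poly.decide_eq hb hJ) (Poly.const _)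
      (Poly.ite (Poly.decide_eq hb (Poly.succ hJ)) (Poly.const _) (Poly.const _))
  · exact Poly.ite (Poly.decide_eq (Poly.mod hb (Poly.const 3)) (Poly.const 0))
      (Poly.ite (Poly.decide_bool hks) (Poly.const _) (Poly.const _)) (Poly.const _)

theorem poly_gad (hc : Poly cs) {l b : α → ℕ} (hl : Poly l) (hb : Poly b) :
    Poly (fun a => (datOf (cs a)).dia.gad (l a) (b a)) := poly_gadOf (poly_gk hc hl hb)

theorem poly_grp (hc : Poly cs) {k : α → ℕ} (hk : Poly k) :
    Poly (fun a => (datOf (cs a)).dia.grp (k a)) := poly_grpL (poly_reps (poly_varsOf hc)) hk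

theorem poly_sk (hc : Poly cs) {k : α → ℕ} (hk : Poly k) :
    Poly (fun a => (datOf (cs a)).dia.sk (k a)) := by
  have h1 : Poly (fun a => (varsOf (cs a)).getD ((st0 (varsOf (cs a))).getD (k a) 0) (0, 0)) :=
    Poly.getD (poly_varsOf hc) (Poly.getD (poly_st0 (poly_varsOf hc)) hk (Poly.const 0))
      (Poly.const (0, 0))
  refine Poly.ite (Poly.decide_lt hk (upoly_N hc).toPoly) ?_ (Poly.const 0)
  exact Poly.ite (Poly.decide_eq h1 (Poly.const (0, 0))) (Poly.const _)
    (Poly.ite (Poly.decide_eq h1 (Poly.const (0, 1))) (Poly.const _)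
    (Poly.ite (Poly.decide_eq h1 (Poly.const (1, 0))) (Poly.const _)
    (Poly.ite (Poly.decide_eq h1 (Poly.const (1, 1))) (Poly.const _) (Poly.const _))))

theorem poly_hb (hc : Poly cs) {l b : α → ℕ} (hl : Poly l) (hb : Poly b) :
    Poly (fun a => (datOf (cs a)).dia.hb (l a) (b a)) :=
  Poly.ite (Poly.decide_eq hl (Poly.const 0)) (poly_grp hc hb) hb

theorem poly_res (hc : Poly cs) {l b : α → ℕ} {r : α → Ref} (hl : Poly l) (hb : Poly b)
    (hr : Poly r) : Poly (fun a => (datOf (cs a)).dia.res (l a) (b a) (r a)) := by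
  unfold Dia.res
  refine Poly.ite (Poly.decide_eq (Poly.fst hr) (Poly.const 0))
    (poly_nm (Poly.const 1) hl (Poly.add (poly_hb hc hl hb) (Poly.snd hr))) ?_
  refine Poly.ite (Poly.decide_eq (Poly.fst hr) (Poly.const 1))
    (poly_nm (Poly.const 1) (Poly.succ hl) (Poly.add hb (Poly.snd hr))) ?_
  exact poly_nm (Poly.add (Poly.const 2) (Poly.snd hr)) hl hb

theorem poly_mapres (hc : Poly cs) {l b : α → ℕ} {R : α → List Ref} (hl : Poly l) (hb : Poly b)
    (hR : Poly R) : Poly (fun a => (R a).map ((datOf (cs a)).dia.res (l a) (b a))) :=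
  Poly.map (F := fun a r => (datOf (cs a)).dia.res (l a) (b a) r) hR
    (poly_res (hc.comp (Poly.fst Poly.id)) (hl.comp (Poly.fst Poly.id)) (hb.comp (Poly.fst Poly.id))
      (Poly.snd Poly.id))

theorem poly_tR (hc : Poly cs) {l k : α → ℕ} (hl : Poly l) (hk : Poly k) :
    Poly (fun a => (datOf (cs a)).dia.tR (l a) (k a)) := by
  unfold Dia.tR
  refine Poly.flatMap (F := fun a b => if (datOf (cs a)).dia.hb (l a) b ≤ k a then
    (rl ((datOf (cs a)).dia.gad (l a) b) (0, k a - (datOf (cs a)).dia.hb (l a) b)).map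
      ((datOf (cs a)).dia.res (l a) b) else []) (upoly_N hc).range ?_
  have hc' : Poly (fun p : α × ℕ => cs p.1) := hc.comp (Poly.fst Poly.id)
  have hl' : Poly (fun p : α × ℕ => l p.1) := hl.comp (Poly.fst Poly.id)
  have hk' : Poly (fun p : α × ℕ => k p.1) := hk.comp (Poly.fst Poly.id)
  have hb' : Poly (fun p : α × ℕ => p.2) := Poly.snd Poly.id
  have hh := poly_hb hc' hl' hb'
  exact Poly.ite (Poly.decide_le hh hk')
    (poly_mapres hc' hl' hb' (poly_rl (poly_gad hc' hl' hb')
      (Poly.pair (Poly.const 0) (Poly.sub hk' hh)))) (Poly.const [])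

theorem poly_tL (hc : Poly cs) {l k : α → ℕ} (hl : Poly l) (hk : Poly k) :
    Poly (fun a => (datOf (cs a)).dia.tL (l a) (k a)) := by
  unfold Dia.tL
  refine Poly.ite (Poly.decide_eq hl (Poly.const 0)) (Poly.const _) ?_
  refine Poly.flatMap (F := fun a b => if b ≤ k a then
    (ll ((datOf (cs a)).dia.gad (l a - 1) b) (1, k a - b)).map
      ((datOf (cs a)).dia.res (l a - 1) b) else []) (upoly_N hc).range ?_
  have hc' : Poly (fun p : α × ℕ => cs p.1) := hc.comp (Poly.fst Poly.id)
  have hl' : Poly (fun p : α × ℕ => l p.1 - 1) :=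
    Poly.sub (hl.comp (Poly.fst Poly.id)) (Poly.const 1)
  have hk' : Poly (fun p : α × ℕ => k p.1) := hk.comp (Poly.fst Poly.id)
  have hb' : Poly (fun p : α × ℕ => p.2) := Poly.snd Poly.id
  exact Poly.ite (Poly.decide_le hb' hk')
    (poly_mapres hc' hl' hb' (poly_ll (poly_gad hc' hl' hb')
      (Poly.pair (Poly.const 1) (Poly.sub hk' hb')))) (Poly.const [])

theorem poly_tEnt (hc : Poly cs) (cl : Bool) {l k : α → ℕ} (hl : Poly l) (hk : Poly k) :
    Poly (fun a => (datOf (cs a)).dia.tEnt cl (l a) (k a)) := by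
  unfold Dia.tEnt
  refine Poly.pair (poly_nm (Poly.const 1) hl hk) (Poly.pair ?_
    (Poly.append (poly_tL hc hl hk) (poly_tR hc hl hk)))
  exact poly_mkSeg (Poly.mul (Poly.const 12) hl) (Poly.mul (Poly.const 192) hk)
    (Poly.ite (Poly.decide_eq hl (Poly.const 0)) (poly_sk hc hk) (Poly.const 0))

theorem poly_iEnt (hc : Poly cs) (cl : Bool) {l b i : α → ℕ} {w : α → Row} (hl : Poly l)
    (hb : Poly b) (hw : Poly w) (hi : Poly i) :
    Poly (fun a => (datOf (cs a)).dia.iEnt cl (l a) (b a) (w a) (i a)) := by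
  unfold Dia.iEnt
  have hh := poly_hb hc hl hb
  have w1 := Poly.fst hw
  have w2 := Poly.fst (Poly.snd hw)
  have w3 := Poly.fst (Poly.snd (Poly.snd hw))
  have w4 := Poly.fst (Poly.snd (Poly.snd (Poly.snd hw)))
  have w5 := Poly.snd (Poly.snd (Poly.snd (Poly.snd hw)))
  refine Poly.pair (poly_nm (Poly.add (Poly.const 2) hi) hl hb) (Poly.pair ?_
    (poly_mapres hc hl hb (Poly.append w4 w5)))
  exact poly_mkSeg (Poly.add (Poly.mul (Poly.const 12) hl) w1)
    (Poly.add (Poly.add (Poly.mul (Poly.const 192) hh) w2)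
      (Poly.mul (Poly.mul (Poly.const 16) (Poly.sub hb hh)) w1)) w3

theorem poly_cellEnt (hc : Poly cs) (cl : Bool) {l b : α → ℕ} (hl : Poly l) (hb : Poly b) :
    Poly (fun a => (datOf (cs a)).dia.cellEnt cl (l a) (b a)) := by
  unfold Dia.cellEnt
  refine Poly.append ?_ ?_
  · refine Poly.ite (Poly.decide_and (Poly.decide_eq hl (Poly.const 0))
      (Poly.decide_not (Poly.decide_eq (poly_grp hc hb) hb))) (Poly.const [])
      (Poly.cons (poly_tEnt hc cl hl hb) (Poly.const []))
  · refine Poly.map (F := fun a (p : Row × ℕ) =>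
      (datOf (cs a)).dia.iEnt cl (l a) (b a) p.1 p.2)
      (Poly.zipIdx (Poly.fst (poly_gad hc hl hb))) ?_
    exact poly_iEnt (hc.comp (Poly.fst Poly.id)) cl (hl.comp (Poly.fst Poly.id))
      (hb.comp (Poly.fst Poly.id)) (Poly.fst (Poly.snd Poly.id)) (Poly.snd (Poly.snd Poly.id))

theorem poly_rootR (hc : Poly cs) : Poly (fun a => (datOf (cs a)).dia.rootR) := by
  unfold Dia.rootR
  refine Poly.map (F := fun _ k => nm 1 0 k) ?_
    (poly_nm (Poly.const 1) (Poly.const 0) (Poly.snd Poly.id))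
  exact Poly.filter (p := fun a k => decide ((datOf (cs a)).dia.grp k = k)) (upoly_N hc).range
    (Poly.decide_eq (poly_grp (hc.comp (Poly.fst Poly.id)) (Poly.snd Poly.id)) (Poly.snd Poly.id))

theorem poly_inst (hc : Poly cs) (cl : Bool) : Poly (fun a => (datOf (cs a)).dia.inst cl) := by
  have h1 : Poly (fun a => ((root, rootSeg cl, (datOf (cs a)).dia.rootR) ::
      (List.range (datOf (cs a)).dia.C).flatMap fun l =>
        (List.range (datOf (cs a)).dia.N).flatMap fun b => (datOf (cs a)).dia.cellEnt cl l b)) := by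
    refine Poly.cons (Poly.pair (Poly.const root) (Poly.pair (Poly.const _) (poly_rootR hc))) ?_
    refine Poly.flatMap (F := fun a l =>
      (List.range (datOf (cs a)).dia.N).flatMap fun b => (datOf (cs a)).dia.cellEnt cl l b)
      (upoly_C hc).range ?_
    have hc' : Poly (fun p : α × ℕ => cs p.1) := hc.comp (Poly.fst Poly.id)
    refine Poly.flatMap (F := fun (p : α × ℕ) b => (datOf (cs p.1)).dia.cellEnt cl p.2 b)
      (upoly_N hc').range ?_
    exact poly_cellEnt (hc'.comp (Poly.fst Poly.id)) cl (Poly.snd (Poly.fst Poly.id))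
      (Poly.snd Poly.id)
  exact Poly.of_toT ((Poly.pair h1 (Poly.const ([] : List Seg))).toT')

end

/-- The reduction. -/
def red (cl : Bool) (S : List ER.Con) : Inst := (datOf (strict S)).dia.inst cl

theorem poly_red (cl : Bool) : Poly (red cl) := poly_inst (poly_strict Poly.id) cl

end Pool.Agent.NPC.U788Seg
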