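import Pool.Agent.U788.Seg.Sem

/-!
# The meaning of the diagrams of the reduction
-/

namespace Pool.Agent.U788.SegW

open Pool.Agent.K4H90.SegDraw (cr NC shold)

/-- Offsets of inner vertices on their open segments. -/
def MemOff (g : Gadget) (o : ℕ → ℝ) : Prop :=
  ∀ i w, g.1[i]? = some w →
    (w.2.2.1 ≠ 2 ∧ (klo w.2.2.1 : ℝ) - 16 < o i ∧ o i < (khi w.2.2.1 : ℝ) - 16) ∨
    (w.2.2.1 = 2 ∧ (w.1 : ℝ) < o i ∧ o i < (w.1 : ℝ) + 3)

theorem glo_klo (k : ℕ) : glo k ≤ (klo k : ℝ) - 16 := by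
  unfold glo klo
  split_ifs <;> norm_num

theorem khi_ghi (k : ℕ) : (khi k : ℝ) - 16 ≤ ghi k := by
  unfold ghi khi
  split_ifs <;> first | (exfalso; omega) | norm_num

theorem MemOff.off {g : Gadget} {o : ℕ → ℝ} (h : MemOff g o) : OffOK g o := by
  intro i w hw
  rcases h i w hw with ⟨h1, h2, h3⟩ | ⟨h1, h2⟩
  · exact ⟨fun _ => ⟨lt_of_le_of_lt (glo_klo _) h2, lt_of_lt_of_le h3 (khi_ghi _)⟩,
      fun h3 => (h1 h3).elim⟩
  · exact ⟨fun h3 => (h3 h1).elim, fun _ => h2⟩

namespace Dat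

variable {d : Dat}

theorem sec_plain {lo ro o : ℕ → ℝ} {T : ℝ} (hT : 0 < T ∧ T < 16) (ho : OffOK plainG o)
    (h3 : o 3 = 17) : ∀ i < plainG.1.length,
    (cfg plainG lo ro o (2, i)).2 - T ≤ 16 / 3 * (cfg plainG lo ro o (2, i)).1 ∧
      - (16 / 3 * (cfg plainG lo ro o (2, i)).1) ≤ (cfg plainG lo ro o (2, i)).2 - T := by
  obtain ⟨o0a, o0b⟩ : 0 < o 0 ∧ o 0 < 16 := by
    simpa [glo, ghi] using (ho 0 _ rfl).1 (by norm_num)
  obtain ⟨o1a, o1b⟩ : 0 < o 1 ∧ o 1 < 16 := by
    simpa [glo, ghi] using (ho 1 _ rfl).1 (by norm_num)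
  obtain ⟨o2a, o2b⟩ : 0 < o 2 ∧ o 2 < 16 := by
    simpa [glo, ghi] using (ho 2 _ rfl).1 (by norm_num)
  obtain ⟨o4a, o4b⟩ : -16 < o 4 ∧ o 4 < 0 := by
    simpa [glo, ghi] using (ho 4 _ rfl).1 (by norm_num)
  obtain ⟨T0, T1⟩ := hT
  intro i hi
  have hi' : i < 5 := hi
  interval_cases i
  · rw [plain_q2_0]; simp only; constructor <;> linarith
  · rw [plain_q2_1]; simp only; constructor <;> linarith
  · rw [plain_q2_2]; simp only; constructor <;> linarith
  · rw [plain_q2_3]; simp only; constructor <;> linarith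
  · rw [plain_q2_4]; simp only; constructor <;> linarith

theorem sec_neg {lo ro o : ℕ → ℝ} {T : ℝ} (hT : 0 < T ∧ T < 16) (ho : OffOK negG o) :
    ∀ i < negG.1.length,
    (cfg negG lo ro o (2, i)).2 - T ≤ 16 / 3 * (cfg negG lo ro o (2, i)).1 ∧
      - (16 / 3 * (cfg negG lo ro o (2, i)).1) ≤ (cfg negG lo ro o (2, i)).2 - T := by
  obtain ⟨o0a, o0b⟩ : 0 < o 0 ∧ o 0 < 16 := by
    simpa [glo, ghi] using (ho 0 _ rfl).1 (by norm_num)
  obtain ⟨o1a, o1b⟩ : -16 < o 1 ∧ o 1 < 0 := by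
    simpa [glo, ghi] using (ho 1 _ rfl).1 (by norm_num)
  obtain ⟨T0, T1⟩ := hT
  intro i hi
  have hi' : i < 2 := hi
  interval_cases i
  · rw [neg_q2_0]; simp only; constructor <;> linarith
  · rw [neg_q2_1]; simp only; constructor <;> linarith

theorem sec_all (b : ℕ) {lo ro o : ℕ → ℝ} {T : ℝ} (hT : 0 < T ∧ T < 16)
    (ho : OffOK (gadOf (d.gk 0 b)) o) (h3 : d.gk 0 b = 0 → o 3 = 17) :
    ∀ i < (gadOf (d.gk 0 b)).1.length,
    (cfg (gadOf (d.gk 0 b)) lo ro o (2, i)).2 - T ≤
        16 / 3 * (cfg (gadOf (d.gk 0 b)) lo ro o (2, i)).1 ∧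
      - (16 / 3 * (cfg (gadOf (d.gk 0 b)) lo ro o (2, i)).1) ≤
        (cfg (gadOf (d.gk 0 b)) lo ro o (2, i)).2 - T := by
  rw [gk_zero] at ho h3 ⊢
  by_cases hs : d.sgn b = true
  · rw [if_pos hs] at ho h3 ⊢
    exact sec_plain hT ho (h3 rfl)
  · rw [if_neg hs] at ho ⊢
    exact sec_neg hT ho

theorem off_ref (b : ℕ) : OffOK (gadOf (d.gk 0 b)) (oRef (d.gk 0 b)) := by
  rw [gk_zero]
  split_ifs
  · exact offR0
  · exact offR1

theorem good_ref : Dia.Good d.dia (fun _ _ => 8) (fun l b => oRef (d.gk l b)) where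
  ht := fun _ _ => by norm_num
  geo := fun l _ b _ => geo_ref (d.gk l b)
  sec := fun b _ => sec_all b (by norm_num) (off_ref b) (fun h => by
    show oRef (d.gk 0 b) 3 = 17
    rw [h]; simp [oRef, oL])

theorem valid (h : d.OK) (cl : Bool) : (d.dia.inst cl).Valid :=
  Dia.valid (dia_ok h) good_ref cl

theorem planar (h : d.OK) (cl : Bool) : (d.dia.inst cl).Planar :=
  Dia.planar (dia_ok h) good_ref cl

theorem connected (h : d.OK) (cl : Bool) : (d.dia.inst cl).Connected :=
  Dia.connected (dia_ok h)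

/-! ### Values -/

theorem mo0 {D : ℝ} {lo : ℕ → ℝ} (hD : 0 < D) (m0 : 10 * D < lo 0 ∧ lo 0 + 10 * D < 16) :
    MemOff plainG (oVal D lo 0) := by
  intro i w hw
  have hi : i < 5 := (List.getElem?_eq_some_iff.1 hw).1
  interval_cases i <;>
    (simp [plainG] at hw; subst hw; norm_num [oVal, oL, klo, khi]; try (constructor <;> linarith))

theorem mo1 {D : ℝ} {lo : ℕ → ℝ} (hD : 0 < D) (m0 : 10 * D < lo 0 ∧ lo 0 + 10 * D < 16) :
    MemOff negG (oVal D lo 1) := by
  intro i w hw
  have hi : i < 2 := (List.getElem?_eq_some_iff.1 hw).1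
  interval_cases i <;>
    (simp [negG] at hw; subst hw; norm_num [oVal, oL, klo, khi]; try (constructor <;> linarith))

theorem mo2 {D : ℝ} {lo : ℕ → ℝ} (hD : 0 < D) (m0 : 10 * D < lo 0 ∧ lo 0 + 10 * D < 16)
    (m1 : 10 * D < lo 1 ∧ lo 1 + 10 * D < 16) :
    MemOff swapG (oVal D lo 2) := by
  intro i w hw
  have hi : i < 22 := (List.getElem?_eq_some_iff.1 hw).1
  interval_cases i <;>
    (simp [swapG] at hw; subst hw; norm_num [oVal, oL, klo, khi]; try (constructor <;> linarith))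

theorem mo3 {D : ℝ} {lo : ℕ → ℝ} (hD : 0 < D) (m1 : 10 * D < lo 1 ∧ lo 1 + 10 * D < 16)
    (m2 : 10 * D < lo 2 ∧ lo 2 + 10 * D < 16) :
    MemOff linG (oVal D lo 3) := by
  intro i w hw
  have hi : i < 9 := (List.getElem?_eq_some_iff.1 hw).1
  interval_cases i <;>
    (simp [linG] at hw; subst hw; norm_num [oVal, oL, klo, khi]; try (constructor <;> linarith))

theorem v_range {s : ℝ} (h1 : 1 / 3 < s) (h2 : s < 2 / 3) :
    7 < 4 + 2 / (1 - s) ∧ 4 + 2 / (1 - s) < 10 := by
  have h3 : 0 < 1 - s := by linarith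
  constructor
  · have : 3 < 2 / (1 - s) := by rw [lt_div_iff₀ h3]; linarith
    linarith
  · have : 2 / (1 - s) < 6 := by rw [div_lt_iff₀ h3]; linarith
    linarith

theorem mo4 {D : ℝ} {lo : ℕ → ℝ} (hD : 0 < D) (m0 : 10 * D < lo 0 ∧ lo 0 + 10 * D < 16)
    (m1 : 10 * D < lo 1 ∧ lo 1 + 10 * D < 16)
    (m2 : 10 * D < lo 2 ∧ lo 2 + 10 * D < 16)
    (hs : 1 / 3 < (lo 0 + 3 * D) / 16 ∧ (lo 0 + 3 * D) / 16 < 2 / 3) :
    MemOff prodG (oVal D lo 4) := by
  have hv := v_range hs.1 hs.2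
  intro i w hw
  have hi : i < 18 := (List.getElem?_eq_some_iff.1 hw).1
  interval_cases i <;>
    (simp [prodG] at hw; subst hw; norm_num [oVal, oL, klo, khi]; try (constructor <;> linarith))

theorem gv0 {D : ℝ} {lo ro : ℕ → ℝ} (hD : 0 < D) (m0 : 10 * D < lo 0 ∧ lo 0 + 10 * D < 16)
    (hr : ro 0 = lo 0 + 10 * D) : GeoOK plainG (cfg plainG lo ro (oVal D lo 0)) := by
  refine plain_geo ?_ ?_ (mo0 hD m0).off ?_ ?_
  · intro i hi
    interval_cases i
    constructor <;> linarith
  · intro i hi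
    interval_cases i
    rw [hr]
    constructor <;> linarith
  · simp [oVal, oL]; linarith
  · simp [oVal, oL]; linarith

theorem gv1 {D : ℝ} {lo ro : ℕ → ℝ} (hD : 0 < D) (m0 : 10 * D < lo 0 ∧ lo 0 + 10 * D < 16)
    (hr : ro 0 = 16 - lo 0 + 10 * D) : GeoOK negG (cfg negG lo ro (oVal D lo 1)) := by
  refine neg_geo ?_ ?_ (mo1 hD m0).off ?_
  · intro i hi
    interval_cases i
    constructor <;> linarith
  · intro i hi
    interval_cases i
    rw [hr]
    constructor <;> linarith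
  · simp [oVal, oL]; linarith

theorem gv2 {D : ℝ} {lo ro : ℕ → ℝ} (hD : 0 < D) (m0 : 10 * D < lo 0 ∧ lo 0 + 10 * D < 16)
    (m1 : 10 * D < lo 1 ∧ lo 1 + 10 * D < 16)
    (hr0 : ro 0 = lo 1 + 10 * D) (hr1 : ro 1 = lo 0 + 10 * D) :
    GeoOK swapG (cfg swapG lo ro (oVal D lo 2)) := by
  refine swap_geo ?_ ?_ (mo2 hD m0 m1).off ?_ ?_ ?_ ?_ ?_ ?_ ?_ ?_ ?_ ?_
  · intro i hi
    interval_cases i
    · constructor <;> linarith
    · constructor <;> linarith
  · intro i hi
    interval_cases i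
    · rw [hr0]
      constructor <;> linarith
    · rw [hr1]
      constructor <;> linarith
  all_goals (simp [oVal, oL]; linarith)

theorem gv3 {D : ℝ} {lo ro : ℕ → ℝ} (hD : 0 < D) (m0 : 10 * D < lo 0 ∧ lo 0 + 10 * D < 16)
    (m1 : 10 * D < lo 1 ∧ lo 1 + 10 * D < 16) (m2 : 10 * D < lo 2 ∧ lo 2 + 10 * D < 16)
    (hc : lo 0 + lo 2 + 2 * lo 1 + 4 * D < 32) :
    GeoOK linG (cfg linG lo ro (oVal D lo 3)) := by
  refine lin_geo ?_ ?_ (mo3 hD m1 m2).off ?_ ?_ ?_ ?_
  · intro i hi
    interval_cases i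
    · constructor <;> linarith
    · constructor <;> linarith
    · constructor <;> linarith
  · intro i hi
    omega
  all_goals (simp [oVal, oL]; linarith)

theorem gv4 {D : ℝ} {lo ro : ℕ → ℝ} (hD : 0 < D) (m0 : 10 * D < lo 0 ∧ lo 0 + 10 * D < 16)
    (m1 : 10 * D < lo 1 ∧ lo 1 + 10 * D < 16) (m2 : 10 * D < lo 2 ∧ lo 2 + 10 * D < 16)
    (hs : 1 / 3 < (lo 0 + 3 * D) / 16 ∧ (lo 0 + 3 * D) / 16 < 2 / 3)
    (hc : (16 + lo 1 + 2 * D) * ((lo 0 + 3 * D) / 16) < 20 - lo 2 - D) :
    GeoOK prodG (cfg prodG lo ro (oVal D lo 4)) := by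
  have h1s : 0 < 1 - (lo 0 + 3 * D) / 16 := by linarith [hs.2]
  set s := (lo 0 + 3 * D) / 16 with hsdef
  have h2 : 0 < 2 / (1 - s) := by positivity
  have h3 : 2 / (1 - s) * (1 - s) = 2 := div_mul_cancel₀ _ h1s.ne'
  have e10 : oVal D lo 4 10 = 4 + 2 / (1 - s) := by simp [oVal, oL, hsdef]
  have e7 : oVal D lo 4 7 = lo 1 + 2 * D := by simp [oVal, oL]
  have e9 : oVal D lo 4 9 = 16 - lo 2 - D := by simp [oVal, oL]
  have e3 : oVal D lo 4 3 = lo 0 + 2 * D := by simp [oVal, oL]
  have e11 : oVal D lo 4 11 = 8 - D := by simp [oVal, oL]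
  have e1' : oVal D lo 4 1 = 16 - lo 0 - D := by simp [oVal, oL]
  refine prod_geo ?_ ?_ (mo4 hD m0 m1 m2 hs).off ?_ ?_ ?_ ?_ ?_ ?_ ?_ ?_ ?_
  · intro i hi
    interval_cases i
    · constructor <;> linarith
    · constructor <;> linarith
    · constructor <;> linarith
  · intro i hi
    omega
  · simp [oVal, oL]; linarith
  · simp [oVal, oL]; linarith
  · simp [oVal, oL]; linarith
  · simp [oVal, oL]; linarith
  · simp [oVal, oL]; linarith
  · rw [e7, e9, e10]
    have k1 : 4 + 2 / (1 - s) - 6 = 2 / (1 - s) * s := by linarith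
    have k2 : 4 + 2 / (1 - s) - 4 = 2 / (1 - s) := by ring
    rw [k1, k2]
    have k3 : (16 + (lo 1 + 2 * D)) * (2 / (1 - s) * s) =
      ((16 + lo 1 + 2 * D) * s) * (2 / (1 - s)) := by ring
    rw [k3]
    apply mul_lt_mul_of_pos_right _ h2
    linarith
  · rw [e3, e10, e11]
    have k1 : 4 + 2 / (1 - s) - 6 = 2 / (1 - s) * s := by linarith
    have k2 : 4 + 2 / (1 - s) - 4 = 2 / (1 - s) := by ring
    rw [k1, k2]
    have k3 : (8 + (8 - D)) * (2 / (1 - s) * s) = (16 * s - D * s) * (2 / (1 - s)) := by ring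
    rw [k3]
    apply mul_lt_mul_of_pos_right _ h2
    have k4 : D * s < D * 1 := mul_lt_mul_of_pos_left (by linarith) hD
    have k5 : 16 * s = lo 0 + 3 * D := by rw [hsdef]; ring
    rw [k5]
    linarith
  · rw [e11]; linarith
  · rw [e1', e3, e11]; linarith

/-! ### The signals -/

/-- The effect of a swap on the tracks. -/
def sw (j k : ℕ) : ℕ := if k = j then j + 1 else if k = j + 1 then j else k

/-- The initial track of the signal on a track after `i` swaps. -/
def tr (d : Dat) : ℕ → ℕ → ℕ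
  | 0, k => k
  | i + 1, k => d.tr i (sw (d.J i) k)

/-- The initial signals. -/
noncomputable def lit (d : Dat) (s : ℕ → ℝ) (k : ℕ) : ℝ :=
  if d.sgn k = true then s (d.grp k) else 1 - s (d.grp k)

theorem sw_lt {N j k : ℕ} (hj : j + 1 < N) (hk : k < N) : sw j k < N := by
  unfold sw
  split_ifs <;> omega

theorem tr_lt (h : d.OK) : ∀ i ≤ d.L, ∀ k < 3 * d.T, d.tr i k < 3 * d.T
  | 0, _, k, hk => hk
  | i + 1, hi, k, hk => tr_lt h i (by omega) _ (sw_lt (h.hJ i (by omega)) hk)

/-- The tests hold for given values of the sources. -/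
def Tests (d : Dat) (s : ℕ → ℝ) : Prop :=
  ∀ τ < d.T, shold (d.ks τ) (d.lit s (d.tr d.L (3 * τ))) (d.lit s (d.tr d.L (3 * τ + 1)))
    (d.lit s (d.tr d.L (3 * τ + 2)))

theorem sound (h : d.OK) {cl : Bool} (hs : (d.dia.inst cl).Solvable) :
    ∃ s : ℕ → ℝ, (∀ k, 0 ≤ s k ∧ s k ≤ 1) ∧
      (∀ k < 3 * d.T, d.grp k = k →
        (klo (d.sk k) : ℝ) - 16 ≤ 16 * s k ∧ 16 * s k ≤ (khi (d.sk k) : ℝ) - 16) ∧
      d.Tests s := by
  obtain ⟨D, hD, hm, -⟩ := hs
  obtain ⟨t, o, hF⟩ := Dia.forced (dia_ok h) hD hm (by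
    intro b hb i w hw h2
    have : (d.dia.gad 0 b) = gadOf (d.gk 0 b) := rfl
    rw [this, gk_zero] at hw
    split_ifs at hw
    · have hw' : plainG.1[i]? = some w := hw
      have hi : i < 5 := (List.getElem?_eq_some_iff.1 hw').1
      interval_cases i <;> (simp [plainG] at hw'; subst hw'; simp at h2)
    · have hw' : negG.1[i]? = some w := hw
      have hi : i < 2 := (List.getElem?_eq_some_iff.1 hw').1
      interval_cases i <;> (simp [negG] at hw'; subst hw'; simp at h2)) (by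
    intro k
    have e : d.dia.sk k = d.sk k := rfl
    rw [e]
    rcases h.hs k with h3 | h3 | h3 | h3 | h3 <;> omega)
  have hN : d.dia.N = 3 * d.T := rfl
  have hC : d.dia.C = d.L + 2 := rfl
  have hr : ∀ k < 3 * d.T, d.grp k = k → 0 ≤ t 0 k ∧ t 0 k ≤ 16 := fun k hk hg =>
    hF.ht 0 (by rw [hC]; omega) k hk (fun _ => hg)
  set s : ℕ → ℝ := fun k => if k < 3 * d.T ∧ d.grp k = k then t 0 k / 16 else 1 / 2 with hsd
  have hs0 : ∀ k < 3 * d.T, d.grp k = k → s k = t 0 k / 16 := by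
    intro k hk hg
    rw [hsd]
    simp only
    rw [if_pos ⟨hk, hg⟩]
  have hsr : ∀ k, 0 ≤ s k ∧ s k ≤ 1 := by
    intro k
    rw [hsd]
    simp only
    split_ifs with h1
    · have := hr k h1.1 h1.2
      constructor <;> linarith
    · norm_num
  refine ⟨s, hsr, ?_, ?_⟩
  · intro k hk hg
    have e : d.dia.sk k = d.sk k := rfl
    have := hF.hs k hk hg
    rw [e] at this
    rw [hs0 k hk hg]
    constructor <;> linarith [this.1, this.2]
  -- the signals
  have hlit : ∀ k, 0 ≤ d.lit s k := by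
    intro k
    unfold lit
    have := hsr (d.grp k)
    split_ifs <;> linarith
  have sig : ∀ i ≤ d.L, ∀ k < 3 * d.T, 16 * d.lit s (d.tr i k) < t (i + 1) k := by
    intro i
    induction i with
    | zero =>
      intro _ k hk
      have hsnd := hF.snd 0 (by rw [hC]; omega) k hk
      have e1 : d.dia.gad 0 k = gadOf (d.gk 0 k) := rfl
      have e2 : d.dia.hb 0 k = d.grp k := rfl
      have hgk : d.grp k < 3 * d.T := lt_of_le_of_lt (h.g1 k) hk
      rw [e1, gk_zero, e2] at hsnd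
      simp only [tr]
      unfold lit
      rw [hs0 _ hgk (h.g2 k)]
      split_ifs with h1
      · rw [if_pos h1] at hsnd
        have := plain_snd (show SndOK plainG _ _ _ from hsnd)
        simp only [add_zero, zero_add] at this
        linarith
      · rw [if_neg h1] at hsnd
        have := neg_snd (show SndOK negG _ _ _ from hsnd)
        simp only [add_zero, zero_add] at this
        linarith
    | succ i ih =>
      intro hi k hk
      have ih' := ih (by omega)
      have hJ := h.hJ i (by omega)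
      simp only [tr]
      have hb1 : ∀ b, d.dia.hb (i + 1) b = b := fun b => Dia.hb_pos (by omega) b
      have h1 := ih' (sw (d.J i) k) (sw_lt hJ hk)
      refine lt_trans h1 ?_
      by_cases hk1 : k = d.J i
      · have hsnd := hF.snd (i + 1) (by rw [hC]; omega) (d.J i) (by rw [hN]; omega)
        have e1 : d.dia.gad (i + 1) (d.J i) = gadOf (d.gk (i + 1) (d.J i)) := rfl
        rw [e1, gk_layer (by omega), if_pos rfl, hb1] at hsnd
        have := (swap_snd (show SndOK swapG _ _ _ from hsnd)).2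
        simp only [add_zero] at this
        unfold sw
        rw [if_pos hk1, hk1]
        exact this
      · by_cases hk2 : k = d.J i + 1
        · have hsnd := hF.snd (i + 1) (by rw [hC]; omega) (d.J i) (by rw [hN]; omega)
          have e1 : d.dia.gad (i + 1) (d.J i) = gadOf (d.gk (i + 1) (d.J i)) := rfl
          rw [e1, gk_layer (by omega), if_pos rfl, hb1] at hsnd
          have := (swap_snd (show SndOK swapG _ _ _ from hsnd)).1
          simp only [add_zero] at this
          unfold sw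
          rw [if_neg hk1, if_pos hk2, hk2]
          exact this
        · have hsnd := hF.snd (i + 1) (by rw [hC]; omega) k hk
          have e1 : d.dia.gad (i + 1) k = gadOf (d.gk (i + 1) k) := rfl
          rw [e1, gk_layer (by omega), if_neg hk1, if_neg hk2, hb1] at hsnd
          have := plain_snd (show SndOK plainG _ _ _ from hsnd)
          simp only [add_zero] at this
          unfold sw
          rw [if_neg hk1, if_neg hk2]
          exact this
  intro τ hτ
  have s0 := sig d.L le_rfl (3 * τ) (by omega)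
  have s1 := sig d.L le_rfl (3 * τ + 1) (by omega)
  have s2 := sig d.L le_rfl (3 * τ + 2) (by omega)
  have p0 := hlit (d.tr d.L (3 * τ))
  have p1 := hlit (d.tr d.L (3 * τ + 1))
  have hsnd := hF.snd (d.L + 1) (by rw [hC]; omega) (3 * τ) (by rw [hN]; omega)
  have e1 : d.dia.gad (d.L + 1) (3 * τ) = gadOf (d.gk (d.L + 1) (3 * τ)) := rfl
  have hb1 : d.dia.hb (d.L + 1) (3 * τ) = 3 * τ := Dia.hb_pos (by omega) _
  have e3 : 3 * τ / 3 = τ := by omega
  rw [e1, gk_last, if_pos (by omega), hb1, e3] at hsnd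
  unfold shold
  split_ifs with hk
  · rw [if_pos hk] at hsnd
    have := prod_snd (show SndOK prodG _ _ _ from hsnd)
    simp only [add_zero] at this
    have k1 : (1 + d.lit s (d.tr d.L (3 * τ + 1))) * d.lit s (d.tr d.L (3 * τ)) * 256 ≤
        (16 + t (d.L + 1) (3 * τ + 1)) * t (d.L + 1) (3 * τ) := by
      calc (1 + d.lit s (d.tr d.L (3 * τ + 1))) * d.lit s (d.tr d.L (3 * τ)) * 256
          = (16 + 16 * d.lit s (d.tr d.L (3 * τ + 1))) * (16 * d.lit s (d.tr d.L (3 * τ))) := by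
            ring
        _ ≤ _ := mul_le_mul (by linarith) s0.le (by linarith) (by linarith)
    linarith
  · rw [if_neg hk] at hsnd
    have := lin_snd (show SndOK linG _ _ _ from hsnd)
    simp only [add_zero] at this
    linarith

/-! ### Completeness -/

theorem exists_min (f : ℕ → ℝ) : ∀ n : ℕ, (∀ k < n, 0 < f k) → ∃ m, 0 < m ∧ ∀ k < n, m ≤ f k
  | 0, _ => ⟨1, one_pos, fun k hk => by omega⟩
  | n + 1, h => by
    obtain ⟨m, hm, h1⟩ := exists_min f n fun k hk => h k (by omega)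
    refine ⟨min m (f n), lt_min hm (h n (by omega)), fun k hk => ?_⟩
    rcases Nat.lt_succ_iff_lt_or_eq.1 hk with h2 | rfl
    · exact (min_le_left _ _).trans (h1 k h2)
    · exact min_le_right _ _

/-- The offsets of the ports. -/
noncomputable def tV (d : Dat) (s : ℕ → ℝ) (δ : ℝ) (l k : ℕ) : ℝ :=
  if l = 0 then 16 * s k else
  if l ≤ d.L + 1 ∧ k < 3 * d.T then 16 * (d.lit s (d.tr (l - 1) k) + 10 * δ * l) else 8

/-- The offsets of the inner vertices. -/
noncomputable def oV (d : Dat) (s : ℕ → ℝ) (δ : ℝ) (l b : ℕ) : ℕ → ℝ :=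
  oVal (16 * δ) (fun i => d.tV s δ l (d.dia.hb l b + i)) (d.gk l b)

theorem complete (h : d.OK) {s : ℕ → ℝ} (hs : ∀ k, 0 < s k ∧ s k < 1)
    (h1 : ∀ k, (klo (d.sk k) : ℝ) - 16 < 16 * s k ∧ 16 * s k < (khi (d.sk k) : ℝ) - 16)
    (hT : d.Tests s)
    (hmid : ∀ τ < d.T, d.ks τ = true → 2 / 5 < d.lit s (d.tr d.L (3 * τ)) ∧
      d.lit s (d.tr d.L (3 * τ)) < 3 / 5) (cl : Bool) : (d.dia.inst cl).Solvable := by
  have hlit : ∀ k, 0 < d.lit s k ∧ d.lit s k < 1 := by
    intro k
    unfold lit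
    have := hs (d.grp k)
    split_ifs <;> constructor <;> linarith
  -- the margin
  obtain ⟨m1, hm1, hm1'⟩ := exists_min (fun k => min (d.lit s k) (1 - d.lit s k)) (3 * d.T)
    (fun k _ => lt_min (hlit k).1 (by linarith [(hlit k).2]))
  obtain ⟨m2, hm2, hm2'⟩ := exists_min (fun τ => if d.ks τ = true then
      5 / 4 - ((1 + d.lit s (d.tr d.L (3 * τ + 1))) * d.lit s (d.tr d.L (3 * τ)) +
        d.lit s (d.tr d.L (3 * τ + 2))) else
      2 - (d.lit s (d.tr d.L (3 * τ)) + d.lit s (d.tr d.L (3 * τ + 2)) +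
        2 * d.lit s (d.tr d.L (3 * τ + 1)))) d.T (by
    intro τ hτ
    have := hT τ hτ
    unfold shold at this
    split_ifs at this ⊢ <;> linarith)
  obtain ⟨m3, hm3, hm3'⟩ := exists_min (fun k => min (s k) (1 - s k)) (3 * d.T)
    (fun k _ => lt_min (hs k).1 (by linarith [(hs k).2]))
  set m := min m1 (min m2 m3) with hm
  have hm0 : 0 < m := lt_min hm1 (lt_min hm2 hm3)
  have hml : ∀ k < 3 * d.T, m ≤ d.lit s k ∧ d.lit s k ≤ 1 - m := by
    intro k hk
    have e1 := (min_le_left m1 (min m2 m3)).trans (hm1' k hk)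
    have e2 := e1.trans (min_le_left _ _)
    have e3 := e1.trans (min_le_right _ _)
    constructor <;> linarith
  have hms : ∀ k < 3 * d.T, m ≤ s k ∧ s k ≤ 1 - m := by
    intro k hk
    have e0 := (min_le_right m1 (min m2 m3)).trans (min_le_right m2 m3)
    have e1 := e0.trans (hm3' k hk)
    have e2 := e1.trans (min_le_left _ _)
    have e3 := e1.trans (min_le_right _ _)
    constructor <;> linarith
  have hmt : ∀ τ < d.T, m ≤ if d.ks τ = true then
      5 / 4 - ((1 + d.lit s (d.tr d.L (3 * τ + 1))) * d.lit s (d.tr d.L (3 * τ)) +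
        d.lit s (d.tr d.L (3 * τ + 2))) else
      2 - (d.lit s (d.tr d.L (3 * τ)) + d.lit s (d.tr d.L (3 * τ + 2)) +
        2 * d.lit s (d.tr d.L (3 * τ + 1))) := by
    intro τ hτ
    exact ((min_le_right m1 (min m2 m3)).trans (min_le_left m2 m3)).trans (hm2' τ hτ)
  have hmhalf : m ≤ 1 / 2 := by
    have := hml 0 (by have := h.hT; omega)
    linarith
  set δ : ℝ := m / (100 * ((d.L : ℝ) + 2)) with hδ
  have hL0 : (0 : ℝ) ≤ (d.L : ℝ) := Nat.cast_nonneg _
  have hδ0 : 0 < δ := by positivity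
  have hδL : 100 * δ * ((d.L : ℝ) + 2) = m := by
    rw [hδ]; field_simp
  have hδs : 200 * δ ≤ m := by nlinarith
  have hstep : ∀ l : ℕ, l ≤ d.L + 1 → 100 * (δ * (l : ℝ)) + 100 * δ ≤ m := by
    intro l hl
    have : (l : ℝ) ≤ (d.L : ℝ) + 1 := by exact_mod_cast hl
    nlinarith
  have hstep0 : ∀ l : ℕ, 0 ≤ δ * (l : ℝ) := fun l => by positivity
  set t := d.tV s δ with ht
  have ht0 : ∀ k, t 0 k = 16 * s k := fun k => by rw [ht]; unfold tV; rw [if_pos rfl]
  have htl : ∀ i ≤ d.L, ∀ k < 3 * d.T,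
      t (i + 1) k = 16 * (d.lit s (d.tr i k) + 10 * δ * ((i + 1 : ℕ) : ℝ)) := by
    intro i hi k hk
    rw [ht]
    unfold tV
    rw [if_neg (by omega), if_pos ⟨by omega, hk⟩, Nat.add_sub_cancel]
  -- margins of the ports
  have mar : ∀ l ≤ d.L + 1, ∀ k < 3 * d.T, 10 * (16 * δ) < t l k ∧ t l k + 10 * (16 * δ) < 16 := by
    intro l hl k hk
    rcases Nat.eq_zero_or_pos l with h0 | h0
    · subst h0
      rw [ht0]
      have := hms k hk
      constructor <;> linarith
    · obtain ⟨i, rfl⟩ : ∃ i, l = i + 1 := ⟨l - 1, by omega⟩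
      rw [htl i (by omega) k hk]
      have e1 := hml _ (tr_lt h i (by omega) k hk)
      have e2 := hstep (i + 1) hl
      have e3 := hstep0 (i + 1)
      constructor <;> linarith
  have hbnd : ∀ l k, 0 < t l k ∧ t l k < 16 := by
    intro l k
    by_cases h0 : l = 0
    · subst h0
      rw [ht0]
      have := hs k
      constructor <;> linarith
    · by_cases h4 : l ≤ d.L + 1 ∧ k < 3 * d.T
      · have := mar l h4.1 k h4.2
        constructor <;> linarith
      · rw [ht]
        unfold tV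
        rw [if_neg h0, if_neg h4]
        norm_num
  have hN : d.dia.N = 3 * d.T := rfl
  have hC : d.dia.C = d.L + 2 := rfl
  have hhb : ∀ l b, d.dia.hb l b ≤ b := fun l b => Dia.hb_le (dia_ok h) l b
  have hD : (0 : ℝ) < 16 * δ := by positivity
  -- the geometry and the membership of all cells
  have key : ∀ l < d.L + 2, ∀ b < 3 * d.T,
      GeoOK (gadOf (d.gk l b)) (cfg (gadOf (d.gk l b)) (fun i => t l (d.dia.hb l b + i))
        (fun i => t (l + 1) (b + i)) (d.oV s δ l b)) ∧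
      (∀ i w, (gadOf (d.gk l b)).1[i]? = some w →
        (w.2.2.1 ≠ 2 ∧ (klo w.2.2.1 : ℝ) - 16 < d.oV s δ l b i ∧
          d.oV s δ l b i < (khi w.2.2.1 : ℝ) - 16) ∨
        (w.2.2.1 = 2 ∧ l ≠ 0 ∧ (w.1 : ℝ) < d.oV s δ l b i ∧ d.oV s δ l b i < (w.1 : ℝ) + 3)) := by
    intro l hl b hb
    have hoV : d.oV s δ l b = oVal (16 * δ) (fun i => t l (d.dia.hb l b + i)) (d.gk l b) := rfl
    rw [hoV]
    have no2 : ∀ {g : Gadget} {o : ℕ → ℝ}, MemOff g o →
        (∀ (i : ℕ) (w : Row), g.1[i]? = some w → w.2.2.1 ≠ 2) →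
        ∀ (i : ℕ) (w : Row), g.1[i]? = some w →
          (w.2.2.1 ≠ 2 ∧ (klo w.2.2.1 : ℝ) - 16 < o i ∧ o i < (khi w.2.2.1 : ℝ) - 16) ∨
          (w.2.2.1 = 2 ∧ l ≠ 0 ∧ (w.1 : ℝ) < o i ∧ o i < (w.1 : ℝ) + 3) := by
      intro g o hmo hne i w hw
      rcases hmo i w hw with h5 | h5
      · exact Or.inl h5
      · exact (hne i w hw h5.1).elim
    have nz : ∀ {g : Gadget} {o : ℕ → ℝ}, MemOff g o → l ≠ 0 →
        ∀ (i : ℕ) (w : Row), g.1[i]? = some w →
          (w.2.2.1 ≠ 2 ∧ (klo w.2.2.1 : ℝ) - 16 < o i ∧ o i < (khi w.2.2.1 : ℝ) - 16) ∨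
          (w.2.2.1 = 2 ∧ l ≠ 0 ∧ (w.1 : ℝ) < o i ∧ o i < (w.1 : ℝ) + 3) := by
      intro g o hmo hne i w hw
      rcases hmo i w hw with h5 | h5
      · exact Or.inl h5
      · exact Or.inr ⟨h5.1, hne, h5.2⟩
    rcases col_cases hl with rfl | ⟨i, hi, rfl⟩ | rfl
    · have hgb : d.grp b < 3 * d.T := lt_of_le_of_lt (h.g1 b) hb
      have e2 : d.dia.hb 0 b = d.grp b := rfl
      rw [gk_zero, e2]
      have mm := mar 0 (by omega) _ hgb
      have ev : t 1 b = 16 * (d.lit s b + 10 * δ) := by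
        have := htl 0 (by omega) b hb
        simpa [tr] using this
      split_ifs with hsg
      · have hl0 : d.lit s b = s (d.grp b) := by unfold lit; rw [if_pos hsg]
        refine ⟨gv0 hD mm ?_, no2 (mo0 hD mm) ?_⟩
        · simp only [add_zero, zero_add]
          rw [ev, hl0, ht0]; ring
        · intro i w hw h2
          have hw' : plainG.1[i]? = some w := hw
          have hi : i < 5 := (List.getElem?_eq_some_iff.1 hw').1
          interval_cases i <;> (simp [plainG] at hw'; subst hw'; simp at h2)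
      · have hl0 : d.lit s b = 1 - s (d.grp b) := by unfold lit; rw [if_neg hsg]
        refine ⟨gv1 hD mm ?_, no2 (mo1 hD mm) ?_⟩
        · simp only [add_zero, zero_add]
          rw [ev, hl0, ht0]; ring
        · intro i w hw h2
          have hw' : negG.1[i]? = some w := hw
          have hi : i < 2 := (List.getElem?_eq_some_iff.1 hw').1
          interval_cases i <;> (simp [negG] at hw'; subst hw'; simp at h2)
    · have e2 : d.dia.hb (i + 1) b = b := Dia.hb_pos (by omega) b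
      have hJ := h.hJ i hi
      rw [gk_layer hi, e2]
      have ev : ∀ k < 3 * d.T, t (i + 1 + 1) k = t (i + 1) (sw (d.J i) k) + 10 * (16 * δ) := by
        intro k hk
        rw [htl (i + 1) (by omega) k hk, htl i (by omega) _ (sw_lt hJ hk)]
        simp only [tr]
        push_cast
        ring
      by_cases hb1 : b = d.J i
      · rw [if_pos hb1]
        have mm0 := mar (i + 1) (by omega) b hb
        have mm1 := mar (i + 1) (by omega) (b + 1) (by omega)
        refine ⟨gv2 hD mm0 mm1 ?_ ?_, nz (mo2 hD mm0 mm1) (by omega)⟩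
        · simp only [add_zero]
          rw [ev b hb]
          unfold sw
          rw [if_pos hb1, hb1]
        · simp only [add_zero]
          rw [ev (b + 1) (by omega)]
          unfold sw
          rw [if_neg (by omega), if_pos (by omega), hb1]
      · rw [if_neg hb1]
        by_cases hb2 : b = d.J i + 1
        · rw [if_pos hb2]
          refine ⟨empty_geo _, fun i w hw => ?_⟩
          simp [gadOf, emptyG] at hw
        · rw [if_neg hb2]
          have mm0 := mar (i + 1) (by omega) b hb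
          refine ⟨gv0 hD mm0 ?_, nz (mo0 hD mm0) (by omega)⟩
          simp only [add_zero]
          rw [ev b hb]
          unfold sw
          rw [if_neg hb1, if_neg hb2]
    · have e2 : d.dia.hb (d.L + 1) b = b := Dia.hb_pos (by omega) b
      rw [gk_last, e2]
      by_cases hb3 : b % 3 = 0
      · rw [if_pos hb3]
        obtain ⟨τ, rfl⟩ : ∃ τ, b = 3 * τ := ⟨b / 3, by omega⟩
        have hτ : τ < d.T := by omega
        have e3 : 3 * τ / 3 = τ := by omega
        rw [e3]
        have mm0 := mar (d.L + 1) le_rfl (3 * τ) hb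
        have mm1 := mar (d.L + 1) le_rfl (3 * τ + 1) (by omega)
        have mm2 := mar (d.L + 1) le_rfl (3 * τ + 2) (by omega)
        have v0 := htl d.L le_rfl (3 * τ) hb
        have v1 := htl d.L le_rfl (3 * τ + 1) (by omega)
        have v2 := htl d.L le_rfl (3 * τ + 2) (by omega)
        have e4 := hstep (d.L + 1) le_rfl
        have e5 := hstep0 (d.L + 1)
        have hmt' := hmt τ hτ
        split_ifs with hk
        · rw [if_pos hk] at hmt'
          have hmd := hmid τ hτ hk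
          set a' := d.lit s (d.tr d.L (3 * τ + 1)) with ha'
          set b' := d.lit s (d.tr d.L (3 * τ)) with hb'
          set c' := d.lit s (d.tr d.L (3 * τ + 2)) with hc'
          set E := δ * ((d.L + 1 : ℕ) : ℝ) with hE
          have la := hlit (d.tr d.L (3 * τ + 1))
          rw [← ha'] at la
          have v0' : t (d.L + 1) (3 * τ) = 16 * b' + 160 * E := by rw [v0, hE]; ring
          have v1' : t (d.L + 1) (3 * τ + 1) = 16 * a' + 160 * E := by rw [v1, hE]; ring
          have v2' : t (d.L + 1) (3 * τ + 2) = 16 * c' + 160 * E := by rw [v2, hE]; ring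
          have hs' : 1 / 3 < (t (d.L + 1) (3 * τ + 0) + 3 * (16 * δ)) / 16 ∧
              (t (d.L + 1) (3 * τ + 0) + 3 * (16 * δ)) / 16 < 2 / 3 := by
            rw [add_zero, v0']
            constructor <;> linarith [hmd.1, hmd.2]
          refine ⟨gv4 hD mm0 mm1 mm2 hs' ?_, nz (mo4 hD mm0 mm1 mm2 hs') (by omega)⟩
          simp only [add_zero]
          rw [v0', v1', v2']
          have y0 : 0 ≤ 10 * E + 3 * δ := by linarith
          have k1 : (1 + a' + (10 * E + 2 * δ)) * (b' + (10 * E + 3 * δ)) ≤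
              (1 + a') * b' + 4 * (10 * E + 3 * δ) := by
            have w1 : (10 * E + 2 * δ) * b' ≤ (10 * E + 3 * δ) * 1 :=
              mul_le_mul (by linarith) (by linarith [hmd.2]) (by linarith [hmd.1]) y0
            have w2 : (10 * E + 2 * δ) * (10 * E + 3 * δ) ≤ 1 * (10 * E + 3 * δ) :=
              mul_le_mul_of_nonneg_right (by linarith) y0
            have w3 : a' * (10 * E + 3 * δ) ≤ 1 * (10 * E + 3 * δ) :=
              mul_le_mul_of_nonneg_right la.2.le y0
            linarith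
          have k2 : (16 + (16 * a' + 160 * E) + 2 * (16 * δ)) *
              ((16 * b' + 160 * E + 3 * (16 * δ)) / 16) =
              16 * ((1 + a' + (10 * E + 2 * δ)) * (b' + (10 * E + 3 * δ))) := by ring
          rw [k2]
          linarith
        · rw [if_neg hk] at hmt'
          refine ⟨gv3 hD mm0 mm1 mm2 ?_, nz (mo3 hD mm1 mm2) (by omega)⟩
          simp only [add_zero]
          rw [v0, v1, v2]
          linarith
      · rw [if_neg hb3]
        refine ⟨empty_geo _, fun i w hw => ?_⟩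
        simp [gadOf, emptyG] at hw
  have hGood : Dia.Good d.dia t (d.oV s δ) :=
    ⟨hbnd, fun l hl b hb => (key l hl b hb).1, fun b hb => by
      refine sec_all b (hbnd 0 _) ?_ ?_
      · have hmo : MemOff (gadOf (d.gk 0 b)) (d.oV s δ 0 b) := by
          intro i w hw
          rcases (key 0 (by omega) b hb).2 i w hw with h5 | h5
          · exact Or.inl h5
          · exact (h5.2.1 rfl).elim
        exact hmo.off
      · intro h0
        have hoV : d.oV s δ 0 b = oVal (16 * δ) (fun i => t 0 (d.dia.hb 0 b + i)) (d.gk 0 b) :=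
          rfl
        rw [hoV, h0]
        simp [oVal, oL]⟩
  have hMem : Dia.Mem d.dia t (d.oV s δ) := by
    refine ⟨hbnd, fun k => ?_, fun l hl b hb => (key l hl b hb).2⟩
    have e : d.dia.sk k = d.sk k := rfl
    rw [e, ht0]
    refine ⟨?_, h1 k⟩
    rcases h.hs k with h5 | h5 | h5 | h5 | h5 <;> omega
  exact Dia.solvable (dia_ok h) hGood hMem cl

end Dat

end Pool.Agent.U788.SegW
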