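import Pool.Agent.U788.Seg.Draw

/-!
# Positions on the segments; what a planar drawing of a diagram forces
-/

namespace Pool.Agent.U788.SegW

open Pool.Agent.K4H90.SegDraw (cr NC hdiff seg_lin seg_line seg_x pl pl_inj cr_pl mem_segment_pl)

theorem pts_of_open {s : Seg} {p : ℝ × ℝ} (h : p ∈ openSegment ℝ (toR s.p) (toR s.q)) :
    p ∈ s.pts := by
  unfold Seg.pts
  split_ifs
  · exact openSegment_subset_segment ℝ _ _ h
  · exact h

theorem seg_of_pts {s : Seg} {p : ℝ × ℝ} (h : p ∈ s.pts) :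
    p ∈ segment ℝ (toR s.p) (toR s.q) := by
  unfold Seg.pts at h
  split_ifs at h
  · exact h
  · exact openSegment_subset_segment ℝ _ _ h

theorem klo_lt_khi (k : ℕ) : klo k < khi k := by
  unfold klo khi
  split_ifs <;> omega

theorem mkv_mem {cl : Bool} {X Y k : ℕ} {p : ℝ × ℝ} (hk : k ≠ 2) (h1 : p.1 = X)
    (h2 : (Y : ℝ) + klo k < p.2) (h3 : p.2 < (Y : ℝ) + khi k) : p ∈ (mkSeg cl X Y k).pts := by
  apply pts_of_open
  have hd : (0 : ℝ) < (khi k : ℝ) - klo k := by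
    have : ((klo k : ℕ) : ℝ) < ((khi k : ℕ) : ℝ) := by exact_mod_cast klo_lt_khi k
    linarith
  have e : (p.2 - (Y + klo k)) / ((khi k : ℝ) - klo k) * ((khi k : ℝ) - klo k) =
      p.2 - (Y + klo k) := div_mul_cancel₀ _ hd.ne'
  refine ⟨1 - (p.2 - (Y + klo k)) / ((khi k : ℝ) - klo k),
    (p.2 - (Y + klo k)) / ((khi k : ℝ) - klo k), ?_, ?_, by ring, ?_⟩
  · rw [sub_pos, div_lt_one hd]; linarith
  · exact div_pos (by linarith) hd
  · unfold mkSeg toR
    rw [if_neg hk]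
    ext
    · simp only [Prod.fst_add, Prod.smul_fst, smul_eq_mul, h1]
      push_cast
      ring
    · simp only [Prod.snd_add, Prod.smul_snd, smul_eq_mul]
      push_cast
      linarith

theorem mk2_mem {cl : Bool} {X Y : ℕ} {p : ℝ × ℝ} (h1 : p.2 = (Y : ℝ) + 16) (h2 : (X : ℝ) < p.1)
    (h3 : p.1 < (X : ℝ) + 3) : p ∈ (mkSeg cl X Y 2).pts := by
  apply pts_of_open
  refine ⟨1 - (p.1 - X) / 3, (p.1 - X) / 3, by linarith, by linarith, by ring, ?_⟩
  unfold mkSeg toR
  rw [if_pos rfl]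
  ext
  · simp only [Prod.fst_add, Prod.smul_fst, smul_eq_mul]
    push_cast
    ring
  · simp only [Prod.snd_add, Prod.smul_snd, smul_eq_mul, h1]
    push_cast
    ring

theorem of_mk {cl : Bool} {X Y k : ℕ} {p : ℝ × ℝ} (h : p ∈ (mkSeg cl X Y k).pts) :
    (k ≠ 2 → p.1 = X ∧ (Y : ℝ) + klo k ≤ p.2 ∧ p.2 ≤ (Y : ℝ) + khi k) ∧
    (k = 2 → p.2 = (Y : ℝ) + 16 ∧ (X : ℝ) ≤ p.1 ∧ p.1 ≤ (X : ℝ) + 3) := by
  have h0 := seg_of_pts h
  have hd : ((klo k : ℕ) : ℝ) ≤ ((khi k : ℕ) : ℝ) := by exact_mod_cast (klo_lt_khi k).le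
  have bd : ∀ α β γ : ℝ, α * (toR (mkSeg cl X Y k).p).1 + β * (toR (mkSeg cl X Y k).p).2 ≤ γ →
    α * (toR (mkSeg cl X Y k).q).1 + β * (toR (mkSeg cl X Y k).q).2 ≤ γ →
    α * p.1 + β * p.2 ≤ γ := fun α β γ => seg_lin h0
  unfold mkSeg toR at bd
  refine ⟨fun hk => ?_, fun hk => ?_⟩
  · simp only [if_neg hk] at bd
    push_cast at bd
    have e1 := bd 1 0 X (by linarith) (by linarith)
    have e2 := bd (-1) 0 (-X) (by linarith) (by linarith)
    have e3 := bd 0 1 (Y + khi k) (by linarith) (by linarith)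
    have e4 := bd 0 (-1) (-(Y + klo k)) (by linarith) (by linarith)
    refine ⟨by linarith, by linarith, by linarith⟩
  · simp only [if_pos hk] at bd
    push_cast at bd
    have e1 := bd 1 0 (X + 3) (by linarith) (by linarith)
    have e2 := bd (-1) 0 (-X) (by linarith) (by linarith)
    have e3 := bd 0 1 (Y + 16) (by linarith) (by linarith)
    have e4 := bd 0 (-1) (-(Y + 16)) (by linarith) (by linarith)
    refine ⟨by linarith, by linarith, by linarith⟩

namespace Dia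

variable {G : Dia}

/-- The offsets respect the segments (open version). -/
structure Mem (G : Dia) (t : ℕ → ℕ → ℝ) (o : ℕ → ℕ → ℕ → ℝ) : Prop where
  ht : ∀ l k, 0 < t l k ∧ t l k < 16
  hs : ∀ k, G.sk k ≠ 2 ∧ (klo (G.sk k) : ℝ) - 16 < t 0 k ∧ t 0 k < (khi (G.sk k) : ℝ) - 16
  hi : ∀ l < G.C, ∀ b < G.N, ∀ i w, (G.gad l b).1[i]? = some w →
    (w.2.2.1 ≠ 2 ∧ (klo w.2.2.1 : ℝ) - 16 < o l b i ∧ o l b i < (khi w.2.2.1 : ℝ) - 16) ∨
      (w.2.2.1 = 2 ∧ l ≠ 0 ∧ (w.1 : ℝ) < o l b i ∧ o l b i < (w.1 : ℝ) + 3)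

theorem klo0 : klo 0 = 16 := by decide

theorem khi0 : khi 0 = 32 := by decide

theorem mem_all (h : G.OK) {t : ℕ → ℕ → ℝ} {o : ℕ → ℕ → ℕ → ℝ} (hM : Mem G t o) (cl : Bool) :
    ∀ e ∈ (G.inst cl).verts, G.pos t o e.1 ∈ e.2.1.pts := by
  intro e he
  rcases mem_verts.1 he with rfl | ⟨l, hl, k, hk, h0, rfl⟩ | ⟨l, hl, b, hb, i, w, hw, rfl⟩
  · simp only [pos_root]
    apply pts_of_open
    refine ⟨1 / 2, 1 / 2, by norm_num, by norm_num, by norm_num, ?_⟩
    unfold rootSeg toR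
    ext
    · simp only [Prod.fst_add, Prod.smul_fst, smul_eq_mul]
      norm_num
    · simp only [Prod.snd_add, Prod.smul_snd, smul_eq_mul]
      norm_num
  · unfold tEnt
    simp only [pos_T]
    have t1 := hM.ht l k
    by_cases hl0 : l = 0
    · subst hl0
      rw [if_pos rfl]
      obtain ⟨h1, h2, h3⟩ := hM.hs k
      refine mkv_mem h1 ?_ ?_ ?_ <;> push_cast <;> linarith
    · rw [if_neg hl0]
      refine mkv_mem (by norm_num) ?_ ?_ ?_
      · push_cast; ring
      · rw [klo0]; push_cast; linarith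
      · rw [khi0]; push_cast; linarith
  · unfold iEnt
    simp only [pos_in]
    have hhb := hb_le h l b
    have hq : G.q t o l b (2, i) = if w.2.2.1 = 2 then (o l b i, (w.2.1 : ℝ)) else
      ((w.1 : ℝ), (w.2.1 : ℝ) + o l b i) := by
      unfold q
      rw [cfg_inn _ _ _ hw]
    rw [hq]
    unfold plc pl
    rcases hM.hi l hl b hb i w hw with ⟨h1, h2, h3⟩ | ⟨h1, h2, h3, h4⟩
    · rw [if_neg h1]
      refine mkv_mem h1 ?_ ?_ ?_ <;> push_cast [Nat.cast_sub hhb] <;> linarith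
    · rw [h1, if_pos rfl]
      have e0 : G.hb l b = b := hb_pos h2 b
      rw [e0, Nat.sub_self, sub_self]
      refine mk2_mem ?_ ?_ ?_ <;> push_cast <;> linarith

/-- A good configuration on the segments gives a solution of the instance. -/
theorem solvable (h : G.OK) {t : ℕ → ℕ → ℝ} {o : ℕ → ℕ → ℕ → ℝ} (hG : Good G t o)
    (hM : Mem G t o) (cl : Bool) : (G.inst cl).Solvable :=
  ⟨_, isDrawing h hG cl, mem_all h hM cl, fun _ _ _ s hs => by simp [inst] at hs⟩

/-! ### Soundness -/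

/-- What a planar drawing of a diagram gives. -/
structure Forced (G : Dia) (t : ℕ → ℕ → ℝ) (o : ℕ → ℕ → ℕ → ℝ) : Prop where
  ht : ∀ l < G.C, ∀ k < G.N, (l = 0 → G.grp k = k) → 0 ≤ t l k ∧ t l k ≤ 16
  hs : ∀ k < G.N, G.grp k = k →
    (klo (G.sk k) : ℝ) - 16 ≤ t 0 k ∧ t 0 k ≤ (khi (G.sk k) : ℝ) - 16
  snd : ∀ l < G.C, ∀ b < G.N, SndOK (G.gad l b) (fun i => t l (G.hb l b + i))
    (fun i => t (l + 1) (b + i)) (o l b)

theorem cfg_xrange {g : Gadget} {lo ro o : ℕ → ℝ} (ho : OffCl g o) {r : Ref} (hr : r ∈ refs g) :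
    (xlo g r : ℝ) ≤ (cfg g lo ro o r).1 ∧ (cfg g lo ro o r).1 ≤ (xhi g r : ℝ) := by
  rcases ref_cases hr with ⟨i, hi, rfl⟩ | ⟨i, hi, rfl⟩ | ⟨i, hi, rfl⟩
  · rw [cfg_lp]; simp [xlo, xhi]
  · rw [cfg_rp]; simp [xlo, xhi]
  · have hw : g.1[i]? = some g.1[i] := List.getElem?_eq_getElem hi
    obtain ⟨-, o2⟩ := ho i _ hw
    rw [cfg_inn lo ro o hw]
    unfold xlo xhi
    simp only [show (2 : ℕ) ≠ 0 by norm_num, show (2 : ℕ) ≠ 1 by norm_num, if_false, hw,
      Option.map_some, Option.getD_some]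
    split_ifs with hk
    · have := o2 hk
      push_cast
      exact this
    · simp

theorem forced (h : G.OK) {cl : Bool} {D : ℕ → ℝ × ℝ} (hD : (G.inst cl).IsDrawing D)
    (hm : ∀ e ∈ (G.inst cl).verts, D e.1 ∈ e.2.1.pts)
    (hk2 : ∀ b < G.N, ∀ (i : ℕ) (w : Row), (G.gad 0 b).1[i]? = some w → w.2.2.1 ≠ 2)
    (hk3 : ∀ k, G.sk k ≠ 2 ∧ G.sk k ≠ 4 ∧ G.sk k ≠ 5) :
    ∃ t o, Forced G t o := by
  set t : ℕ → ℕ → ℝ := fun l k => (D (nm 1 l k)).2 - (192 * (k : ℝ) + 16) with ht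
  set o : ℕ → ℕ → ℕ → ℝ := fun l b i => match (G.gad l b).1[i]? with
    | some w => if w.2.2.1 = 2 then (D (nm (2 + i) l b)).1 - 12 * (l : ℝ) else
      (D (nm (2 + i) l b)).2 - (192 * (G.hb l b : ℝ) + 16 + (w.2.1 : ℝ) +
        16 * ((b : ℝ) - (G.hb l b : ℝ)) * (w.1 : ℝ))
    | none => 0 with ho
  have hoff : ∀ l < G.C, ∀ b < G.N, OffCl (G.gad l b) (o l b) := by
    intro l hl b hb i w hw
    have e1 := hm _ (mem_verts.2 (Or.inr (Or.inr ⟨l, hl, b, hb, i, w, hw, rfl⟩)))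
    unfold iEnt at e1
    simp only at e1
    obtain ⟨k1, k2⟩ := of_mk e1
    have hhb := hb_le h l b
    have eo : o l b i = if w.2.2.1 = 2 then (D (nm (2 + i) l b)).1 - 12 * (l : ℝ) else
      (D (nm (2 + i) l b)).2 - (192 * (G.hb l b : ℝ) + 16 + (w.2.1 : ℝ) +
        16 * ((b : ℝ) - (G.hb l b : ℝ)) * (w.1 : ℝ)) := by
      rw [ho]; simp only [hw]
    rw [eo]
    push_cast [Nat.cast_sub hhb] at k1 k2
    refine ⟨fun hk => ?_, fun hk => ?_⟩
    · rw [if_neg hk]
      obtain ⟨-, k3, k4⟩ := k1 hk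
      constructor <;> linarith
    · rw [if_pos hk]
      have := k2 hk
      constructor <;> linarith
  have hpos : ∀ u ∈ (G.inst cl).names, u ≠ root → D u = G.pos t o u := by
    intro u hu hur
    unfold Inst.names at hu
    rw [List.mem_map] at hu
    obtain ⟨e, he, rfl⟩ := hu
    have e1 := hm e he
    rcases mem_verts.1 he with rfl | ⟨l, hl, k, hk, h0, rfl⟩ | ⟨l, hl, b, hb, i, w, hw, rfl⟩
    · exact (hur rfl).elim
    · unfold tEnt at e1 ⊢
      simp only at e1 ⊢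
      rw [pos_T]
      have k1 := ((of_mk e1).1 (by
        split_ifs
        · exact (hk3 k).1
        · norm_num)).1
      ext
      · simp only [k1]; push_cast; ring
      · simp only [ht]; ring
    · unfold iEnt at e1 ⊢
      simp only at e1 ⊢
      obtain ⟨k1, k2⟩ := of_mk e1
      have hhb := hb_le h l b
      have hq : G.q t o l b (2, i) = if w.2.2.1 = 2 then (o l b i, (w.2.1 : ℝ)) else
        ((w.1 : ℝ), (w.2.1 : ℝ) + o l b i) := by
        unfold q
        rw [cfg_inn _ _ _ hw]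
      have eo : o l b i = if w.2.2.1 = 2 then (D (nm (2 + i) l b)).1 - 12 * (l : ℝ) else
        (D (nm (2 + i) l b)).2 - (192 * (G.hb l b : ℝ) + 16 + (w.2.1 : ℝ) +
          16 * ((b : ℝ) - (G.hb l b : ℝ)) * (w.1 : ℝ)) := by
        rw [ho]; simp only [hw]
      rw [pos_in, hq, eo]
      unfold plc pl
      by_cases hk : w.2.2.1 = 2
      · rw [if_pos hk, if_pos hk]
        have hl0 : l ≠ 0 := by
          rintro rfl
          exact hk2 b hb i w hw hk
        have e0 : G.hb l b = b := hb_pos hl0 b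
        have k6 := (k2 hk).1
        rw [e0] at k6 ⊢
        push_cast [Nat.sub_self] at k6
        ext
        · simp only; ring
        · simp only [k6]; ring
      · rw [if_neg hk, if_neg hk]
        have k6 := (k1 hk).1
        ext
        · simp only [k6]; push_cast; ring
        · simp only; ring
  have hres : ∀ l < G.C, ∀ b < G.N, ∀ r ∈ refs (G.gad l b),
      D (G.res l b r) = G.plc l b (G.q t o l b r) := by
    intro l hl b hb r hr
    rw [hpos _ (res_mem_names h hl hb hr) res_ne_root, pos_res t o hr]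
  -- direction of the edges
  have dir : ∀ l < G.C, ∀ b < G.N, ∀ s r, s ∈ refs (G.gad l b) → r ∈ rl (G.gad l b) s →
      (D (G.res l b s)).1 < (D (G.res l b r)).1 := by
    intro l hl b hb s r hs hr
    have hr0 := ((h.ok l hl b hb).1 _ hs _ hr).1
    rw [hres l hl b hb _ hs, hres l hl b hb _ hr0]
    have h1 := List.all_eq_true.1 (h.num l hl b hb) (s, r) (mem_edgesOf.2 ⟨hs, hr⟩)
    simp only [decide_eq_true_eq] at h1
    have h2 : (xhi (G.gad l b) s : ℝ) < (xlo (G.gad l b) r : ℝ) := by exact_mod_cast h1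
    have h3 := (cfg_xrange (lo := fun i => t l (G.hb l b + i))
      (ro := fun i => t (l + 1) (b + i)) (hoff l hl b hb) hs).2
    have h4 := (cfg_xrange (lo := fun i => t l (G.hb l b + i))
      (ro := fun i => t (l + 1) (b + i)) (hoff l hl b hb) hr0).1
    unfold plc pl q
    simp only
    linarith
  have hport : ∀ l < G.C, ∀ k < G.N, (l = 0 → G.grp k = k) →
      (0 ≤ t l k ∧ t l k ≤ 16) ∧
      (l = 0 → (klo (G.sk k) : ℝ) - 16 ≤ t 0 k ∧ t 0 k ≤ (khi (G.sk k) : ℝ) - 16) := by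
    intro l hl k hk h0
    have e1 := hm _ (mem_verts.2 (Or.inr (Or.inl ⟨l, hl, k, hk, h0, rfl⟩)))
    unfold tEnt at e1
    simp only at e1
    by_cases hl0 : l = 0
    · subst hl0
      rw [if_pos rfl] at e1
      obtain ⟨n2, n4, n5⟩ := hk3 k
      obtain ⟨-, e3, e4⟩ := (of_mk e1).1 n2
      push_cast at e3 e4
      have k1 : 16 ≤ klo (G.sk k) := by
        unfold klo
        rw [if_neg n4, if_neg n5]
        split_ifs <;> omega
      have k2 : khi (G.sk k) ≤ 32 := by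
        unfold khi
        rw [if_neg n4, if_neg n5]
        split_ifs <;> omega
      have k1' : (16 : ℝ) ≤ (klo (G.sk k) : ℝ) := by exact_mod_cast k1
      have k2' : (khi (G.sk k) : ℝ) ≤ 32 := by exact_mod_cast k2
      rw [ht]
      simp only
      refine ⟨⟨by linarith, by linarith⟩, fun _ => ⟨by linarith, by linarith⟩⟩
    · rw [if_neg hl0] at e1
      obtain ⟨-, e3, e4⟩ := (of_mk e1).1 (by norm_num)
      rw [klo0] at e3
      rw [khi0] at e4
      push_cast at e3 e4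
      rw [ht]
      simp only
      exact ⟨⟨by linarith, by linarith⟩, fun h1 => (hl0 h1).elim⟩
  refine ⟨t, o, fun l hl k hk h0 => (hport l hl k hk h0).1,
    fun k hk hg => (hport 0 h.hC k hk fun _ => hg).2 rfl, ?_⟩
  intro l hl b hb
  refine ⟨?_, ?_, hoff l hl b hb, ?_, ?_⟩
  · intro i hi
    have hs : ((0, i) : Ref) ∈ refs (G.gad l b) := mem_refs.2 (Or.inl ⟨rfl, hi⟩)
    have hm' := res_mem_names h (cl := cl) hl hb hs
    rw [res_lp] at hm'
    rcases mem_names.1 hm' with h1 | ⟨l', hl', k, hk, h0, h1⟩ | ⟨l', hl', b', hb', i', hi', h1⟩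
    · unfold root at h1; rw [nm_inj] at h1; omega
    · rw [nm_inj] at h1
      obtain ⟨-, rfl, h2⟩ := h1
      rw [h2]
      exact (hport l hl k hk h0).1
    · rw [nm_inj] at h1; omega
  · intro i hi
    have hs : ((1, i) : Ref) ∈ refs (G.gad l b) := mem_refs.2 (Or.inr (Or.inl ⟨rfl, hi⟩))
    have hm' := res_mem_names h (cl := cl) hl hb hs
    rw [res_rp] at hm'
    rcases mem_names.1 hm' with h1 | ⟨l', hl', k, hk, h0, h1⟩ | ⟨l', hl', b', hb', i', hi', h1⟩
    · unfold root at h1; rw [nm_inj] at h1; omega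
    · rw [nm_inj] at h1
      obtain ⟨-, h3, h2⟩ := h1
      subst h3
      rw [h2]
      exact (hport _ hl' k hk h0).1
    · rw [nm_inj] at h1; omega
  · intro i hi j hj hij
    have hs : ((2, i) : Ref) ∈ refs (G.gad l b) := mem_refs.2 (Or.inr (Or.inr ⟨rfl, hi⟩))
    have hs' : ((2, j) : Ref) ∈ refs (G.gad l b) := mem_refs.2 (Or.inr (Or.inr ⟨rfl, hj⟩))
    have h1 : D (G.res l b (2, i)) = D (G.res l b (2, j)) := by
      rw [hres l hl b hb _ hs, hres l hl b hb _ hs']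
      exact congrArg _ hij
    have h2 := hD.inj _ (res_mem_names h hl hb hs) _ (res_mem_names h hl hb hs') h1
    have h3 := res_inj hs hs' h2
    rw [Prod.mk.injEq] at h3
    exact h3.2
  · rintro ⟨s, r⟩ he ⟨s', r'⟩ hf hne
    obtain ⟨hs, hr⟩ := mem_edgesOf.1 he
    obtain ⟨hs', hr'⟩ := mem_edgesOf.1 hf
    have hr0 := ((h.ok l hl b hb).1 _ hs _ hr).1
    have hr0' := ((h.ok l hl b hb).1 _ hs' _ hr').1
    have n1 : (G.inst cl).Nbr (G.res l b s) (G.res l b r) := by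
      rw [nbr_iff h]
      exact Or.inl (Or.inr ⟨l, hl, b, hb, s, r, hs, hr, rfl, rfl⟩)
    have n2 : (G.inst cl).Nbr (G.res l b s') (G.res l b r') := by
      rw [nbr_iff h]
      exact Or.inl (Or.inr ⟨l, hl, b, hb, s', r', hs', hr', rfl, rfl⟩)
    have d1 := dir l hl b hb s r hs hr
    have d2 := dir l hl b hb s' r' hs' hr'
    have hS : s(G.res l b s, G.res l b r) ≠ s(G.res l b s', G.res l b r') := by
      intro hc
      rw [Sym2.eq_iff] at hc
      rcases hc with ⟨h1, h2⟩ | ⟨h1, h2⟩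
      · have := res_inj hs hs' h1
        have := res_inj hr0 hr0' h2
        apply hne
        simp only [*]
      · rw [h1, h2] at d1
        linarith
    have hnc : NC (D (G.res l b s)) (D (G.res l b r)) (D (G.res l b s')) (D (G.res l b r')) := by
      intro p hp hp'
      obtain ⟨w, w1, w2, rfl⟩ := hD.plane _ _ _ _ n1 n2 hS p hp hp'
      rw [Sym2.mem_iff] at w1 w2
      constructor
      · rcases w1 with rfl | rfl
        · exact Or.inl rfl
        · exact Or.inr rfl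
      · rcases w2 with rfl | rfl
        · exact Or.inl rfl
        · exact Or.inr rfl
    rw [hres l hl b hb _ hs, hres l hl b hb _ hr0, hres l hl b hb _ hs',
      hres l hl b hb _ hr0'] at hnc
    exact NC_of_pl hnc

end Dia

end Pool.Agent.U788.SegW
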